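import Pool.Agent.H.MP_d7db32_ag.Eq.L.Eig

/-!
# MP_d7db32_ag, Eq/L/EigX: existence of a basis of generalized eigenvectors

`Module.End.iSup_maxGenEigenspace_eq_top`, `Module.End.independent_maxGenEigenspace`,
`DirectSum.IsInternal.collectedBasis` (or an inductive choice) for `Matrix.toLin' C`, reindexed to `Fin m`; the columns
of `S` are the basis vectors. `col`: `Module.End.maxGenEigenspace` = generalized eigenspace of exponent `finrank = m`.
`only`: expand `v` in the basis, group by the values of `β`: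
`v = ∑ v_ν`, `v_ν` in the generalized eigenspace of `ν`; if `(C - μ) ^ k v = 0` then by independence
`v_ν = 0` for `ν ≠ μ`.
-/

set_option autoImplicit false

namespace PadDet.Eq

open Matrix

private theorem EigX_pow {m : ℕ} (C : Matrix (Fin m) (Fin m) ℂ) (μ : ℂ) (k : ℕ)
    (v : Fin m → ℂ) : ((Matrix.toLin' C - μ • (1 : Module.End ℂ (Fin m → ℂ))) ^ k) v =
      ((C - Matrix.diagonal fun _ => μ) ^ k) *ᵥ v := by
  have h1 : Matrix.toLin' C - μ • (1 : Module.End ℂ (Fin m → ℂ)) =
      Matrix.toLin' (C - Matrix.diagonal fun _ => μ) := by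
    rw [map_sub]
    congr 1
    apply LinearMap.ext
    intro x
    funext i
    simp [Matrix.mulVec_diagonal]
  rw [h1, ← Matrix.toLin'_pow, Matrix.toLin'_apply]

theorem exists_eig {m : ℕ} (C : Matrix (Fin m) (Fin m) ℂ) : ∃ S S' β, Eig C S S' β := by
  classical
  let f : Module.End ℂ (Fin m → ℂ) := Matrix.toLin' C
  have hint : DirectSum.IsInternal f.maxGenEigenspace :=
    DirectSum.isInternal_submodule_of_iSupIndep_of_iSup_eq_top
      f.independent_maxGenEigenspace (Module.End.iSup_maxGenEigenspace_eq_top f)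
  let w : ∀ μ : ℂ, Module.Basis (Fin (Module.finrank ℂ (f.maxGenEigenspace μ))) ℂ
      (f.maxGenEigenspace μ) := fun μ => Module.finBasis ℂ _
  let b := hint.collectedBasis w
  let e := b.indexEquiv (Pi.basisFun ℂ (Fin m))
  let b' := b.reindex e
  have hrepr : ∀ (v : Fin m → ℂ) (a : Fin m),
      (b'.toMatrix (Pi.basisFun ℂ (Fin m)) *ᵥ v) a = b.repr v (e.symm a) := by
    intro v a
    have h1 := (Pi.basisFun ℂ (Fin m)).toMatrix_mulVec_repr b' v
    have h2 : ((Pi.basisFun ℂ (Fin m)).repr v : Fin m → ℂ) = v := by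
      funext i
      simp
    rw [h2] at h1
    rw [h1]
    simp [b']
  refine ⟨(Pi.basisFun ℂ (Fin m)).toMatrix b', b'.toMatrix (Pi.basisFun ℂ (Fin m)),
    fun a => (e.symm a).1, ?_, ?_, ?_, ?_⟩
  · exact b'.toMatrix_mul_toMatrix_flip (Pi.basisFun ℂ (Fin m))
  · exact (Pi.basisFun ℂ (Fin m)).toMatrix_mul_toMatrix_flip b'
  · intro a
    have h1 : (fun i => (Pi.basisFun ℂ (Fin m)).toMatrix b' i a) = b (e.symm a) := by
      funext i
      rw [Module.Basis.toMatrix_apply]
      simp [b']
    have h2 : b (e.symm a) ∈ f.maxGenEigenspace (e.symm a).1 :=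
      hint.collectedBasis_mem w (e.symm a)
    rw [Module.End.maxGenEigenspace_eq_genEigenspace_finrank, Module.End.mem_genEigenspace_nat,
      LinearMap.mem_ker, Module.finrank_fin_fun] at h2
    rw [h1, ← EigX_pow]
    exact h2
  · intro μ k v hv a ha
    rw [hrepr] at ha
    by_contra hne
    apply ha
    have h1 : v ∈ f.maxGenEigenspace μ := by
      rw [Module.End.mem_maxGenEigenspace]
      exact ⟨k, by rw [EigX_pow]; exact hv⟩
    exact hint.collectedBasis_repr_of_mem_ne w (Ne.symm hne) h1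

end PadDet.Eq
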