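import Pool.Agent.H.MP_d7db32_ag.Eq.L.Spl
import Pool.Agent.H.MP_d7db32_ag.Eq.L.EigX

/-!
# MP_d7db32_ag, Eq/L/Lab: eigenvalues of morphisms of a primitive pencil

`lab_one`: `S, T` invertible; for a value `p₀ = p (β a₀)` let `y = S diagonal(p (β a) = p₀) S'`,
`x = T diagonal(p (α b) = p₀) T'`; `eig_mor` (with `z = 1` for `L`) shows that `T' L S` and
`T' M(E_ij) S` commute with the diagonal matrices; so `(x, y)` is an idempotent endomorphism
(`mor_id`) and `y ≠ 0`, so `y = 1`, `x = 1`. For `m = 0` take any `p₀`.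
`endo_nil`: `lab_one` with `p = id`, `z = 1`: all the generalized eigenvalues are equal to `χ`, so
`y - χ` is nilpotent (`Eig.col`), the same for `x`.
-/

set_option autoImplicit false

namespace PadDet.Eq

open Matrix

variable {k m : ℕ} {c : ℂ} {L : Matrix (Fin m) (Fin m) ℂ}
  {M : Matrix (Fin (2 * k + 1)) (Fin (2 * k + 1)) ℂ →ₗ[ℂ] Matrix (Fin m) (Fin m) ℂ}

private theorem Lab_comm {N T T' S S' dx dy : Matrix (Fin m) (Fin m) ℂ} (hT : T * T' = 1)
    (hS : S * S' = 1) (h : dx * (T' * N * S) = (T' * N * S) * dy) :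
    (T * dx * T') * N = N * (S * dy * S') := by
  calc (T * dx * T') * N = T * dx * T' * N * (S * S') := by rw [hS, Matrix.mul_one]
    _ = T * (dx * (T' * N * S)) * S' := by simp only [Matrix.mul_assoc]
    _ = T * ((T' * N * S) * dy) * S' := by rw [h]
    _ = (T * T') * N * (S * dy * S') := by simp only [Matrix.mul_assoc]
    _ = N * (S * dy * S') := by rw [hT, Matrix.one_mul]

private theorem Lab_idem {S S' dy : Matrix (Fin m) (Fin m) ℂ} (hS : S' * S = 1)
    (h : dy * dy = dy) : (S * dy * S') * (S * dy * S') = S * dy * S' := by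
  calc (S * dy * S') * (S * dy * S') = S * dy * (S' * S) * (dy * S') := by
        simp only [Matrix.mul_assoc]
    _ = S * (dy * dy) * S' := by rw [hS, Matrix.mul_one]; simp only [Matrix.mul_assoc]
    _ = S * dy * S' := by rw [h]

private theorem Lab_back {S S' dy : Matrix (Fin m) (Fin m) ℂ} (hS : S' * S = 1) :
    S' * (S * dy * S') * S = dy := by
  calc S' * (S * dy * S') * S = (S' * S) * dy * (S' * S) := by simp only [Matrix.mul_assoc]
    _ = dy := by rw [hS, Matrix.one_mul, Matrix.mul_one]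

theorem lab_one (hc : c ≠ 0) (hdet : ∀ X, (L + M X).det = c * Fv X) (hP : Prim L M)
    {ι : Type} (p : ℂ → ι) {z : Fin (2 * k + 1) → Fin (2 * k + 1) → ℂ}
    (hz : ∀ i j β, p (z i j * β) = p β) {D C : Matrix (Fin m) (Fin m) ℂ} (h0 : D * L = L * C)
    (h1 : ∀ i j, D * M (Matrix.single i j 1) = z i j • (M (Matrix.single i j 1) * C))
    {S S' T T' : Matrix (Fin m) (Fin m) ℂ} {β α : Fin m → ℂ} (EC : Eig C S S' β)
    (ED : Eig D T T' α) : ∃ p₀, (∀ a, p (β a) = p₀) ∧ ∀ b, p (α b) = p₀ := by
  classical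
  rcases Nat.eq_zero_or_pos m with hm | hm
  · subst hm
    exact ⟨p 0, fun a => a.elim0, fun b => b.elim0⟩
  · let a₀ : Fin m := ⟨0, hm⟩
    let dy : Matrix (Fin m) (Fin m) ℂ :=
      Matrix.diagonal fun a => if p (β a) = p (β a₀) then 1 else 0
    let dx : Matrix (Fin m) (Fin m) ℂ :=
      Matrix.diagonal fun b => if p (α b) = p (β a₀) then 1 else 0
    have hdy : dy * dy = dy := by
      simp only [dy, Matrix.diagonal_mul_diagonal]
      congr 1
      funext a
      split_ifs <;> simp
    have hdx : dx * dx = dx := by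
      simp only [dx, Matrix.diagonal_mul_diagonal]
      congr 1
      funext a
      split_ifs <;> simp
    have key : ∀ N : Matrix (Fin m) (Fin m) ℂ, (∀ b a, (T' * N * S) b a ≠ 0 →
        p (α b) = p (β a)) → dx * (T' * N * S) = (T' * N * S) * dy := by
      intro N hN
      ext b a
      simp only [dx, dy]
      rw [Matrix.diagonal_mul, Matrix.mul_diagonal]
      by_cases h : (T' * N * S) b a = 0
      · rw [h, mul_zero, zero_mul]
      · rw [hN b a h, mul_comm]
    have hL : dx * (T' * L * S) = (T' * L * S) * dy := by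
      refine key L fun b a hba => ?_
      have h2 : D * L = (1 : ℂ) • (L * C) := by rw [h0, one_smul]
      rw [eig_mor h2 EC ED b a hba, one_mul]
    have hM : ∀ i j, dx * (T' * M (Matrix.single i j 1) * S) =
        (T' * M (Matrix.single i j 1) * S) * dy := by
      intro i j
      refine key _ fun b a hba => ?_
      rw [eig_mor (h1 i j) EC ED b a hba, hz]
    have hmor : Mor L M id (T * dx * T') (S * dy * S') :=
      mor_id.2 ⟨Lab_comm ED.inv' EC.inv' hL, fun i j => Lab_comm ED.inv' EC.inv' (hM i j)⟩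
    rcases split_one hc hdet hP hmor (Lab_idem ED.inv hdx) (Lab_idem EC.inv hdy) with h2 | h2
    · exfalso
      have h3 := Lab_back (dy := dy) EC.inv
      rw [h2.2, Matrix.mul_zero, Matrix.zero_mul] at h3
      have h4 := congrFun (congrFun h3 a₀) a₀
      simp only [dy] at h4
      rw [Matrix.zero_apply, Matrix.diagonal_apply_eq, if_pos rfl] at h4
      exact zero_ne_one h4
    · refine ⟨p (β a₀), fun a => ?_, fun b => ?_⟩
      · by_contra hne
        have h3 := Lab_back (dy := dy) EC.inv
        rw [h2.2, Matrix.mul_one, EC.inv] at h3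
        have h4 := congrFun (congrFun h3 a) a
        simp only [dy] at h4
        rw [Matrix.one_apply_eq, Matrix.diagonal_apply_eq, if_neg hne] at h4
        exact one_ne_zero h4
      · by_contra hne
        have h3 := Lab_back (dy := dx) ED.inv
        rw [h2.1, Matrix.mul_one, ED.inv] at h3
        have h4 := congrFun (congrFun h3 b) b
        simp only [dx] at h4
        rw [Matrix.one_apply_eq, Matrix.diagonal_apply_eq, if_neg hne] at h4
        exact one_ne_zero h4

private theorem Lab_nil {C S S' : Matrix (Fin m) (Fin m) ℂ} {β : Fin m → ℂ} (E : Eig C S S' β)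
    {χ : ℂ} (h : ∀ a, β a = χ) : (C - Matrix.diagonal fun _ => χ) ^ m = 0 := by
  have h1 : (C - Matrix.diagonal fun _ => χ) ^ m * S = 0 := by
    ext b a
    have h2 := congrFun (E.col a) b
    rw [h a] at h2
    rw [Matrix.mul_apply]
    exact h2
  calc (C - Matrix.diagonal fun _ => χ) ^ m
      = (C - Matrix.diagonal fun _ => χ) ^ m * (S * S') := by rw [E.inv', Matrix.mul_one]
    _ = (C - Matrix.diagonal fun _ => χ) ^ m * S * S' := by rw [Matrix.mul_assoc]
    _ = 0 := by rw [h1, Matrix.zero_mul]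

/-- An endomorphism is a number plus a nilpotent one. -/
theorem endo_nil (hc : c ≠ 0) (hdet : ∀ X, (L + M X).det = c * Fv X) (hP : Prim L M)
    {x y : Matrix (Fin m) (Fin m) ℂ} (h : Mor L M id x y) :
    ∃ χ : ℂ, (x - Matrix.diagonal fun _ => χ) ^ m = 0 ∧ (y - Matrix.diagonal fun _ => χ) ^ m = 0 := by
  obtain ⟨h0, h1⟩ := mor_id.1 h
  obtain ⟨S, S', β, EC⟩ := exists_eig y
  obtain ⟨T, T', α, ED⟩ := exists_eig x
  obtain ⟨χ, hβ, hα⟩ := lab_one hc hdet hP (fun w : ℂ => w) (z := fun _ _ => 1)
    (fun _ _ β => one_mul β) h0 (fun i j => by rw [h1 i j, one_smul]) EC ED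
  exact ⟨χ, Lab_nil ED hα, Lab_nil EC hβ⟩

end PadDet.Eq
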