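import Pool.Agent.H.MP_d7db32_ag.Eq.L.Bas

/-!
# MP_d7db32_ag, Eq/L/Bch: change of bases

`T' Λ(X) S` with inverses `T`, `S'` (also `S' * S = 1`, `T' * T = 1`: `Matrix.mul_eq_one_comm`). `base_eqv`: `(A, B)` becomes
`(T' A T, S' B S)`. `base_prim`: a morphism `(x, y)` over `id` of the new pencil
gives `(T x T', S y S')` for the old one; idempotents to idempotents; `v` in the kernel of `Λ(X)` iff `S' v` in the kernel of the new
one; so `S y S' = 1` and `y = 1`.
-/

set_option autoImplicit false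

namespace PadDet.Eq

open Matrix

variable {m : ℕ}

/-- The linear map `X ↦ T' (M X) S`. -/
def lcg {n : ℕ} (T' S : Matrix (Fin m) (Fin m) ℂ)
    (M : Matrix (Fin n) (Fin n) ℂ →ₗ[ℂ] Matrix (Fin m) (Fin m) ℂ) :
    Matrix (Fin n) (Fin n) ℂ →ₗ[ℂ] Matrix (Fin m) (Fin m) ℂ where
  toFun X := T' * M X * S
  map_add' X Y := by rw [map_add, Matrix.mul_add, Matrix.add_mul]
  map_smul' z X := by
    rw [map_smul, Matrix.mul_smul, Matrix.smul_mul, RingHom.id_apply]

private theorem Bch_pen {n : ℕ} {L : Matrix (Fin m) (Fin m) ℂ}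
    {M : Matrix (Fin n) (Fin n) ℂ →ₗ[ℂ] Matrix (Fin m) (Fin m) ℂ}
    (S T' : Matrix (Fin m) (Fin m) ℂ) (X : Matrix (Fin n) (Fin n) ℂ) :
    T' * L * S + lcg T' S M X = T' * (L + M X) * S := by
  change T' * L * S + T' * M X * S = T' * (L + M X) * S
  rw [Matrix.mul_add, Matrix.add_mul]

theorem base_eqv {n : ℕ} {L : Matrix (Fin m) (Fin m) ℂ}
    {M : Matrix (Fin n) (Fin n) ℂ →ₗ[ℂ] Matrix (Fin m) (Fin m) ℂ}
    {S S' T T' : Matrix (Fin m) (Fin m) ℂ} (hS : S * S' = 1) (hT : T * T' = 1)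
    {g : Matrix (Fin n) (Fin n) ℂ → Matrix (Fin n) (Fin n) ℂ} (h : Eqv L M g) :
    Eqv (T' * L * S) (lcg T' S M) g := by
  obtain ⟨A, B, hA, hB, hM⟩ := h
  have hdT : T.det * T'.det = 1 := by rw [← Matrix.det_mul, hT, Matrix.det_one]
  have hdS : S.det * S'.det = 1 := by rw [← Matrix.det_mul, hS, Matrix.det_one]
  refine ⟨T' * A * T, S' * B * S, ?_, ?_, fun X => ?_⟩
  · rw [Matrix.det_mul, Matrix.det_mul]
    exact mul_ne_zero (mul_ne_zero (right_ne_zero_of_mul_eq_one hdT) hA)
      (left_ne_zero_of_mul_eq_one hdT)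
  · rw [Matrix.det_mul, Matrix.det_mul]
    exact mul_ne_zero (mul_ne_zero (right_ne_zero_of_mul_eq_one hdS) hB)
      (left_ne_zero_of_mul_eq_one hdS)
  · rw [Bch_pen, Bch_pen]
    calc T' * A * T * (T' * (L + M X) * S)
        = T' * A * (T * T') * (L + M X) * S := by simp only [Matrix.mul_assoc]
      _ = T' * (A * (L + M X)) * S := by rw [hT, Matrix.mul_one]; simp only [Matrix.mul_assoc]
      _ = T' * ((L + M (g X)) * B) * S := by rw [hM X]
      _ = T' * (L + M (g X)) * (S * S') * B * S := by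
          rw [hS, Matrix.mul_one]; simp only [Matrix.mul_assoc]
      _ = T' * (L + M (g X)) * S * (S' * B * S) := by simp only [Matrix.mul_assoc]

theorem base_prim {n : ℕ} {L : Matrix (Fin m) (Fin m) ℂ}
    {M : Matrix (Fin n) (Fin n) ℂ →ₗ[ℂ] Matrix (Fin m) (Fin m) ℂ}
    {S S' T T' : Matrix (Fin m) (Fin m) ℂ} (hS : S * S' = 1) (hT : T * T' = 1)
    (h : Prim L M) : Prim (T' * L * S) (lcg T' S M) := by
  have hS' : S' * S = 1 := mul_eq_one_comm.1 hS
  have hT' : T' * T = 1 := mul_eq_one_comm.1 hT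
  intro x y hxy hx hy hg
  have h1 : S * y * S' = 1 := by
    refine h (T * x * T') (S * y * S') (fun X => ?_) ?_ ?_ fun X v hv => ?_
    · have e := hxy X
      rw [id_eq, Bch_pen] at e
      rw [id_eq]
      calc T * x * T' * (L + M X)
          = T * x * T' * (L + M X) * (S * S') := by rw [hS, Matrix.mul_one]
        _ = T * (x * (T' * (L + M X) * S)) * S' := by simp only [Matrix.mul_assoc]
        _ = T * (T' * (L + M X) * S * y) * S' := by rw [e]
        _ = T * T' * (L + M X) * (S * y * S') := by simp only [Matrix.mul_assoc]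
        _ = (L + M X) * (S * y * S') := by rw [hT, Matrix.one_mul]
    · calc T * x * T' * (T * x * T') = T * x * (T' * T) * x * T' := by
            simp only [Matrix.mul_assoc]
        _ = T * (x * x) * T' := by rw [hT', Matrix.mul_one]; simp only [Matrix.mul_assoc]
        _ = T * x * T' := by rw [hx]
    · calc S * y * S' * (S * y * S') = S * y * (S' * S) * y * S' := by
            simp only [Matrix.mul_assoc]
        _ = S * (y * y) * S' := by rw [hS', Matrix.mul_one]; simp only [Matrix.mul_assoc]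
        _ = S * y * S' := by rw [hy]
    · have e : (T' * L * S + lcg T' S M X) *ᵥ (S' *ᵥ v) = 0 := by
        rw [Bch_pen, Matrix.mulVec_mulVec, Matrix.mul_assoc, Matrix.mul_assoc, hS,
          Matrix.mul_one, ← Matrix.mulVec_mulVec, hv, Matrix.mulVec_zero]
      have e2 := hg X (S' *ᵥ v) e
      rw [Matrix.mul_assoc, ← Matrix.mulVec_mulVec, ← Matrix.mulVec_mulVec, e2,
        Matrix.mulVec_mulVec, hS, Matrix.one_mulVec]
  calc y = S' * S * y * (S' * S) := by rw [hS', Matrix.one_mul, Matrix.mul_one]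
    _ = S' * (S * y * S') * S := by simp only [Matrix.mul_assoc]
    _ = 1 := by rw [h1, Matrix.mul_one, hS']

end PadDet.Eq
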