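import Pool.Agent.H.MP_d7db32_ag.Eq.L.Lab
import Pool.Agent.H.MP_d7db32_ag.Eq.L.Bch

/-!
# MP_d7db32_ag, Eq/L/Grd: the grading by `ℤ ^ n`

`grd`: `(D, C)` from `pT` (`mor_tor`); `exists_eig` for `C` and `D`. `lab_one` with `p` = class in the
quotient of `ℂ` by the relation `z' = mon t ω * z` for some `ω` (a setoid: `mon_zero`, `mon_neg`, `mon_add`;
`t i * t j = mon t (single i 1 + single j 1)`); so all `β a`, `α b` are `mon t (w a) * β₀`, `mon t (w' b) * β₀` with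
one `β₀` (`β₀ ≠ 0` because `det C ≠ 0`, `eig_ev`). `L' = T' L S`, `M' X = T' (M X) S`, `c' = det T' * c * det S`.
`eig_mor`: `gL` (factor `1`), `gE` (factor `t i * t j`), with `mon_inj`. For `m = 0` everything is trivial.
-/

set_option autoImplicit false

namespace PadDet.Eq

open Matrix

variable {k m : ℕ} {c : ℂ} {L : Matrix (Fin m) (Fin m) ℂ}
  {M : Matrix (Fin (2 * k + 1)) (Fin (2 * k + 1)) ℂ →ₗ[ℂ] Matrix (Fin m) (Fin m) ℂ}
  {t : Fin (2 * k + 1) → ℂ}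

private def Grd_set (t : Fin (2 * k + 1) → ℂ) (ht : ∀ i, t i ≠ 0) : Setoid ℂ where
  r z z' := ∃ ω : Fin (2 * k + 1) → ℤ, z' = mon t ω * z
  iseqv :=
    { refl := fun z => ⟨0, by rw [mon_zero, one_mul]⟩
      symm := by
        rintro z z' ⟨ω, rfl⟩
        refine ⟨-ω, ?_⟩
        rw [mon_neg ht, ← mul_assoc, inv_mul_cancel₀ (mon_ne ht ω), one_mul]
      trans := by
        rintro z z' z'' ⟨ω, rfl⟩ ⟨ω', rfl⟩
        exact ⟨ω' + ω, by rw [mon_add ht, mul_assoc]⟩ }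

private theorem Grd_two (ht : ∀ i, t i ≠ 0) (i j : Fin (2 * k + 1))
    (w : Fin (2 * k + 1) → ℤ) :
    mon t (w + Pi.single i 1 + Pi.single j 1) = t i * t j * mon t w := by
  rw [mon_add ht, mon_add ht, mon_single, mon_single]
  ring

private theorem Grd_ne {D T T' : Matrix (Fin m) (Fin m) ℂ} {α : Fin m → ℂ} (hD : D.det ≠ 0)
    (ED : Eig D T T' α) (b : Fin m) : α b ≠ 0 := by
  intro h0
  obtain ⟨v, hv, h1⟩ := eig_ev ED b
  rw [h0, zero_smul] at h1
  exact hv (Matrix.eq_zero_of_mulVec_eq_zero hD h1)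

theorem grd (h : Pwe (2 * k + 1) m c L M t) (hP : Prim L M) :
    ∃ (c' : ℂ) (L' : Matrix (Fin m) (Fin m) ℂ)
      (M' : Matrix (Fin (2 * k + 1)) (Fin (2 * k + 1)) ℂ →ₗ[ℂ] Matrix (Fin m) (Fin m) ℂ)
      (w w' : Fin m → Fin (2 * k + 1) → ℤ),
      Zg (2 * k + 1) m c' L' M' w w' ∧ Prim L' M' ∧
        ∀ σ : Equiv.Perm (Fin (2 * k + 1)), Eqv L' M' (prm σ) := by
  have ht := h.gen.1
  obtain ⟨D, C, hD, -, hDC⟩ := h.pT
  obtain ⟨h0, h1⟩ := mor_tor.1 hDC
  obtain ⟨S, S', β, EC⟩ := exists_eig C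
  obtain ⟨T, T', α, ED⟩ := exists_eig D
  obtain ⟨p₀, hβ, hα⟩ := lab_one h.c0 h.det hP (fun z : ℂ => (Quotient.mk (Grd_set t ht) z))
    (z := fun i j => t i * t j) (fun i j z => by
      refine Quotient.sound ?_
      refine (Grd_set t ht).iseqv.symm ⟨0 + Pi.single i 1 + Pi.single j 1, ?_⟩
      rw [Grd_two ht, mon_zero, mul_one]) h0 h1 EC ED
  obtain ⟨β₀, rfl⟩ := Quotient.exists_rep p₀
  have hβ' : ∀ a, ∃ ω : Fin (2 * k + 1) → ℤ, β a = mon t ω * β₀ := fun a =>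
    (Grd_set t ht).iseqv.symm (Quotient.exact (hβ a)) |>.imp fun _ h => h
  have hα' : ∀ b, ∃ ω : Fin (2 * k + 1) → ℤ, α b = mon t ω * β₀ := fun b =>
    (Grd_set t ht).iseqv.symm (Quotient.exact (hα b)) |>.imp fun _ h => h
  choose w hw using hβ'
  choose w' hw' using hα'
  have hβ₀ : Fin m → β₀ ≠ 0 := fun b h2 => Grd_ne hD ED b (by rw [hw', h2, mul_zero])
  refine ⟨T'.det * c * S.det, T' * L * S, lcg T' S M, w, w', ⟨?_, fun X => ?_, ?_, ?_⟩,
    base_prim EC.inv' ED.inv' hP, fun σ => base_eqv EC.inv' ED.inv' (h.pS σ)⟩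
  · refine mul_ne_zero (mul_ne_zero ?_ h.c0) ?_
    · have h2 := congrArg Matrix.det ED.inv
      rw [Matrix.det_mul, Matrix.det_one] at h2
      exact left_ne_zero_of_mul_eq_one h2
    · have h2 := congrArg Matrix.det EC.inv'
      rw [Matrix.det_mul, Matrix.det_one] at h2
      exact left_ne_zero_of_mul_eq_one h2
  · have e : T' * L * S + lcg T' S M X = T' * (L + M X) * S := by
      change T' * L * S + T' * M X * S = T' * (L + M X) * S
      rw [Matrix.mul_add, Matrix.add_mul]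
    rw [e, Matrix.det_mul, Matrix.det_mul, h.det]
    ring
  · intro b a hba
    have h2 : α b = 1 * β a := eig_mor (z := 1) (by rw [one_smul]; exact h0) EC ED b a hba
    rw [one_mul, hw, hw'] at h2
    exact mon_inj h.gen (mul_right_cancel₀ (hβ₀ b) h2)
  · intro b a i j hba
    have h2 : α b = t i * t j * β a := eig_mor (h1 i j) EC ED b a hba
    rw [hw, hw', ← mul_assoc, ← Grd_two ht] at h2
    exact mon_inj h.gen (mul_right_cancel₀ (hβ₀ b) h2)

end PadDet.Eq
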