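import Pool.Agent.H.MP_d7db32_ag.Eq.L.Cpc

/-!
# MP_d7db32_ag, Eq/L/Sta: the weights are stable under permutations up to a shift

`sta`: `(A, B)` from `hσ`; `t' = t ∘ σ.symm`; `(A lamW(t') A⁻¹, B lamV(t') B⁻¹)` is a morphism over `tor t`:
`A lamW(t') Λ(X') B⁻¹ = A Λ(tor t' X') lamV(t') B⁻¹ = Λ(prm σ (tor t' X')) B lamV(t') B⁻¹` and
`prm σ (tor t' X') = tor t (prm σ X')`. So `u = lamV(t)⁻¹ B lamV(t') B⁻¹`, `u' = lamW(t)⁻¹ A lamW(t') A⁻¹` is an
endomorphism, `endo_nil` gives `χ` (`χ ≠ 0` because `u` is invertible and `m ≠ 0`); `y = χ⁻¹ u - 1`, `x = χ⁻¹ u' - 1` are nilpotent. The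
characteristic polynomial of `χ lamV(t) (1 + y) = B lamV(t') B⁻¹` is `∏ (X - mon t (fun i => w a (σ i)))` and (`cp_const`,
scaling: `z` is a root of the one of `χ C` iff `χ⁻¹ z` is one of `C`, with multiplicity) `∏ (X - χ mon t (w a))`. Equal multisets of roots, so there is a permutation `π` of
`Fin m` with `mon t (fun i => w a (σ i)) = χ mon t (w (π a))` for all `a` (`Multiset` map equality gives a permutation), and `π'` for
the rows with the same `χ`. With `a₀` one gets `χ = mon t (- δ)`, and `mon_inj` gives the claim.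
-/

set_option autoImplicit false

namespace PadDet.Eq

open Matrix Polynomial

variable {k m : ℕ} {c : ℂ} {L : Matrix (Fin m) (Fin m) ℂ}
  {M : Matrix (Fin (2 * k + 1)) (Fin (2 * k + 1)) ℂ →ₗ[ℂ] Matrix (Fin m) (Fin m) ℂ}
  {w w' : Fin m → Fin (2 * k + 1) → ℤ} {t : Fin (2 * k + 1) → ℂ}

private theorem perm_of_prod {f g : Fin m → ℂ}
    (h : ∏ a, (X - C (f a)) = ∏ a, (X - C (g a))) :
    ∃ π : Equiv.Perm (Fin m), ∀ a, f a = g (π a) := by
  have h1 : ∀ f : Fin m → ℂ, (∏ a, (X - C (f a))).roots = (Finset.univ.val.map f) := by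
    intro f
    have e : ∏ a, (X - C (f a)) = ((Finset.univ.val.map f).map fun z => X - C z).prod := by
      rw [Multiset.map_map]
      rfl
    rw [e, roots_multiset_prod_X_sub_C]
  have h2 : (Finset.univ.val.map f) = (Finset.univ.val.map g) := by rw [← h1, ← h1, h]
  have h3 : ∀ z, Fintype.card {a // f a = z} = Fintype.card {a // g a = z} := by
    intro z
    have h4 : ∀ f : Fin m → ℂ, Fintype.card {a // f a = z} =
        Multiset.count z (Finset.univ.val.map f) := by
      intro f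
      rw [Multiset.count_map, Fintype.card_subtype, Finset.card_def, Finset.filter_val]
      refine congrArg _ (Multiset.filter_congr fun a _ => ?_)
      exact eq_comm
    rw [h4, h4, h2]
  refine ⟨(Equiv.sigmaFiberEquiv f).symm.trans ((Equiv.sigmaCongrRight fun z =>
    Fintype.equivOfCardEq (h3 z)).trans (Equiv.sigmaFiberEquiv g)), fun a => ?_⟩
  exact ((Fintype.equivOfCardEq (h3 (f a))) ⟨a, rfl⟩).2.symm

private theorem prm_tor {σ : Equiv.Perm (Fin (2 * k + 1))} (t : Fin (2 * k + 1) → ℂ)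
    (X : Matrix (Fin (2 * k + 1)) (Fin (2 * k + 1)) ℂ) :
    prm σ (tor (fun i => t (σ.symm i)) X) = tor t (prm σ X) := by
  ext i j
  unfold prm tor
  show t (σ.symm (σ i)) * t (σ.symm (σ j)) * X (σ i) (σ j) = t i * t j * X (σ i) (σ j)
  rw [Equiv.symm_apply_apply, Equiv.symm_apply_apply]

private theorem mon_perm {σ : Equiv.Perm (Fin (2 * k + 1))} (t : Fin (2 * k + 1) → ℂ)
    (v : Fin (2 * k + 1) → ℤ) :
    mon (fun i => t (σ.symm i)) v = mon t (fun i => v (σ i)) := by
  unfold mon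
  rw [← Equiv.prod_comp σ]
  refine Finset.prod_congr rfl fun i _ => ?_
  show t (σ.symm (σ i)) ^ v (σ i) = t i ^ v (σ i)
  rw [Equiv.symm_apply_apply]

private theorem dinv {f : Fin m → ℂ} (hf : ∀ a, f a ≠ 0) :
    Matrix.diagonal f * Matrix.diagonal (fun a => (f a)⁻¹) = 1 ∧
      Matrix.diagonal (fun a => (f a)⁻¹) * Matrix.diagonal f = 1 := by
  constructor
  · rw [Matrix.diagonal_mul_diagonal]
    have : (fun i => f i * (f i)⁻¹) = fun _ => (1 : ℂ) := by
      funext i
      exact mul_inv_cancel₀ (hf i)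
    rw [this, Matrix.diagonal_one]
  · rw [Matrix.diagonal_mul_diagonal]
    have : (fun i => (f i)⁻¹ * f i) = fun _ => (1 : ℂ) := by
      funext i
      exact inv_mul_cancel₀ (hf i)
    rw [this, Matrix.diagonal_one]

/-- one side: `B D' B⁻¹ = D u` and `u = χ (1 + y)` -/
private theorem side {B B' u y : Matrix (Fin m) (Fin m) ℂ} {f g h : Fin m → ℂ} {χ : ℂ}
    (hχ : χ ≠ 0) (hB : B' * B = 1)
    (hu : Matrix.diagonal f * u = B * Matrix.diagonal g * B')
    (hy : 1 + y = χ⁻¹ • u)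
    (hc : (Matrix.diagonal f * (1 + y)).charpoly = ∏ a, (X - C (h a))) :
    ∃ π : Equiv.Perm (Fin m), ∀ a, g a = χ * h (π a) := by
  have e1 : Matrix.diagonal f * (1 + y) = B * (Matrix.diagonal (fun a => χ⁻¹ * g a) * B') := by
    have e2 : Matrix.diagonal (fun a => χ⁻¹ * g a) = χ⁻¹ • Matrix.diagonal g := by
      rw [← Matrix.diagonal_smul]
      rfl
    rw [hy, Matrix.mul_smul, hu, e2, Matrix.smul_mul, Matrix.mul_smul, Matrix.mul_assoc]
  rw [e1, Matrix.charpoly_mul_comm, Matrix.mul_assoc, hB, Matrix.mul_one,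
    Matrix.charpoly_diagonal] at hc
  obtain ⟨π, hπ⟩ := perm_of_prod hc
  refine ⟨π, fun a => ?_⟩
  rw [← hπ a, mul_inv_cancel_left₀ hχ]

theorem sta (hG : Zg (2 * k + 1) m c L M w w') (hP : Prim L M) (ht : Gen t) (hm : m ≠ 0)
    {σ : Equiv.Perm (Fin (2 * k + 1))} (hσ : Eqv L M (prm σ)) :
    ∃ δ : Fin (2 * k + 1) → ℤ,
      (∃ π : Equiv.Perm (Fin m), ∀ a i, w (π a) i = w a (σ i) + δ i) ∧
      ∃ π' : Equiv.Perm (Fin m), ∀ b i, w' (π' b) i = w' b (σ i) + δ i := by
  obtain ⟨A, B, hA, hB, hAB⟩ := hσ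
  have hA1 : A * A⁻¹ = 1 := Matrix.mul_nonsing_inv A (Ne.isUnit hA)
  have hA2 : A⁻¹ * A = 1 := Matrix.nonsing_inv_mul A (Ne.isUnit hA)
  have hB1 : B * B⁻¹ = 1 := Matrix.mul_nonsing_inv B (Ne.isUnit hB)
  have hB2 : B⁻¹ * B = 1 := Matrix.nonsing_inv_mul B (Ne.isUnit hB)
  set t' : Fin (2 * k + 1) → ℂ := fun i => t (σ.symm i) with ht'
  have ht0 : ∀ i, t' i ≠ 0 := fun i => ht.1 _
  have m1 := zg_mor hG ht.1
  have m2 := zg_mor hG ht0
  set DW := Matrix.diagonal fun b => mon t (w' b) with hDW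
  set DV := Matrix.diagonal fun a => mon t (w a) with hDV
  set EW := Matrix.diagonal fun b => mon t' (w' b) with hEW
  set EV := Matrix.diagonal fun a => mon t' (w a) with hEV
  obtain ⟨iW1, iW2⟩ := dinv (f := fun b => mon t (w' b)) fun b => mon_ne ht.1 _
  obtain ⟨iV1, iV2⟩ := dinv (f := fun a => mon t (w a)) fun a => mon_ne ht.1 _
  rw [← hDW] at iW1 iW2
  rw [← hDV] at iV1 iV2
  set DW' := Matrix.diagonal fun b => (mon t (w' b))⁻¹ with hDW'
  set DV' := Matrix.diagonal fun a => (mon t (w a))⁻¹ with hDV'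
  set u := DV' * B * EV * B⁻¹ with hu
  set u' := DW' * A * EW * A⁻¹ with hu'
  have hmor : Mor L M id u' u := by
    intro X
    have e0 : prm σ (prm σ.symm X) = X := by
      ext i j
      unfold prm
      rw [Matrix.submatrix_apply, Matrix.submatrix_apply, Equiv.symm_apply_apply,
        Equiv.symm_apply_apply]
    set Y := prm σ.symm X with hY
    have a1 : A * (L + M Y) = (L + M X) * B := by
      have := hAB Y
      rwa [e0] at this
    have a2 : A⁻¹ * (L + M X) = (L + M Y) * B⁻¹ := by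
      have : A⁻¹ * (A * (L + M Y)) * B⁻¹ = A⁻¹ * ((L + M X) * B) * B⁻¹ := by rw [a1]
      rw [← Matrix.mul_assoc, hA2, Matrix.one_mul, Matrix.mul_assoc A⁻¹, Matrix.mul_assoc _ B,
        hB1, Matrix.mul_one] at this
      exact this.symm
    have a3 : EW * (L + M Y) = (L + M (tor t' Y)) * EV := m2 Y
    have a4 : A * (L + M (tor t' Y)) = (L + M (tor t X)) * B := by
      have := hAB (tor t' Y)
      rwa [ht', prm_tor, e0] at this
    have a5 : DW * (L + M X) = (L + M (tor t X)) * DV := m1 X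
    have a6 : DW' * (L + M (tor t X)) = (L + M X) * DV' := by
      have : DW' * (DW * (L + M X)) * DV' = DW' * ((L + M (tor t X)) * DV) * DV' := by rw [a5]
      rw [← Matrix.mul_assoc, iW2, Matrix.one_mul, Matrix.mul_assoc DW', Matrix.mul_assoc _ DV,
        iV1, Matrix.mul_one] at this
      exact this.symm
    show u' * (L + M X) = (L + M X) * u
    calc u' * (L + M X) = DW' * A * EW * (A⁻¹ * (L + M X)) := by
          rw [hu', Matrix.mul_assoc (DW' * A * EW)]
      _ = DW' * A * (EW * (L + M Y)) * B⁻¹ := by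
          rw [a2]
          simp only [Matrix.mul_assoc]
      _ = DW' * (A * (L + M (tor t' Y))) * EV * B⁻¹ := by
          rw [a3]
          simp only [Matrix.mul_assoc]
      _ = DW' * (L + M (tor t X)) * B * EV * B⁻¹ := by
          rw [a4]
          simp only [Matrix.mul_assoc]
      _ = (L + M X) * u := by
          rw [a6, hu]
          simp only [Matrix.mul_assoc]
  obtain ⟨χ, hx, hy⟩ := endo_nil hG.c0 hG.det hP hmor
  have hdd : ∀ z : ℂ, (Matrix.diagonal fun _ : Fin m => z) = z • (1 : Matrix (Fin m) (Fin m) ℂ) := by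
    intro z
    rw [← Matrix.diagonal_one, ← Matrix.diagonal_smul]
    congr 1
    funext i
    simp
  have hχ : χ ≠ 0 := by
    intro h0
    rw [h0, hdd, zero_smul, sub_zero] at hy
    have h1 : u.det ≠ 0 := by
      have h2 : (B * EV * B⁻¹).det = (DV * u).det := by
        rw [hu]
        congr 1
        rw [← Matrix.mul_assoc, ← Matrix.mul_assoc, ← Matrix.mul_assoc, iV1, Matrix.one_mul]
      have h3 : (B * EV * B⁻¹).det ≠ 0 := by
        rw [Matrix.det_mul, Matrix.det_mul]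
        refine mul_ne_zero (mul_ne_zero hB ?_) ?_
        · rw [hEV, Matrix.det_diagonal]
          exact Finset.prod_ne_zero_iff.2 fun a _ => mon_ne ht0 _
        · intro h4
          have h5 := congrArg Matrix.det hB1
          rw [Matrix.det_mul, h4, mul_zero, Matrix.det_one] at h5
          exact zero_ne_one h5
      rw [h2, Matrix.det_mul] at h3
      exact right_ne_zero_of_mul h3
    have h2 := congrArg Matrix.det hy
    have : Nonempty (Fin m) := ⟨⟨0, Nat.pos_of_ne_zero hm⟩⟩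
    rw [Matrix.det_pow, Matrix.det_zero] at h2
    exact pow_ne_zero _ h1 h2
  have key : ∀ v : Matrix (Fin m) (Fin m) ℂ, (v - Matrix.diagonal fun _ => χ) ^ m = 0 →
      (χ⁻¹ • v - 1) ^ m = 0 := by
    intro v hv
    have e : χ⁻¹ • v - 1 = χ⁻¹ • (v - Matrix.diagonal fun _ => χ) := by
      rw [smul_sub, hdd, smul_smul, inv_mul_cancel₀ hχ, one_smul]
    rw [e, _root_.smul_pow, hv, smul_zero]
  have hmor2 : Mor L M id (χ⁻¹ • u' - 1) (χ⁻¹ • u - 1) := by
    intro X
    have h1 := hmor X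
    simp only [id] at h1 ⊢
    rw [Matrix.sub_mul, Matrix.mul_sub, Matrix.smul_mul, Matrix.mul_smul, h1, Matrix.one_mul,
      Matrix.mul_one]
  obtain ⟨c1, c2⟩ := cp_const hG hP ht hm hmor2 (key _ hx) (key _ hy)
  obtain ⟨π, hπ⟩ := side (g := fun a => mon t' (w a)) hχ hB2 (u := u) (B := B)
    (by
      show DV * u = B * EV * B⁻¹
      rw [hu, ← Matrix.mul_assoc, ← Matrix.mul_assoc, ← Matrix.mul_assoc, iV1, Matrix.one_mul])
    (by rw [add_sub_cancel]) c1
  obtain ⟨π', hπ'⟩ := side (g := fun b => mon t' (w' b)) hχ hA2 (u := u') (B := A)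
    (by
      show DW * u' = A * EW * A⁻¹
      rw [hu', ← Matrix.mul_assoc, ← Matrix.mul_assoc, ← Matrix.mul_assoc, iW1, Matrix.one_mul])
    (by rw [add_sub_cancel]) c2
  let a₀ : Fin m := ⟨0, Nat.pos_of_ne_zero hm⟩
  let δ : Fin (2 * k + 1) → ℤ := fun i => w (π a₀) i - w a₀ (σ i)
  have hδ : χ = mon t (-δ) := by
    have h1 := hπ a₀
    rw [ht', mon_perm] at h1
    have h2 : (fun i => w a₀ (σ i)) = -δ + w (π a₀) := by
      funext i
      show w a₀ (σ i) = -(w (π a₀) i - w a₀ (σ i)) + w (π a₀) i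
      ring
    rw [h2, mon_add ht.1] at h1
    exact (mul_right_cancel₀ (mon_ne ht.1 _) h1).symm
  refine ⟨δ, ⟨π, fun a i => ?_⟩, π', fun b i => ?_⟩
  · have h1 := hπ a
    rw [ht', mon_perm, hδ, ← mon_add ht.1] at h1
    have h2 := congrFun (mon_inj ht h1) i
    have h3 : w a (σ i) = -δ i + w (π a) i := h2
    rw [h3]
    ring
  · have h1 := hπ' b
    rw [ht', mon_perm, hδ, ← mon_add ht.1] at h1
    have h2 := congrFun (mon_inj ht h1) i
    have h3 : w' b (σ i) = -δ i + w' (π' b) i := h2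
    rw [h3]
    ring

end PadDet.Eq
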