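import Mathlib

/-!
# MP_d7db32_ag, Eq/L/Ctb: polynomials with countably many values are constant

`poly_ctb`: a nonconstant polynomial takes every value (`IsAlgClosed.exists_root` for `p - C z`), so `S`
would be everything, but `ℂ` is not countable (`Complex` has the cardinality of the continuum:
`Cardinal.not_countable_complex` or similar; also from `Real`).
`charpoly_ctb`: let `q i` be the polynomial in `s` whose value is the coefficient `i` of the
characteristic polynomial of `P + s Q` (the characteristic polynomial of a matrix over `ℂ[s]`,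
`Matrix.charpoly_map`). Its values: `∏ (X - z)` over the roots (`ℂ` algebraically closed, monic, `Polynomial.Splits`), which are eigenvalues
(`Matrix.mem_spectrum...`, a root of the characteristic polynomial has an eigenvector), so in `S`; there are countably many multisets in
a countable set, so countably many values; `poly_ctb`, compare `s = 1` and `s = 0`.
-/

set_option autoImplicit false

namespace PadDet.Eq

open Matrix

theorem poly_ctb {p : Polynomial ℂ} {S : Set ℂ} (hS : S.Countable) (h : ∀ s : ℂ, p.eval s ∈ S)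
    (s : ℂ) : p.eval s = p.eval 0 := by
  by_cases hd : 0 < p.degree
  · exfalso
    apply not_countable_complex
    refine hS.mono ?_
    intro z _
    have h1 : (p - Polynomial.C z).degree = p.degree :=
      Polynomial.degree_sub_C hd
    obtain ⟨r, hr⟩ := IsAlgClosed.exists_root (p - Polynomial.C z) (by rw [h1]; exact hd.ne')
    have h2 : p.eval r = z := by
      have h3 := hr
      rw [Polynomial.IsRoot.def, Polynomial.eval_sub, Polynomial.eval_C] at h3
      exact sub_eq_zero.mp h3
    rw [← h2]
    exact h r
  · have h1 : p = Polynomial.C (p.coeff 0) := Polynomial.eq_C_of_degree_le_zero (not_lt.mp hd)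
    rw [h1]
    simp

/-- A matrix over `ℂ` has an eigenvector for every root of its characteristic polynomial. -/
private lemma exists_eigen {m : ℕ} (A : Matrix (Fin m) (Fin m) ℂ) {z : ℂ}
    (hz : z ∈ A.charpoly.roots) : ∃ v : Fin m → ℂ, v ≠ 0 ∧ A *ᵥ v = z • v := by
  have h1 : A.charpoly.eval z = 0 := Polynomial.isRoot_of_mem_roots hz
  rw [Matrix.eval_charpoly] at h1
  obtain ⟨v, hv, hv2⟩ := Matrix.exists_mulVec_eq_zero_iff.mpr h1
  refine ⟨v, hv, ?_⟩
  rw [Matrix.sub_mulVec, sub_eq_zero] at hv2
  rw [← hv2]
  ext i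
  simp [Matrix.mulVec_diagonal]

/-- The values of a coefficient over all multisets of a countable set. -/
private def valSet (S : Set ℂ) (i : ℕ) : Set ℂ :=
  Set.range fun t : Multiset S =>
    ((t.map fun z : S => (Polynomial.X - Polynomial.C (z : ℂ))).prod).coeff i

private lemma valSet_countable {S : Set ℂ} (hS : S.Countable) (i : ℕ) :
    (valSet S i).Countable := by
  have : Countable S := hS.to_subtype
  exact Set.countable_range _

private lemma coeff_mem {m : ℕ} (A : Matrix (Fin m) (Fin m) ℂ) {S : Set ℂ}
    (h : ∀ (z : ℂ) (v : Fin m → ℂ), v ≠ 0 → A *ᵥ v = z • v → z ∈ S) (i : ℕ) :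
    A.charpoly.coeff i ∈ valSet S i := by
  have h1 : ∀ z ∈ A.charpoly.roots, z ∈ S := by
    intro z hz
    obtain ⟨v, hv, hv2⟩ := exists_eigen A hz
    exact h z v hv hv2
  refine ⟨A.charpoly.roots.attach.map fun z => ⟨z.1, h1 z.1 z.2⟩, ?_⟩
  have h2 := (IsAlgClosed.splits A.charpoly).eq_prod_roots_of_monic (Matrix.charpoly_monic A)
  conv_rhs => rw [h2]
  dsimp only
  rw [Multiset.map_map]
  congr 2
  conv_rhs => rw [← Multiset.attach_map_val A.charpoly.roots, Multiset.map_map]
  rfl

theorem charpoly_ctb {m : ℕ} (P Q : Matrix (Fin m) (Fin m) ℂ) {S : Set ℂ} (hS : S.Countable)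
    (h : ∀ (s z : ℂ) (v : Fin m → ℂ), v ≠ 0 → (P + s • Q) *ᵥ v = z • v → z ∈ S) :
    (P + Q).charpoly = P.charpoly := by
  let M : Matrix (Fin m) (Fin m) (Polynomial ℂ) :=
    P.map Polynomial.C + (Polynomial.X : Polynomial ℂ) • Q.map Polynomial.C
  have hM : ∀ s : ℂ, M.map (Polynomial.evalRingHom s) = P + s • Q := by
    intro s
    ext i j
    simp only [M, Matrix.map_apply, Matrix.add_apply, Matrix.smul_apply, smul_eq_mul,
      Polynomial.coe_evalRingHom]
    rw [Polynomial.eval_add, Polynomial.eval_mul, Polynomial.eval_C, Polynomial.eval_C,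
      Polynomial.eval_X]
  have hc : ∀ (s : ℂ) (i : ℕ), (M.charpoly.coeff i).eval s = (P + s • Q).charpoly.coeff i := by
    intro s i
    rw [← hM s, Matrix.charpoly_map, Polynomial.coeff_map, Polynomial.coe_evalRingHom]
  ext i
  have h1 : ∀ s : ℂ, (M.charpoly.coeff i).eval s ∈ valSet S i := by
    intro s
    rw [hc]
    exact coeff_mem (P + s • Q) (fun z v hv hv2 => h s z v hv hv2) i
  have h2 := poly_ctb (valSet_countable hS i) h1 1
  rw [hc, hc] at h2
  simpa using h2

end PadDet.Eq
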