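import Pool.Agent.H.MP_d7db32_ag.Eq.L.Lab
import Pool.Agent.H.MP_d7db32_ag.Eq.L.Ctb

/-!
# MP_d7db32_ag, Eq/L/Cpc: the characteristic polynomial is constant

`zg_mor`: from `gL`, `gE` (entries; `mor_tor`, `mon_add`, `mon_single`).
`cp_const`: `D_s = diagonal (mon t w') (1 + s x)`, `C_s = diagonal (mon t w) (1 + s y)` are a morphism over
`tor t` for all `s` (`zg_mor`, `hxy`), invertible (`y ^ m = 0`). `exists_eig`, `lab_one` with `p` = class modulo `z ~ mon t ω * z`: the
generalized eigenvalues of `C_s` (and of `D_s`) are `mon t (ω a) * z` for each of them, `z`; the determinant of `C_s` is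
the product of all its generalized eigenvalues... use instead: the determinant is the product of the roots of the characteristic
polynomial (`Matrix.det_eq_prod_roots_charpoly`), all roots are eigenvalues, so `det C_s = mon t ω * z ^ m`; and
`det C_s = ∏ mon t (w a) * det (1 + s y)`, `det (1 + s y) = 1` (nilpotent). So every eigenvalue `z` of `C_s` is in
`S = {z | ∃ ω, z ^ m = mon t ω}`, which is countable (`m ≠ 0`; for each of the countably many `ω` finitely many `z`,
roots of `X ^ m - C (mon t ω)`). `charpoly_ctb` with `P = diagonal (mon t w)`, `Q = P y`. The same for `D_s`.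
-/

set_option autoImplicit false

namespace PadDet.Eq

open Matrix Polynomial

variable {k m : ℕ} {c : ℂ} {L : Matrix (Fin m) (Fin m) ℂ}
  {M : Matrix (Fin (2 * k + 1)) (Fin (2 * k + 1)) ℂ →ₗ[ℂ] Matrix (Fin m) (Fin m) ℂ}
  {w w' : Fin m → Fin (2 * k + 1) → ℤ} {t : Fin (2 * k + 1) → ℂ}

theorem zg_mor (hG : Zg (2 * k + 1) m c L M w w') {s : Fin (2 * k + 1) → ℂ}
    (hs : ∀ i, s i ≠ 0) : Mor L M (tor s) (Matrix.diagonal fun b => mon s (w' b))
      (Matrix.diagonal fun a => mon s (w a)) := by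
  rw [mor_tor]
  refine ⟨?_, fun i j => ?_⟩
  · ext b a
    rw [Matrix.diagonal_mul, Matrix.mul_diagonal]
    by_cases h : L b a = 0
    · rw [h, mul_zero, zero_mul]
    · rw [hG.gL b a h, mul_comm]
  · ext b a
    rw [Matrix.smul_apply, Matrix.diagonal_mul, Matrix.mul_diagonal, smul_eq_mul]
    by_cases h : M (Matrix.single i j 1) b a = 0
    · rw [h, mul_zero, zero_mul, mul_zero]
    · rw [hG.gE b a i j h, mon_add hs, mon_add hs, mon_single, mon_single]
      ring

private theorem Cpc_det {N : Matrix (Fin m) (Fin m) ℂ} (hN : IsNilpotent N) :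
    (1 + N).det = 1 := by
  have h1 := Matrix.isNilpotent_charpoly_sub_pow_of_isNilpotent (M := -N) hN.neg
  have h2 : (-N).charpoly = X ^ m := by
    have := h1.eq_zero
    rw [sub_eq_zero, Fintype.card_fin] at this
    exact this
  have h3 := Matrix.eval_charpoly (-N) 1
  rw [h2, eval_pow, eval_X, one_pow, map_one, sub_neg_eq_add] at h3
  exact h3.symm

private theorem Cpc_prod {z : ℂ} (ht : ∀ i, t i ≠ 0) (R : Multiset ℂ)
    (h : ∀ r ∈ R, ∃ ω, r = mon t ω * z) : ∃ ω, R.prod = mon t ω * z ^ Multiset.card R := by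
  induction R using Multiset.induction_on with
  | empty => exact ⟨0, by rw [mon_zero]; simp⟩
  | cons r R ih =>
    obtain ⟨ω, hω⟩ := ih fun r hr => h r (Multiset.mem_cons_of_mem hr)
    obtain ⟨ω', hω'⟩ := h r (Multiset.mem_cons_self r R)
    refine ⟨ω' + ω, ?_⟩
    rw [Multiset.prod_cons, Multiset.card_cons, hω, hω', mon_add ht]
    ring

private theorem Cpc_mem (ht : ∀ i, t i ≠ 0) (A : Matrix (Fin m) (Fin m) ℂ)
    {Ω : Fin (2 * k + 1) → ℤ} (hdet : A.det = mon t Ω)
    (hcl : ∀ (r r' : ℂ) (v v' : Fin m → ℂ), v ≠ 0 → v' ≠ 0 → A *ᵥ v = r • v →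
      A *ᵥ v' = r' • v' → ∃ ω, r' = mon t ω * r) {z : ℂ} {v : Fin m → ℂ} (hv : v ≠ 0)
    (h : A *ᵥ v = z • v) : ∃ ω : Fin (2 * k + 1) → ℤ, z ^ m = mon t ω := by
  have hroot : ∀ r ∈ A.charpoly.roots, ∃ ω, r = mon t ω * z := by
    intro r hr
    have h1 : A.charpoly.eval r = 0 := (Polynomial.mem_roots'.1 hr).2
    rw [Matrix.eval_charpoly] at h1
    obtain ⟨v', hv', h2⟩ := Matrix.exists_mulVec_eq_zero_iff.2 h1
    refine hcl z r v v' hv hv' h ?_
    rw [Matrix.sub_mulVec, sub_eq_zero] at h2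
    rw [← h2]
    ext a
    simp [Matrix.scalar_apply, Matrix.mulVec_diagonal]
  obtain ⟨ω, hω⟩ := Cpc_prod ht _ hroot
  rw [← Matrix.det_eq_prod_roots_charpoly, IsAlgClosed.card_roots_eq_natDegree,
    Matrix.charpoly_natDegree_eq_dim, Fintype.card_fin, hdet] at hω
  refine ⟨Ω + -ω, ?_⟩
  rw [mon_add ht, mon_neg ht, hω]
  have := mon_ne ht ω
  field_simp

private theorem Cpc_ctb (hm : m ≠ 0) :
    {z : ℂ | ∃ ω : Fin (2 * k + 1) → ℤ, z ^ m = mon t ω}.Countable := by
  have h : {z : ℂ | ∃ ω : Fin (2 * k + 1) → ℤ, z ^ m = mon t ω} =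
      ⋃ ω : Fin (2 * k + 1) → ℤ, {z : ℂ | z ^ m = mon t ω} := by
    ext z
    simp
  rw [h]
  refine Set.countable_iUnion fun ω => Set.Finite.countable ?_
  refine ((Polynomial.nthRoots m (mon t ω)).toFinset.finite_toSet).subset ?_
  intro z hz
  rw [Finset.mem_coe, Multiset.mem_toFinset, Polynomial.mem_nthRoots (Nat.pos_of_ne_zero hm)]
  exact hz

private theorem Cpc_mor (hG : Zg (2 * k + 1) m c L M w w') (ht : ∀ i, t i ≠ 0)
    {x y : Matrix (Fin m) (Fin m) ℂ} (hxy : Mor L M id x y) (s : ℂ) :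
    ((Matrix.diagonal fun b => mon t (w' b)) * (1 + s • x)) * L =
        L * ((Matrix.diagonal fun a => mon t (w a)) * (1 + s • y)) ∧
      ∀ i j, ((Matrix.diagonal fun b => mon t (w' b)) * (1 + s • x)) * M (Matrix.single i j 1) =
        (t i * t j) • (M (Matrix.single i j 1) *
          ((Matrix.diagonal fun a => mon t (w a)) * (1 + s • y))) := by
  obtain ⟨a0, a1⟩ := mor_tor.1 (zg_mor hG ht)
  obtain ⟨b0, b1⟩ := mor_id.1 hxy
  refine ⟨?_, fun i j => ?_⟩
  · have e : (1 + s • x) * L = L * (1 + s • y) := by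
      rw [Matrix.add_mul, Matrix.mul_add, Matrix.one_mul, Matrix.mul_one, Matrix.smul_mul,
        Matrix.mul_smul, b0]
    rw [Matrix.mul_assoc, e, ← Matrix.mul_assoc, a0, Matrix.mul_assoc]
  · have e : (1 + s • x) * M (Matrix.single i j 1) = M (Matrix.single i j 1) * (1 + s • y) := by
      rw [Matrix.add_mul, Matrix.mul_add, Matrix.one_mul, Matrix.mul_one, Matrix.smul_mul,
        Matrix.mul_smul, b1]
    rw [Matrix.mul_assoc, e, ← Matrix.mul_assoc, a1, Matrix.smul_mul, Matrix.mul_assoc]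

/-- The class of `z`. -/
private def Cpc_p (t : Fin (2 * k + 1) → ℂ) (z : ℂ) : Set ℂ :=
  {u | ∃ ω : Fin (2 * k + 1) → ℤ, u = mon t ω * z}

private theorem Cpc_p_mul (ht : ∀ i, t i ≠ 0) (i j : Fin (2 * k + 1)) (β : ℂ) :
    Cpc_p t (t i * t j * β) = Cpc_p t β := by
  have hij : mon t (Pi.single i 1 + Pi.single j 1) = t i * t j := by
    rw [mon_add ht, mon_single, mon_single]
  ext u
  constructor
  · rintro ⟨ω, rfl⟩
    refine ⟨ω + (Pi.single i 1 + Pi.single j 1), ?_⟩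
    rw [mon_add ht, hij]
    ring
  · rintro ⟨ω, rfl⟩
    refine ⟨ω + -(Pi.single i 1 + Pi.single j 1), ?_⟩
    rw [mon_add ht, mon_neg ht, hij]
    have h1 := ht i
    have h2 := ht j
    field_simp

private theorem Cpc_p_eq {z z' : ℂ} (h : Cpc_p t z = Cpc_p t z') : ∃ ω, z' = mon t ω * z := by
  have h1 : z' ∈ Cpc_p t z' := ⟨0, by rw [mon_zero, one_mul]⟩
  rw [← h] at h1
  exact h1

private theorem Cpc_monprod (ht : ∀ i, t i ≠ 0) (u : Fin m → Fin (2 * k + 1) → ℤ) :
    ∏ a, mon t (u a) = mon t (∑ a, u a) := by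
  induction (Finset.univ : Finset (Fin m)) using Finset.induction_on with
  | empty => rw [Finset.prod_empty, Finset.sum_empty, mon_zero]
  | insert a S ha ih => rw [Finset.prod_insert ha, Finset.sum_insert ha, mon_add ht, ih]

theorem cp_const (hG : Zg (2 * k + 1) m c L M w w') (hP : Prim L M) (ht : Gen t) (hm : m ≠ 0)
    {x y : Matrix (Fin m) (Fin m) ℂ} (hxy : Mor L M id x y) (hx : x ^ m = 0) (hy : y ^ m = 0) :
    ((Matrix.diagonal fun a => mon t (w a)) * (1 + y)).charpoly =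
        ∏ a, (X - C (mon t (w a))) ∧
      ((Matrix.diagonal fun b => mon t (w' b)) * (1 + x)).charpoly =
        ∏ b, (X - C (mon t (w' b))) := by
  have h0 : ∀ i, t i ≠ 0 := ht.1
  have hnil : ∀ (N : Matrix (Fin m) (Fin m) ℂ) (s : ℂ), N ^ m = 0 → IsNilpotent (s • N) :=
    fun N s hN => ⟨m, by rw [_root_.smul_pow, hN, smul_zero]⟩
  have hdet : ∀ (N : Matrix (Fin m) (Fin m) ℂ) (s : ℂ) (u : Fin m → Fin (2 * k + 1) → ℤ),
      N ^ m = 0 → ((Matrix.diagonal fun a => mon t (u a)) * (1 + s • N)).det =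
        mon t (∑ a, u a) := by
    intro N s u hN
    rw [Matrix.det_mul, Matrix.det_diagonal, Cpc_det (hnil N s hN), mul_one, Cpc_monprod h0]
  -- the classes of the eigenvalues
  have hcls : ∀ s : ℂ, ∃ p₀ : Set ℂ,
      (∀ (r : ℂ) (v : Fin m → ℂ), v ≠ 0 →
        ((Matrix.diagonal fun a => mon t (w a)) * (1 + s • y)) *ᵥ v = r • v → Cpc_p t r = p₀) ∧
      (∀ (r : ℂ) (v : Fin m → ℂ), v ≠ 0 →
        ((Matrix.diagonal fun b => mon t (w' b)) * (1 + s • x)) *ᵥ v = r • v →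
          Cpc_p t r = p₀) := by
    intro s
    obtain ⟨m0, m1⟩ := Cpc_mor hG h0 hxy s
    obtain ⟨S, S', β, EC⟩ := exists_eig ((Matrix.diagonal fun a => mon t (w a)) * (1 + s • y))
    obtain ⟨T, T', α, ED⟩ := exists_eig ((Matrix.diagonal fun b => mon t (w' b)) * (1 + s • x))
    obtain ⟨p₀, hβ, hα⟩ := lab_one hG.c0 hG.det hP (Cpc_p t) (z := fun i j => t i * t j)
      (fun i j β => Cpc_p_mul h0 i j β) m0 m1 EC ED
    refine ⟨p₀, fun r v hv h => ?_, fun r v hv h => ?_⟩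
    · obtain ⟨a, rfl⟩ := eig_root EC hv h
      exact hβ a
    · obtain ⟨a, rfl⟩ := eig_root ED hv h
      exact hα a
  have hform : ∀ (P N : Matrix (Fin m) (Fin m) ℂ) (s : ℂ), P + s • (P * N) = P * (1 + s • N) := by
    intro P N s
    rw [Matrix.mul_add, Matrix.mul_one, Matrix.mul_smul]
  have hform1 : ∀ (P N : Matrix (Fin m) (Fin m) ℂ), P * (1 + N) = P + P * N := by
    intro P N
    rw [Matrix.mul_add, Matrix.mul_one]
  constructor
  · rw [hform1, charpoly_ctb _ _ (Cpc_ctb (t := t) hm) ?_, Matrix.charpoly_diagonal]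
    intro s z v hv h
    rw [hform] at h
    obtain ⟨p₀, hp, -⟩ := hcls s
    exact Cpc_mem h0 _ (hdet y s w hy) (fun r r' v v' hv hv' hr hr' =>
      Cpc_p_eq ((hp r v hv hr).trans (hp r' v' hv' hr').symm)) hv h
  · rw [hform1, charpoly_ctb _ _ (Cpc_ctb (t := t) hm) ?_, Matrix.charpoly_diagonal]
    intro s z v hv h
    rw [hform] at h
    obtain ⟨p₀, -, hp⟩ := hcls s
    exact Cpc_mem h0 _ (hdet x s w' hx) (fun r r' v v' hv hv' hr hr' =>
      Cpc_p_eq ((hp r v hv hr).trans (hp r' v' hv' hr').symm)) hv h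

end PadDet.Eq
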