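import Pool.Agent.H.MP_d7db32_ag.Eq.L.KerC
import Pool.Agent.H.MP_d7db32_ag.Eq.L.Cpc

/-!
# MP_d7db32_ag, Eq/L/Zgz: weights modulo three

`zs_gz`: weights modulo `3`. `gL`, `gE`: cast. `st`: `Zs.st` with `σ⁻¹`. `tw`: at `X` with `F X ≠ 0`: determinants of
`zg_mor` (with `t`): `∏ mon t (w' b) * det Λ(X) = det Λ(tor t X) * ∏ mon t (w a)`, `Fv_tor`, so by `mon_inj` `∑ w' b = ∑ w a + 2`. `cd`: the columns
whose weight modulo `3` is `ω` are the disjoint union over the integer weights `ν` (in the finite image of `w`, `w'`) with `ν mod 3 = ω`, all of them not constant; `eqc`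
(`Finset.card_eq_sum_card_fiberwise`).
-/

set_option autoImplicit false

namespace PadDet.Eq

open Matrix

variable {k m : ℕ} {c : ℂ} {L : Matrix (Fin m) (Fin m) ℂ}
  {M : Matrix (Fin (2 * k + 1)) (Fin (2 * k + 1)) ℂ →ₗ[ℂ] Matrix (Fin m) (Fin m) ℂ}
  {w w' : Fin m → Fin (2 * k + 1) → ℤ} {t : Fin (2 * k + 1) → ℂ}

private theorem zgz_mon_sum {n : ℕ} {ι : Type*} {s : Fin n → ℂ} (hs : ∀ i, s i ≠ 0) (S : Finset ι)
    (u : ι → Fin n → ℤ) : ∏ a ∈ S, mon s (u a) = mon s (∑ a ∈ S, u a) := by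
  classical
  induction S using Finset.induction_on with
  | empty => rw [Finset.prod_empty, Finset.sum_empty, mon_zero]
  | insert a S ha ih => rw [Finset.prod_insert ha, Finset.sum_insert ha, mon_add hs, ih]

private theorem zgz_tw (h : Zs (2 * k + 1) m c L M w w') (ht : Gen t) :
    ∑ b, w' b = ∑ a, w a + fun _ => 2 := by
  obtain ⟨X, hX⟩ := exists_det h.c0 h.det
  have h1 := congrArg Matrix.det (zg_mor h.toZg ht.1 X)
  rw [Matrix.det_mul, Matrix.det_mul, Matrix.det_diagonal, Matrix.det_diagonal,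
    zgz_mon_sum ht.1, zgz_mon_sum ht.1, h.det (tor t X), Fv_tor ht.1] at h1
  have h2 : (∏ i, t i) ^ 2 = mon t (fun _ => 2) := by
    unfold mon
    rw [← Finset.prod_pow]
    exact Finset.prod_congr rfl fun i _ => (zpow_ofNat (t i) 2).symm
  have h3 : mon t (∑ b, w' b) * (L + M X).det =
      mon t (∑ a, w a + fun _ => 2) * (L + M X).det := by
    rw [h1, mon_add ht.1, ← h2, h.det X]
    ring
  exact mon_inj ht (mul_right_cancel₀ hX h3)

private theorem zgz_card {n : ℕ} (ω : Fin n → ZMod 3) (u : Fin m → Fin n → ℤ)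
    (S : Finset (Fin n → ℤ)) (hS : ∀ a, u a ∈ S) :
    Nat.card {a // (fun i => (u a i : ZMod 3)) = ω} =
      ∑ ν ∈ S.filter (fun ν => (fun i => (ν i : ZMod 3)) = ω), Nat.card {a // u a = ν} := by
  classical
  rw [Nat.card_eq_fintype_card, Fintype.card_subtype,
    Finset.card_eq_sum_card_fiberwise (f := u)
      (t := S.filter (fun ν => (fun i => (ν i : ZMod 3)) = ω))]
  · refine Finset.sum_congr rfl fun ν hν => ?_
    rw [Nat.card_eq_fintype_card, Fintype.card_subtype]
    congr 1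
    ext a
    simp only [Finset.mem_filter, Finset.mem_univ, true_and]
    constructor
    · exact fun hh => hh.2
    · intro hh
      refine ⟨?_, hh⟩
      rw [hh]
      exact (Finset.mem_filter.1 hν).2
  · intro a ha
    simp only [Finset.coe_filter, Finset.mem_univ, true_and, Set.mem_ofPred_eq] at ha ⊢
    exact ⟨hS a, ha⟩

theorem zs_gz (hk : 1 ≤ k) (h : Zs (2 * k + 1) m c L M w w') (ht : Gen t) :
    Gz (2 * k + 1) m c L M (fun a i => (w a i : ZMod 3)) (fun b i => (w' b i : ZMod 3)) := by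
  classical
  refine ⟨h.c0, h.det, ?_, ?_, ?_, ?_, ?_⟩
  · intro b a hne
    rw [h.gL b a hne]
  · intro b a i j hne
    have h1 := h.gE b a i j hne
    funext l
    have h2 : ∀ p : Fin (2 * k + 1), (((Pi.single p 1 : Fin (2 * k + 1) → ℤ) l : ℤ) : ZMod 3) =
        (Pi.single p 1 : Fin (2 * k + 1) → ZMod 3) l := by
      intro p
      by_cases hp : l = p
      · subst hp
        simp
      · rw [Pi.single_eq_of_ne hp, Pi.single_eq_of_ne hp, Int.cast_zero]
    rw [Pi.add_apply, Pi.add_apply, ← h2, ← h2, h1, Pi.add_apply, Pi.add_apply, Int.cast_add,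
      Int.cast_add]
  · intro σ a
    obtain ⟨π, hπ⟩ := h.st σ⁻¹
    refine ⟨π a, fun i => ?_⟩
    have h1 : w (π a) (σ i) = w a i := (hπ a (σ i)).trans (congrArg (w a) (σ.symm_apply_apply i))
    exact congrArg (fun z : ℤ => (z : ZMod 3)) h1
  · intro i
    have h1 := congrFun (zgz_tw h ht) i
    rw [Pi.add_apply, Finset.sum_apply, Finset.sum_apply] at h1
    have h2 := congrArg (fun z : ℤ => (z : ZMod 3)) h1
    simp only [Int.cast_add, Int.cast_sum] at h2
    exact h2
  · intro ω hω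
    have hS : ∀ a, w a ∈ Finset.univ.image w ∪ Finset.univ.image w' := fun a =>
      Finset.mem_union_left _ (Finset.mem_image_of_mem w (Finset.mem_univ a))
    have hS' : ∀ b, w' b ∈ Finset.univ.image w ∪ Finset.univ.image w' := fun b =>
      Finset.mem_union_right _ (Finset.mem_image_of_mem w' (Finset.mem_univ b))
    rw [zgz_card ω w _ hS, zgz_card ω w' _ hS']
    refine Finset.sum_congr rfl fun ν hν => ?_
    have h1 := (Finset.mem_filter.1 hν).2
    obtain ⟨i, j, hij⟩ := hω
    refine eqc hk h ⟨i, j, fun hh => hij ?_⟩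
    rw [← h1]
    exact congrArg (fun z : ℤ => (z : ZMod 3)) hh

end PadDet.Eq
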