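import Pool.Agent.H.MP_d7db32_ag.Eq.L.Exp
import Pool.Agent.H.MP_d7db32_ag.Eq.L.Grd
import Pool.Agent.H.MP_d7db32_ag.Eq.L.Sta
import Pool.Agent.H.MP_d7db32_ag.Eq.L.Zgz

/-!
# MP_d7db32_ag, Eq/L/Asm: the bound for expressions which are equivariant pointwise

`lowP`: `exists_prim`, `grd`, `sta`, `shf`, `zs_gz`, `cstZ` (module CstZ). For `k = 0`: `1 ≤ m'` because for `m' = 0` the
determinant is `1`, but `F 0 = 0`. (`m' ≠ 0` in general for the same reason.)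
-/

set_option autoImplicit false

namespace PadDet.Eq

open Matrix

variable {k m : ℕ} {c : ℂ} {L : Matrix (Fin m) (Fin m) ℂ}
  {M : Matrix (Fin (2 * k + 1)) (Fin (2 * k + 1)) ℂ →ₗ[ℂ] Matrix (Fin m) (Fin m) ℂ}
  {w w' : Fin m → Fin (2 * k + 1) → ℤ} {t : Fin (2 * k + 1) → ℂ}

private theorem Asm_ne (h : Pwe (2 * k + 1) m c L M t) : m ≠ 0 := by
  intro hm
  subst hm
  have h0 := h.det 0
  rw [Fv_skew 0 (by rw [Matrix.transpose_zero, neg_zero]), mul_zero, Matrix.det_isEmpty] at h0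
  exact one_ne_zero h0

theorem lowP (h : Pwe (2 * k + 1) m c L M t) : 2 ^ (2 * k + 1) - 1 ≤ m := by
  obtain ⟨m', hm', c', L', M', h', hP⟩ := exists_prim h
  refine le_trans ?_ hm'
  have hm0 : m' ≠ 0 := Asm_ne h'
  rcases Nat.eq_zero_or_pos k with hk | hk
  · subst hk
    have h1 : 2 ^ (2 * 0 + 1) - 1 = 1 := rfl
    rw [h1]
    exact Nat.one_le_iff_ne_zero.2 hm0
  · obtain ⟨c₂, L₂, M₂, w, w', hG, hP₂, hS⟩ := grd h' hP
    obtain ⟨μ, hZ⟩ := shf hm0 hG (fun σ => sta hG hP₂ h'.gen hm0 (hS σ))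
    obtain ⟨X, hX⟩ := exists_ne k
    exact cstZ (zs_gz hk hZ h'.gen) hX

end PadDet.Eq
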