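import Pool.Agent.H.MP_d7db32_ag.Eq.FvA
import Pool.Agent.H.MP_d7db32_ag.Eq.CaseD
import Pool.Agent.H.MP_d7db32_ag.Eq.Low

/-!
# MP_d7db32_ag, Eq/L/Bas: determinant expressions which are equivariant for each group element
separately (in the sense of Landsberg and Ressayre)

`L + M X` is a pencil. `Mor L M g x y`: `x (L + M X) = (L + M (g X)) y` for all `X`. `Good L M y`:
`y` fixes all kernel vectors. `Prim L M`: the only idempotent endomorphism which fixes all kernel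
vectors is the identity.
-/

set_option autoImplicit false

namespace PadDet.Eq

open Matrix

variable {n m : ℕ}

/-- The diagonal matrix `t` acts by `X ↦ t X t`. -/
def tor (t : Fin n → ℂ) (X : Matrix (Fin n) (Fin n) ℂ) : Matrix (Fin n) (Fin n) ℂ :=
  Matrix.of fun i j => t i * t j * X i j

/-- A permutation acts on rows and columns. -/
def prm (σ : Equiv.Perm (Fin n)) (X : Matrix (Fin n) (Fin n) ℂ) : Matrix (Fin n) (Fin n) ℂ :=
  X.submatrix σ σ

/-- `x (L + M X) = (L + M (g X)) y` for all `X`. -/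
def Mor (L : Matrix (Fin m) (Fin m) ℂ)
    (M : Matrix (Fin n) (Fin n) ℂ →ₗ[ℂ] Matrix (Fin m) (Fin m) ℂ)
    (g : Matrix (Fin n) (Fin n) ℂ → Matrix (Fin n) (Fin n) ℂ)
    (x y : Matrix (Fin m) (Fin m) ℂ) : Prop :=
  ∀ X, x * (L + M X) = (L + M (g X)) * y

/-- The pencil is equivariant for `g`. -/
def Eqv (L : Matrix (Fin m) (Fin m) ℂ)
    (M : Matrix (Fin n) (Fin n) ℂ →ₗ[ℂ] Matrix (Fin m) (Fin m) ℂ)
    (g : Matrix (Fin n) (Fin n) ℂ → Matrix (Fin n) (Fin n) ℂ) : Prop :=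
  ∃ A B : Matrix (Fin m) (Fin m) ℂ, A.det ≠ 0 ∧ B.det ≠ 0 ∧ Mor L M g A B

/-- `y` fixes all kernel vectors. -/
def Good (L : Matrix (Fin m) (Fin m) ℂ)
    (M : Matrix (Fin n) (Fin n) ℂ →ₗ[ℂ] Matrix (Fin m) (Fin m) ℂ)
    (y : Matrix (Fin m) (Fin m) ℂ) : Prop :=
  ∀ X (v : Fin m → ℂ), (L + M X) *ᵥ v = 0 → y *ᵥ v = v

/-- The only idempotent endomorphism which fixes all kernel vectors is the identity. -/
def Prim (L : Matrix (Fin m) (Fin m) ℂ)
    (M : Matrix (Fin n) (Fin n) ℂ →ₗ[ℂ] Matrix (Fin m) (Fin m) ℂ) : Prop :=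
  ∀ x y : Matrix (Fin m) (Fin m) ℂ, Mor L M id x y → x * x = x → y * y = y → Good L M y → y = 1

/-- The entries of `t` are multiplicatively independent. -/
def Gen (t : Fin n → ℂ) : Prop :=
  (∀ i, t i ≠ 0) ∧ ∀ w : Fin n → ℤ, ∏ i, t i ^ w i = 1 → w = 0

/-- Determinant expression of `c F`, equivariant for `t` and for the permutations. -/
structure Pwe (n m : ℕ) (c : ℂ) (L : Matrix (Fin m) (Fin m) ℂ)
    (M : Matrix (Fin n) (Fin n) ℂ →ₗ[ℂ] Matrix (Fin m) (Fin m) ℂ) (t : Fin n → ℂ) : Prop where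
  c0 : c ≠ 0
  det : ∀ X, (L + M X).det = c * Fv X
  gen : Gen t
  pT : Eqv L M (tor t)
  pS : ∀ σ : Equiv.Perm (Fin n), Eqv L M (prm σ)

/-- Weights in `ℤ ^ n`. -/
structure Zg (n m : ℕ) (c : ℂ) (L : Matrix (Fin m) (Fin m) ℂ)
    (M : Matrix (Fin n) (Fin n) ℂ →ₗ[ℂ] Matrix (Fin m) (Fin m) ℂ)
    (w w' : Fin m → Fin n → ℤ) : Prop where
  c0 : c ≠ 0
  det : ∀ X, (L + M X).det = c * Fv X
  gL : ∀ b a, L b a ≠ 0 → w' b = w a
  gE : ∀ b a i j, M (Matrix.single i j 1) b a ≠ 0 →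
    w' b = w a + Pi.single i 1 + Pi.single j 1

/-- The monomial of weight `w`. -/
noncomputable def mon (t : Fin n → ℂ) (w : Fin n → ℤ) : ℂ := ∏ i, t i ^ w i

theorem mon_add {t : Fin n → ℂ} (ht : ∀ i, t i ≠ 0) (w w' : Fin n → ℤ) :
    mon t (w + w') = mon t w * mon t w' := by
  unfold mon
  rw [← Finset.prod_mul_distrib]
  exact Finset.prod_congr rfl fun i _ => zpow_add₀ (ht i) _ _

theorem mon_ne {t : Fin n → ℂ} (ht : ∀ i, t i ≠ 0) (w : Fin n → ℤ) : mon t w ≠ 0 :=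
  Finset.prod_ne_zero_iff.2 fun i _ => zpow_ne_zero _ (ht i)

theorem mon_zero (t : Fin n → ℂ) : mon t 0 = 1 := by
  unfold mon
  simp

theorem mon_neg {t : Fin n → ℂ} (ht : ∀ i, t i ≠ 0) (w : Fin n → ℤ) :
    mon t (-w) = (mon t w)⁻¹ := by
  have h := mon_add ht (-w) w
  rw [neg_add_cancel, mon_zero] at h
  exact eq_inv_of_mul_eq_one_left h.symm

theorem mon_inj {t : Fin n → ℂ} (h : Gen t) {w w' : Fin n → ℤ} (he : mon t w = mon t w') :
    w = w' := by
  have h1 : mon t (w + -w') = 1 := by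
    rw [mon_add h.1, mon_neg h.1, he]
    exact mul_inv_cancel₀ (mon_ne h.1 _)
  have h2 := h.2 _ h1
  rw [← sub_eq_add_neg] at h2
  exact sub_eq_zero.1 h2

theorem mon_single {t : Fin n → ℂ} (i : Fin n) : mon t (Pi.single i 1) = t i := by
  unfold mon
  rw [Finset.prod_eq_single i]
  · simp
  · intro j _ hj
    rw [Pi.single_eq_of_ne hj, zpow_zero]
  · intro h
    exact absurd (Finset.mem_univ i) h

theorem tor_single (t : Fin n → ℂ) (i j : Fin n) :
    tor t (Matrix.single i j 1) = (t i * t j) • Matrix.single i j (1 : ℂ) := by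
  ext a b
  unfold tor
  rw [Matrix.of_apply, Matrix.smul_apply, smul_eq_mul, Matrix.single_apply]
  by_cases h : i = a ∧ j = b
  · obtain ⟨rfl, rfl⟩ := h
    rfl
  · rw [if_neg h, mul_zero, mul_zero]

theorem prm_single (σ : Equiv.Perm (Fin n)) (i j : Fin n) :
    prm σ (Matrix.single i j (1 : ℂ)) = Matrix.single (σ.symm i) (σ.symm j) 1 := by
  ext a b
  unfold prm
  rw [Matrix.submatrix_apply, Matrix.single_apply, Matrix.single_apply]
  refine if_congr ?_ rfl rfl
  rw [Equiv.symm_apply_eq, Equiv.symm_apply_eq]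

theorem Fv_prm (σ : Equiv.Perm (Fin n)) (X : Matrix (Fin n) (Fin n) ℂ) : Fv (prm σ X) = Fv X :=
  Fv_submatrix X σ

theorem lin_single (M : Matrix (Fin n) (Fin n) ℂ →ₗ[ℂ] Matrix (Fin m) (Fin m) ℂ)
    (X : Matrix (Fin n) (Fin n) ℂ) :
    M X = ∑ i, ∑ j, X i j • M (Matrix.single i j 1) := by
  conv_lhs => rw [Matrix.matrix_eq_sum_single X]
  rw [map_sum]
  refine Finset.sum_congr rfl fun i _ => ?_
  rw [map_sum]
  refine Finset.sum_congr rfl fun j _ => ?_
  rw [← map_smul, Matrix.smul_single, smul_eq_mul, mul_one]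

/-- Morphisms over linear maps given by the values on the matrix units. -/
theorem mor_tor {L : Matrix (Fin m) (Fin m) ℂ}
    {M : Matrix (Fin n) (Fin n) ℂ →ₗ[ℂ] Matrix (Fin m) (Fin m) ℂ} {t : Fin n → ℂ}
    {D C : Matrix (Fin m) (Fin m) ℂ} :
    Mor L M (tor t) D C ↔ D * L = L * C ∧ ∀ i j, D * M (Matrix.single i j 1) =
      (t i * t j) • (M (Matrix.single i j 1) * C) := by
  constructor
  · intro h
    have h0 : D * L = L * C := by
      have := h 0
      have e : tor t (0 : Matrix (Fin n) (Fin n) ℂ) = 0 := by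
        ext a b
        simp [tor]
      rwa [e, map_zero, add_zero] at this
    refine ⟨h0, fun i j => ?_⟩
    have h1 := h (Matrix.single i j 1)
    rw [tor_single, Matrix.mul_add, Matrix.add_mul, h0, map_smul, Matrix.smul_mul] at h1
    exact add_left_cancel h1
  · rintro ⟨h0, h1⟩ X
    rw [Matrix.mul_add, Matrix.add_mul, h0]
    congr 1
    rw [lin_single M X, lin_single M (tor t X), Finset.mul_sum, Finset.sum_mul]
    refine Finset.sum_congr rfl fun i _ => ?_
    rw [Finset.mul_sum, Finset.sum_mul]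
    refine Finset.sum_congr rfl fun j _ => ?_
    rw [Matrix.mul_smul, h1 i j, Matrix.smul_mul, smul_smul]
    congr 1
    unfold tor
    rw [Matrix.of_apply]
    ring

theorem mor_id {L : Matrix (Fin m) (Fin m) ℂ}
    {M : Matrix (Fin n) (Fin n) ℂ →ₗ[ℂ] Matrix (Fin m) (Fin m) ℂ}
    {D C : Matrix (Fin m) (Fin m) ℂ} :
    Mor L M id D C ↔ D * L = L * C ∧ ∀ i j, D * M (Matrix.single i j 1) =
      M (Matrix.single i j 1) * C := by
  have h1 : (tor (fun _ => 1) : Matrix (Fin n) (Fin n) ℂ → _) = id := by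
    funext X
    ext i j
    simp [tor]
  have h := @mor_tor n m L M (fun _ => 1) D C
  rw [h1] at h
  rw [h]
  simp only [mul_one, one_smul]

/-- The determinant is nonzero somewhere. -/
theorem exists_det {k : ℕ} {c : ℂ} {L : Matrix (Fin m) (Fin m) ℂ}
    {M : Matrix (Fin (2 * k + 1)) (Fin (2 * k + 1)) ℂ →ₗ[ℂ] Matrix (Fin m) (Fin m) ℂ}
    (hc : c ≠ 0) (hdet : ∀ X, (L + M X).det = c * Fv X) : ∃ X, (L + M X).det ≠ 0 := by
  obtain ⟨X, hX⟩ := exists_ne k
  exact ⟨X, by rw [hdet]; exact mul_ne_zero hc hX⟩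

theorem Fv_tor {t : Fin n → ℂ} (ht : ∀ i, t i ≠ 0) (X : Matrix (Fin n) (Fin n) ℂ) :
    Fv (tor t X) = (∏ i, t i) ^ 2 * Fv X := by
  let g : GL (Fin n) ℂ :=
    { val := Matrix.diagonal t
      inv := Matrix.diagonal fun i => (t i)⁻¹
      val_inv := by
        rw [Matrix.diagonal_mul_diagonal, ← Matrix.diagonal_one]
        congr 1
        funext i
        exact mul_inv_cancel₀ (ht i)
      inv_val := by
        rw [Matrix.diagonal_mul_diagonal, ← Matrix.diagonal_one]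
        congr 1
        funext i
        exact inv_mul_cancel₀ (ht i) }
  have h1 : tor t X = act (g, 1) X := by
    have e : ((1 / 2 : ℂ) • (X - Xᵀ) + (((1 : ℂˣ) : ℂ) / 2) • (X + Xᵀ)) = X := by
      rw [Units.val_one]
      module
    unfold act
    simp only [e]
    show tor t X = Matrix.diagonal t * X * (Matrix.diagonal t)ᵀ
    ext i j
    rw [Matrix.diagonal_transpose, Matrix.mul_diagonal, Matrix.diagonal_mul]
    unfold tor
    rw [Matrix.of_apply]
    ring
  rw [h1, Fv_act]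
  show (Matrix.diagonal t).det ^ 2 * ((1 : ℂˣ) : ℂ) * Fv X = _
  rw [Matrix.det_diagonal, Units.val_one, mul_one]

end PadDet.Eq
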