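import Mathlib

/-!
# MP_d7db32_ag, Eq/L/Eig: a basis of generalized eigenvectors

`eig_mor`: `(D - z μ) ^ k N = z ^ k N (C - μ) ^ k`, so `N` maps the column `a` of `S` to a
generalized eigenvector of `D` for `z * β a`; `ED.only`.
`eig_root`: `only` with `k = 1` (some coordinate of `S' v` is not zero because `S'` is invertible). `eig_ev`: the column `a` of `S` is not zero and killed by a
power of `C - β a`; take the last nonzero vector of the sequence.
-/

set_option autoImplicit false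

namespace PadDet.Eq

open Matrix

variable {m : ℕ}

/-- The columns of `S` form a basis of generalized eigenvectors of `C`, with the eigenvalues `β`. -/
structure Eig (C S S' : Matrix (Fin m) (Fin m) ℂ) (β : Fin m → ℂ) : Prop where
  inv : S' * S = 1
  inv' : S * S' = 1
  col : ∀ a, ((C - Matrix.diagonal fun _ => β a) ^ m) *ᵥ (fun i => S i a) = 0
  only : ∀ (μ : ℂ) (k : ℕ) (v : Fin m → ℂ), ((C - Matrix.diagonal fun _ => μ) ^ k) *ᵥ v = 0 →
    ∀ a, (S' *ᵥ v) a ≠ 0 → β a = μ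

private theorem Eig_diag (μ : ℂ) :
    (Matrix.diagonal fun _ : Fin m => μ) = μ • (1 : Matrix (Fin m) (Fin m) ℂ) :=
  (Matrix.smul_one_eq_diagonal μ).symm

private theorem Eig_pow {D C N : Matrix (Fin m) (Fin m) ℂ} {z : ℂ} (h : D * N = z • (N * C))
    (μ : ℂ) (k : ℕ) : (D - Matrix.diagonal fun _ => z * μ) ^ k * N =
      z ^ k • (N * (C - Matrix.diagonal fun _ => μ) ^ k) := by
  have h1 : (D - Matrix.diagonal fun _ => z * μ) * N =
      z • (N * (C - Matrix.diagonal fun _ => μ)) := by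
    rw [Eig_diag, Eig_diag, Matrix.sub_mul, Matrix.mul_sub, h, Matrix.smul_mul, Matrix.one_mul,
      Matrix.mul_smul, Matrix.mul_one, smul_sub, smul_smul]
  induction k with
  | zero => simp
  | succ k ih =>
    rw [pow_succ, Matrix.mul_assoc, h1, Matrix.mul_smul, ← Matrix.mul_assoc, ih, Matrix.smul_mul,
      smul_smul, Matrix.mul_assoc, ← pow_succ, ← pow_succ']

private theorem Eig_col (S : Matrix (Fin m) (Fin m) ℂ) (A : Matrix (Fin m) (Fin m) ℂ)
    (b a : Fin m) : (A * S) b a = (A *ᵥ (fun i => S i a)) b := by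
  rw [Matrix.mul_apply]
  rfl

theorem eig_mor {D C N : Matrix (Fin m) (Fin m) ℂ} {z : ℂ} (h : D * N = z • (N * C))
    {S S' T T' : Matrix (Fin m) (Fin m) ℂ} {β α : Fin m → ℂ} (EC : Eig C S S' β)
    (ED : Eig D T T' α) (b a : Fin m) (hba : (T' * N * S) b a ≠ 0) : α b = z * β a := by
  refine ED.only (z * β a) m (N *ᵥ (fun i => S i a)) ?_ b ?_
  · rw [Matrix.mulVec_mulVec, Eig_pow h, Matrix.smul_mulVec, ← Matrix.mulVec_mulVec, EC.col a,
      Matrix.mulVec_zero, smul_zero]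
  · rw [Matrix.mulVec_mulVec, ← Eig_col]
    exact hba

/-- Every eigenvalue occurs. -/
theorem eig_root {C S S' : Matrix (Fin m) (Fin m) ℂ} {β : Fin m → ℂ} (E : Eig C S S' β) {z : ℂ}
    {v : Fin m → ℂ} (hv : v ≠ 0) (h : C *ᵥ v = z • v) : ∃ a, β a = z := by
  have h1 : ∃ a, (S' *ᵥ v) a ≠ 0 := by
    by_contra hcon
    push Not at hcon
    have h2 : S' *ᵥ v = 0 := funext hcon
    apply hv
    have h3 : (S * S') *ᵥ v = v := by rw [E.inv', Matrix.one_mulVec]
    rw [← h3, ← Matrix.mulVec_mulVec, h2, Matrix.mulVec_zero]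
  obtain ⟨a, ha⟩ := h1
  refine ⟨a, E.only z 1 v ?_ a ha⟩
  rw [pow_one, Eig_diag, Matrix.sub_mulVec, h, Matrix.smul_mulVec, Matrix.one_mulVec, sub_self]

/-- Every `β a` is an eigenvalue. -/
theorem eig_ev {C S S' : Matrix (Fin m) (Fin m) ℂ} {β : Fin m → ℂ} (E : Eig C S S' β)
    (a : Fin m) : ∃ v : Fin m → ℂ, v ≠ 0 ∧ C *ᵥ v = β a • v := by
  classical
  set u : Fin m → ℂ := fun i => S i a with hu
  set P : Matrix (Fin m) (Fin m) ℂ := C - Matrix.diagonal fun _ => β a with hP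
  have h0 : u ≠ 0 := by
    intro h
    have h1 : (S' * S) a a = (S' *ᵥ u) a := Eig_col S S' a a
    rw [E.inv, h, Matrix.mulVec_zero] at h1
    simp at h1
  have hex : ∃ k, (P ^ k) *ᵥ u = 0 := ⟨m, E.col a⟩
  have hf := Nat.find_spec hex
  obtain ⟨k, hk⟩ : ∃ k, Nat.find hex = k + 1 := by
    cases hn : Nat.find hex with
    | zero =>
      rw [hn, pow_zero, Matrix.one_mulVec] at hf
      exact absurd hf h0
    | succ k => exact ⟨k, rfl⟩
  have hne : (P ^ k) *ᵥ u ≠ 0 := Nat.find_min hex (by omega)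
  refine ⟨(P ^ k) *ᵥ u, hne, ?_⟩
  rw [hk, pow_succ', ← Matrix.mulVec_mulVec] at hf
  rw [hP, Eig_diag, Matrix.sub_mulVec, Matrix.smul_mulVec, Matrix.one_mulVec, sub_eq_zero] at hf
  rw [hP, Eig_diag]
  exact hf

end PadDet.Eq
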