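import Pool.Agent.H.MP_d7db32_ag.Eq.L.Pol

/-!
# MP_d7db32_ag, Eq/L/ExJ: the normal form

`exists_J`: `J` with entries `J (2 s - 1) (2 s) = 1`, `J (2 s) (2 s - 1) = -1` for `1 ≤ s ≤ k`, all others `0` (row and column `0` are zero);
`i₁ = 1`, `i₂ = 2`. `Fv (J + D)` for a diagonal `D` with entries `d`: `2 ∑ adj (2 J) i i d i`; from `2 J adj (2 J) = det (2 J) = 0` the rows `1`, `2` of
the adjugate are zero, and all rows `i ≥ 1`, so it is `2 adj (2 J) 0 0 d 0`; the entry `0 0` of the adjugate is the determinant of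
`2 J` without row and column `0` (`Matrix.adjugate_fin_succ_eq_det_submatrix`), whose square is `-4`, so it is not zero.
-/

set_option autoImplicit false

namespace PadDet.Eq

open Matrix

variable {k : ℕ}

/-- The partner of an index. -/
private def prt (k : ℕ) (i : Fin (2 * k + 1)) : Fin (2 * k + 1) :=
  if h0 : i.val = 0 then i else if h1 : i.val % 2 = 1 then ⟨i.val + 1, by omega⟩ else
    ⟨i.val - 1, by omega⟩

/-- The sign of an index. -/
private def sgn (k : ℕ) (i : Fin (2 * k + 1)) : ℂ :=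
  if i.val = 0 then 0 else if i.val % 2 = 1 then 1 else -1

private theorem prt_prt (i : Fin (2 * k + 1)) : prt k (prt k i) = i := by
  apply Fin.ext
  unfold prt
  by_cases h0 : i.val = 0
  · simp [h0]
  · by_cases h1 : i.val % 2 = 1
    · have h2 : ¬ (i.val + 1 = 0) := by omega
      have h3 : ¬ ((i.val + 1) % 2 = 1) := by omega
      simp only [h0, h1, h2, h3, dif_neg, dif_pos, not_false_eq_true, dite_true, dite_false]
      omega
    · have h2 : ¬ (i.val - 1 = 0) := by omega
      have h3 : (i.val - 1) % 2 = 1 := by omega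
      simp only [h0, h1, h2, h3, dif_neg, dif_pos, not_false_eq_true, dite_true, dite_false]
      omega

private theorem sgn_prt (i : Fin (2 * k + 1)) : sgn k (prt k i) = - sgn k i := by
  unfold prt sgn
  by_cases h0 : i.val = 0
  · simp [h0]
  · by_cases h1 : i.val % 2 = 1
    · have h2 : ¬ (i.val + 1 = 0) := by omega
      have h3 : ¬ ((i.val + 1) % 2 = 1) := by omega
      simp [h0, h1, h3]
    · have h2 : ¬ (i.val - 1 = 0) := by omega
      have h3 : (i.val - 1) % 2 = 1 := by omega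
      simp [h0, h1, h2, h3]

private theorem sgn_sq (i : Fin (2 * k + 1)) (h : i.val ≠ 0) : sgn k i * sgn k i = 1 := by
  unfold sgn
  rw [if_neg h]
  split_ifs <;> norm_num

/-- The matrix. -/
private def JJ (k : ℕ) : Matrix (Fin (2 * k + 1)) (Fin (2 * k + 1)) ℂ :=
  Matrix.of fun i j => if j = prt k i then sgn k i else 0

private theorem JJ_apply (i j : Fin (2 * k + 1)) :
    JJ k i j = if j = prt k i then sgn k i else 0 := rfl

private theorem JJ_skew : (JJ k)ᵀ = - JJ k := by
  ext i j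
  rw [Matrix.transpose_apply, Matrix.neg_apply, JJ_apply, JJ_apply]
  by_cases h : i = prt k j
  · have h2 : j = prt k i := by rw [h, prt_prt]
    rw [if_pos h, if_pos h2]
    rw [h, sgn_prt, neg_neg]
  · have h2 : ¬ (j = prt k i) := fun h' => h (by rw [h', prt_prt])
    rw [if_neg h, if_neg h2, neg_zero]

private theorem JJ_sq (i j : Fin (2 * k + 1)) :
    (JJ k * JJ k) i j = if i = j then - (sgn k i * sgn k i) else 0 := by
  rw [Matrix.mul_apply, Finset.sum_eq_single (prt k i)]
  · rw [JJ_apply, JJ_apply, if_pos rfl, prt_prt, sgn_prt]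
    by_cases h : i = j
    · rw [if_pos h, if_pos h.symm]
      ring
    · rw [if_neg h, if_neg (fun h' => h h'.symm), mul_zero]
  · intro l _ hl
    rw [JJ_apply, if_neg hl, zero_mul]
  · intro h
    exact absurd (Finset.mem_univ _) h

private theorem JJ_row0 (j : Fin (2 * k + 1)) : JJ k 0 j = 0 := by
  rw [JJ_apply]
  have : sgn k 0 = 0 := by
    unfold sgn
    simp
  rw [this]
  split_ifs <;> rfl

private theorem adj_row (i j : Fin (2 * k + 1)) (hi : i.val ≠ 0) :
    ((2 : ℂ) • JJ k).adjugate i j = 0 := by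
  have h1 : ((2 : ℂ) • JJ k).det = 0 := by
    apply Matrix.det_eq_zero_of_row_eq_zero 0
    intro j
    rw [Matrix.smul_apply, JJ_row0, smul_zero]
  have h2 := Matrix.mul_adjugate ((2 : ℂ) • JJ k)
  rw [h1, zero_smul, Matrix.smul_mul] at h2
  have h3 : JJ k * ((2 : ℂ) • JJ k).adjugate = 0 :=
    (smul_eq_zero.1 h2).resolve_left two_ne_zero
  have h4 : JJ k * JJ k * ((2 : ℂ) • JJ k).adjugate = 0 := by
    rw [Matrix.mul_assoc, h3, Matrix.mul_zero]
  have h5 := congrFun (congrFun h4 i) j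
  rw [Matrix.mul_apply, Finset.sum_eq_single i, JJ_sq, if_pos rfl, sgn_sq i hi,
    Matrix.zero_apply] at h5
  · linear_combination -h5
  · intro l _ hl
    rw [JJ_sq, if_neg (fun h => hl h.symm), zero_mul]
  · intro h
    exact absurd (Finset.mem_univ _) h

private theorem adj_00 : ((2 : ℂ) • JJ k).adjugate 0 0 ≠ 0 := by
  rw [Matrix.adjugate_fin_succ_eq_det_submatrix]
  have hK : ((((2 : ℂ) • JJ k).submatrix (Fin.succAbove 0) (Fin.succAbove 0)) *
      (((2 : ℂ) • JJ k).submatrix (Fin.succAbove 0) (Fin.succAbove 0))) =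
      (-4 : ℂ) • (1 : Matrix (Fin (2 * k)) (Fin (2 * k)) ℂ) := by
    ext i j
    have h1 := JJ_sq (k := k) i.succ j.succ
    rw [Matrix.mul_apply, Fin.sum_univ_succ, JJ_row0, mul_zero, zero_add] at h1
    rw [Matrix.mul_apply]
    have h2 : ∀ l : Fin (2 * k),
        (((2 : ℂ) • JJ k).submatrix (Fin.succAbove 0) (Fin.succAbove 0)) i l *
          (((2 : ℂ) • JJ k).submatrix (Fin.succAbove 0) (Fin.succAbove 0)) l j =
        4 * (JJ k i.succ l.succ * JJ k l.succ j.succ) := by
      intro l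
      rw [Matrix.submatrix_apply, Matrix.submatrix_apply, Fin.succAbove_zero, Matrix.smul_apply,
        Matrix.smul_apply, smul_eq_mul, smul_eq_mul]
      ring
    rw [Finset.sum_congr rfl fun l _ => h2 l, ← Finset.mul_sum, h1, Matrix.smul_apply,
      Matrix.one_apply, sgn_sq i.succ (by rw [Fin.val_succ]; omega)]
    by_cases h : i = j
    · subst h
      rw [if_pos rfl, if_pos rfl, smul_eq_mul]
      ring
    · rw [if_neg (fun h' => h (Fin.succ_injective _ h')), if_neg h, smul_zero, mul_zero]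
  have h3 := congrArg Matrix.det hK
  rw [Matrix.det_mul, Matrix.det_smul, Matrix.det_one, mul_one] at h3
  have h4 : (((2 : ℂ) • JJ k).submatrix (Fin.succAbove 0) (Fin.succAbove 0)).det ≠ 0 := by
    intro h
    rw [h, zero_mul] at h3
    exact pow_ne_zero _ (by norm_num) h3.symm
  exact mul_ne_zero (pow_ne_zero _ (by norm_num)) h4

theorem exists_J (hk : 1 ≤ k) :
    ∃ (J : Matrix (Fin (2 * k + 1)) (Fin (2 * k + 1)) ℂ) (i₀ i₁ i₂ : Fin (2 * k + 1)),
      i₁ ≠ i₀ ∧ i₂ ≠ i₀ ∧ i₁ ≠ i₂ ∧ (∀ r, r ≠ i₂ → J i₁ r = 0 ∧ J r i₁ = 0) ∧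
      (∀ r, r ≠ i₁ → J i₂ r = 0 ∧ J r i₂ = 0) ∧
      ∀ d : Fin (2 * k + 1) → ℂ, (∀ i, i ≠ i₀ → i ≠ i₁ → i ≠ i₂ → d i = 0) → d i₀ ≠ 0 →
        Fv (J + Matrix.diagonal d) ≠ 0 := by
  have hp1 : prt k (⟨1, by omega⟩ : Fin (2 * k + 1)) = ⟨2, by omega⟩ := by
    apply Fin.ext
    simp [prt]
  have hp2 : prt k (⟨2, by omega⟩ : Fin (2 * k + 1)) = ⟨1, by omega⟩ := by
    apply Fin.ext
    simp [prt]
  have hsk : ∀ i j : Fin (2 * k + 1), JJ k i j = - JJ k j i := by
    intro i j
    have := congrFun (congrFun (JJ_skew (k := k)) j) i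
    rw [Matrix.transpose_apply, Matrix.neg_apply] at this
    exact this
  refine ⟨JJ k, 0, ⟨1, by omega⟩, ⟨2, by omega⟩, ?_, ?_, ?_, ?_, ?_, ?_⟩
  · intro h
    have := congrArg Fin.val h
    simp at this
  · intro h
    have := congrArg Fin.val h
    simp at this
  · intro h
    have := congrArg Fin.val h
    simp at this
  · intro r hr
    have h1 : JJ k ⟨1, by omega⟩ r = 0 := by
      rw [JJ_apply, hp1, if_neg hr]
    exact ⟨h1, by rw [hsk, h1, neg_zero]⟩
  · intro r hr
    have h1 : JJ k ⟨2, by omega⟩ r = 0 := by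
      rw [JJ_apply, hp2, if_neg hr]
    exact ⟨h1, by rw [hsk, h1, neg_zero]⟩
  · intro d _ hd0
    have e1 : JJ k + Matrix.diagonal d - (JJ k + Matrix.diagonal d)ᵀ = (2 : ℂ) • JJ k := by
      rw [Matrix.transpose_add, Matrix.diagonal_transpose, JJ_skew, two_smul]
      abel
    have e2 : JJ k + Matrix.diagonal d + (JJ k + Matrix.diagonal d)ᵀ =
        (2 : ℂ) • Matrix.diagonal d := by
      rw [Matrix.transpose_add, Matrix.diagonal_transpose, JJ_skew, two_smul]
      abel
    unfold Fv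
    rw [e1, e2, Matrix.mul_smul, Matrix.trace_smul, smul_eq_mul]
    have h3 : (((2 : ℂ) • JJ k).adjugate * Matrix.diagonal d).trace =
        ((2 : ℂ) • JJ k).adjugate 0 0 * d 0 := by
      unfold Matrix.trace
      rw [Finset.sum_eq_single 0]
      · rw [Matrix.diag_apply, Matrix.mul_diagonal]
      · intro i _ hi
        rw [Matrix.diag_apply, Matrix.mul_diagonal, adj_row i i (fun h => hi (Fin.ext (by
          rw [h]; rfl))), zero_mul]
      · intro h
        exact absurd (Finset.mem_univ _) h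
    rw [h3]
    exact mul_ne_zero two_ne_zero (mul_ne_zero adj_00 hd0)

end PadDet.Eq
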