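import Pool.Agent.H.MP_d7db32_ag.Eq.L.Cmp

/-!
# MP_d7db32_ag, Eq/L/Exp: reduction to primitive pencils

`exists_prim`: take the smallest `m'` for which there is an expression `Pwe (2 k + 1) m' c' L' M' t` at
all (`Nat.find`). If it is not primitive, there is a good idempotent `y ≠ 1`, of rank less than `m'`
(an idempotent of full rank is `1`); take one of smallest rank, `cmp` gives a contradiction.
-/

set_option autoImplicit false

namespace PadDet.Eq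

open Matrix

variable {k m : ℕ} {c : ℂ} {L : Matrix (Fin m) (Fin m) ℂ}
  {M : Matrix (Fin (2 * k + 1)) (Fin (2 * k + 1)) ℂ →ₗ[ℂ] Matrix (Fin m) (Fin m) ℂ}
  {t : Fin (2 * k + 1) → ℂ}

/-- an idempotent matrix of full rank is the identity -/
private theorem Exp_rank_lt {n : ℕ} {y : Matrix (Fin n) (Fin n) ℂ} (hy : y * y = y) (h1 : y ≠ 1) :
    y.rank < n := by
  have hle : y.rank ≤ n := by
    have h := Matrix.rank_le_card_width y
    rwa [Fintype.card_fin] at h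
  refine lt_of_le_of_ne hle fun he => h1 ?_
  have htop : LinearMap.range y.mulVecLin = ⊤ := by
    apply Submodule.eq_top_of_finrank_eq
    rw [Module.finrank_fin_fun]
    exact he
  have hfix : ∀ v, y *ᵥ v = v := by
    intro v
    have hv : v ∈ LinearMap.range y.mulVecLin := by
      rw [htop]
      exact Submodule.mem_top
    obtain ⟨u, rfl⟩ := hv
    rw [Matrix.mulVecLin_apply, Matrix.mulVec_mulVec, hy]
  refine Matrix.mulVec_injective ?_
  funext v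
  rw [hfix, Matrix.one_mulVec]

theorem exists_prim (h : Pwe (2 * k + 1) m c L M t) :
    ∃ m', m' ≤ m ∧ ∃ (c' : ℂ) (L' : Matrix (Fin m') (Fin m') ℂ)
      (M' : Matrix (Fin (2 * k + 1)) (Fin (2 * k + 1)) ℂ →ₗ[ℂ] Matrix (Fin m') (Fin m') ℂ),
      Pwe (2 * k + 1) m' c' L' M' t ∧ Prim L' M' := by
  classical
  have hex : ∃ m', ∃ (c' : ℂ) (L' : Matrix (Fin m') (Fin m') ℂ)
      (M' : Matrix (Fin (2 * k + 1)) (Fin (2 * k + 1)) ℂ →ₗ[ℂ] Matrix (Fin m') (Fin m') ℂ),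
      Pwe (2 * k + 1) m' c' L' M' t := ⟨m, c, L, M, h⟩
  have hm : Nat.find hex ≤ m := Nat.find_min' hex ⟨c, L, M, h⟩
  have hmin : ∀ m', m' < Nat.find hex → ¬ ∃ (c' : ℂ) (L' : Matrix (Fin m') (Fin m') ℂ)
      (M' : Matrix (Fin (2 * k + 1)) (Fin (2 * k + 1)) ℂ →ₗ[ℂ] Matrix (Fin m') (Fin m') ℂ),
      Pwe (2 * k + 1) m' c' L' M' t := fun m' hm' => Nat.find_min hex hm'
  obtain ⟨c₀, L₀, M₀, h₀⟩ := Nat.find_spec hex
  refine ⟨Nat.find hex, hm, c₀, L₀, M₀, h₀, ?_⟩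
  intro x y hxy hx hy hgood
  by_contra hne
  have hr : ∃ r, ∃ x' y', Gid L₀ M₀ x' y' ∧ y'.rank = r := ⟨_, x, y, ⟨hxy, hx, hy, hgood⟩, rfl⟩
  obtain ⟨x', y', hG, hrk⟩ := Nat.find_spec hr
  have hle : ∀ x'' y'', Gid L₀ M₀ x'' y'' → y'.rank ≤ y''.rank := by
    intro x'' y'' h''
    rw [hrk]
    exact Nat.find_min' hr ⟨x'', y'', h'', rfl⟩
  have hlt : y'.rank < Nat.find hex :=
    (hle x y ⟨hxy, hx, hy, hgood⟩).trans_lt (Exp_rank_lt hy hne)
  exact hmin _ hlt (cmp h₀ hG hle)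

end PadDet.Eq
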