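import Pool.Agent.H.MP_d7db32_ag.Eq.L.Fit

/-!
# MP_d7db32_ag, Eq/L/Fac: compression of a pencil to a good idempotent

`fac`: a basis of the range of `y` (`Module.finBasisOfFinrankEq`, `Matrix.rank`), `U` = its vectors
as columns, `V` = the coordinates of `y v`.
`rank_eq`: with `Λ(X₁)` invertible, `x = Λ(X₁) y Λ(X₁)⁻¹`.
-/

set_option autoImplicit false

namespace PadDet.Eq

open Matrix

variable {n m r : ℕ} {L : Matrix (Fin m) (Fin m) ℂ}
  {M : Matrix (Fin n) (Fin n) ℂ →ₗ[ℂ] Matrix (Fin m) (Fin m) ℂ}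

theorem fac {y : Matrix (Fin m) (Fin m) ℂ} (hy : y * y = y) (hr : y.rank = r) :
    ∃ (U : Matrix (Fin m) (Fin r) ℂ) (V : Matrix (Fin r) (Fin m) ℂ), V * U = 1 ∧ U * V = y := by
  have hr' : Module.finrank ℂ (LinearMap.range y.mulVecLin) = r := hr
  obtain ⟨b⟩ : Nonempty (Module.Basis (Fin r) ℂ (LinearMap.range y.mulVecLin)) :=
    ⟨Module.finBasisOfFinrankEq ℂ _ hr'⟩
  let p : (Fin m → ℂ) →ₗ[ℂ] (LinearMap.range y.mulVecLin) := y.mulVecLin.rangeRestrict
  let f : (Fin m → ℂ) →ₗ[ℂ] (Fin r → ℂ) := b.equivFun.toLinearMap ∘ₗ p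
  let g : (Fin r → ℂ) →ₗ[ℂ] (Fin m → ℂ) :=
    (LinearMap.range y.mulVecLin).subtype ∘ₗ b.equivFun.symm.toLinearMap
  have hgf : g ∘ₗ f = y.mulVecLin := by
    refine LinearMap.ext fun v => ?_
    show ((b.equivFun.symm (b.equivFun (p v)) : LinearMap.range y.mulVecLin) : Fin m → ℂ) =
      y.mulVecLin v
    rw [LinearEquiv.symm_apply_apply]
    rfl
  have hp : ∀ w : LinearMap.range y.mulVecLin, p (w : Fin m → ℂ) = w := by
    rintro ⟨_, v, rfl⟩
    apply Subtype.ext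
    show y *ᵥ (y *ᵥ v) = y *ᵥ v
    rw [Matrix.mulVec_mulVec, hy]
  have hfg : f ∘ₗ g = LinearMap.id := by
    refine LinearMap.ext fun v => ?_
    show b.equivFun (p ((b.equivFun.symm v : LinearMap.range y.mulVecLin) : Fin m → ℂ)) = v
    rw [hp, LinearEquiv.apply_symm_apply]
  refine ⟨LinearMap.toMatrix' g, LinearMap.toMatrix' f, ?_, ?_⟩
  · rw [← LinearMap.toMatrix'_comp, hfg, LinearMap.toMatrix'_id]
  · rw [← LinearMap.toMatrix'_comp, hgf]
    exact LinearMap.toMatrix'_toLin' y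

theorem rank_eq {x y : Matrix (Fin m) (Fin m) ℂ} (h : Mor L M id x y)
    (hX : ∃ X, (L + M X).det ≠ 0) : x.rank = y.rank := by
  obtain ⟨X, hX⟩ := hX
  have h1 := h X
  have hu : IsUnit (L + M X).det := hX.isUnit
  have h2 : (x * (L + M X)).rank = ((L + M X) * y).rank := by
    rw [h1]; rfl
  rw [Matrix.rank_mul_eq_left_of_isUnit_det _ _ hu,
    Matrix.rank_mul_eq_right_of_isUnit_det _ _ hu] at h2
  exact h2

end PadDet.Eq
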