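import Pool.Agent.H.MP_d7db32_ag.Eq.L.Bas

/-!
# MP_d7db32_ag, Eq/L/Pol: functions which are polynomial on lines

`lpoly_det`: the matrix with entries `C (P i j + N P' i j) + X * C (N Q' i j)` over `ℂ[X]`, its
determinant (`RingHom.map_det` / `Polynomial.eval` on entries).
`lpoly_const`: a polynomial without roots is constant (`Complex.exists_root` or
`IsAlgClosed.exists_root`); line `0 + s • X`.
`lpoly_dense`: on the line from `X` to `X₁` both sides are polynomials, equal outside of the finitely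
many roots of the polynomial of `E`.
`Fv_line`: from the definition of `Fv`. `Fv_diag`: `(A + E_ii) - (A + E_ii)ᵀ = 2 A`,
`(A + E_ii) + (A + E_ii)ᵀ = 2 E_ii`; the entry `i i` of the adjugate is the determinant of the matrix
without row and column `i` up to form (`Matrix.adjugate_apply`: determinant of `updateRow`/`updateCol`), so it does not
change when the row and the column `i` are changed (use `updateRow` and `updateCol` forms, or
`Matrix.adjugate_fin_succ_eq_det_submatrix`).
-/

set_option autoImplicit false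

namespace PadDet.Eq

open Matrix

/-- Polynomial on every line. -/
def LPoly {n : ℕ} (G : Matrix (Fin n) (Fin n) ℂ → ℂ) : Prop :=
  ∀ P Q : Matrix (Fin n) (Fin n) ℂ, ∃ p : Polynomial ℂ, ∀ s : ℂ, G (P + s • Q) = p.eval s

theorem lpoly_det {n m : ℕ} (P : Matrix (Fin m) (Fin m) ℂ)
    (N : Matrix (Fin n) (Fin n) ℂ →ₗ[ℂ] Matrix (Fin m) (Fin m) ℂ) :
    LPoly fun X => (P + N X).det := by
  intro R Q
  refine ⟨(Matrix.of fun i j => Polynomial.C (P i j + N R i j) + Polynomial.X *
    Polynomial.C (N Q i j) : Matrix (Fin m) (Fin m) (Polynomial ℂ)).det, fun s => ?_⟩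
  have h1 := RingHom.map_det (Polynomial.evalRingHom s)
    (Matrix.of fun i j => Polynomial.C (P i j + N R i j) + Polynomial.X *
      Polynomial.C (N Q i j) : Matrix (Fin m) (Fin m) (Polynomial ℂ))
  rw [Polynomial.coe_evalRingHom] at h1
  rw [h1]
  show (P + N (R + s • Q)).det = _
  congr 1
  ext i j
  rw [map_add, map_smul]
  simp only [Matrix.add_apply, Matrix.smul_apply, smul_eq_mul, RingHom.mapMatrix_apply,
    Matrix.map_apply, Matrix.of_apply, Polynomial.coe_evalRingHom, Polynomial.eval_add,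
    Polynomial.eval_mul, Polynomial.eval_C, Polynomial.eval_X]
  ring

theorem lpoly_mul {n : ℕ} {G K : Matrix (Fin n) (Fin n) ℂ → ℂ} (hG : LPoly G) (hK : LPoly K) :
    LPoly fun X => G X * K X := by
  intro P Q
  obtain ⟨p, hp⟩ := hG P Q
  obtain ⟨q, hq⟩ := hK P Q
  exact ⟨p * q, fun s => by rw [Polynomial.eval_mul, ← hp, ← hq]⟩

theorem lpoly_const {n : ℕ} {G : Matrix (Fin n) (Fin n) ℂ → ℂ} (hG : LPoly G)
    (h0 : ∀ X, G X ≠ 0) (X : Matrix (Fin n) (Fin n) ℂ) : G X = G 0 := by
  obtain ⟨p, hp⟩ := hG 0 X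
  have hd : p.degree = 0 := by
    by_contra hd
    obtain ⟨s, hs⟩ := IsAlgClosed.exists_root p hd
    exact h0 _ ((hp s).trans hs)
  have h1 := hp 1
  have h2 := hp 0
  rw [Polynomial.eq_C_of_degree_eq_zero hd, Polynomial.eval_C] at h1 h2
  rw [one_smul, zero_add] at h1
  rw [zero_smul, zero_add] at h2
  rw [h1, h2]

/-- An identity which holds outside of the zeros of `E` holds everywhere. -/
theorem lpoly_dense {n : ℕ} {G K E : Matrix (Fin n) (Fin n) ℂ → ℂ} (hG : LPoly G) (hK : LPoly K)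
    (hE : LPoly E) {X₁ : Matrix (Fin n) (Fin n) ℂ} (hX : E X₁ ≠ 0)
    (h : ∀ X, E X ≠ 0 → G X = K X) (X : Matrix (Fin n) (Fin n) ℂ) : G X = K X := by
  obtain ⟨g, hg⟩ := hG X (X₁ - X)
  obtain ⟨k, hk⟩ := hK X (X₁ - X)
  obtain ⟨e, he⟩ := hE X (X₁ - X)
  have he0 : e ≠ 0 := by
    rintro rfl
    have h1 := he 1
    rw [one_smul, add_sub_cancel, Polynomial.eval_zero] at h1
    exact hX h1
  have h2 : (g - k) * e = 0 := by
    apply Polynomial.funext
    intro s
    rw [Polynomial.eval_mul, Polynomial.eval_sub, Polynomial.eval_zero, ← hg, ← hk, ← he]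
    by_cases hs : E (X + s • (X₁ - X)) = 0
    · rw [hs, mul_zero]
    · rw [h _ hs, sub_self, zero_mul]
  have h3 : g = k := by
    rcases mul_eq_zero.1 h2 with h3 | h3
    · exact sub_eq_zero.1 h3
    · exact absurd h3 he0
  have h4 := hg 0
  have h5 := hk 0
  rw [zero_smul, add_zero] at h4 h5
  rw [h4, h5, h3]

private theorem Pol_skew {n : ℕ} {A Y : Matrix (Fin n) (Fin n) ℂ} (hA : Aᵀ = -A) (hY : Yᵀ = Y) :
    Fv (A + Y) = (((2 : ℂ) • A).adjugate * ((2 : ℂ) • Y)).trace := by
  unfold Fv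
  rw [Matrix.transpose_add, hA, hY]
  congr 3
  · rw [two_smul]; abel
  · rw [two_smul]; abel

private theorem Pol_adj {n : ℕ} {B B' : Matrix (Fin n) (Fin n) ℂ} {i : Fin n}
    (h : ∀ a b, a ≠ i → b ≠ i → B a b = B' a b) : B.adjugate i i = B'.adjugate i i := by
  have h1 : ∀ C C' : Matrix (Fin n) (Fin n) ℂ, (∀ a b, a ≠ i → C a b = C' a b) →
      C.adjugate i i = C'.adjugate i i := by
    intro C C' hC
    rw [Matrix.adjugate_apply, Matrix.adjugate_apply]
    congr 1
    ext a b
    by_cases ha : a = i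
    · rw [ha, Matrix.updateRow_self, Matrix.updateRow_self]
    · rw [Matrix.updateRow_ne ha, Matrix.updateRow_ne ha, hC a b ha]
  have h2 : ∀ C C' : Matrix (Fin n) (Fin n) ℂ, (∀ a b, b ≠ i → C a b = C' a b) →
      C.adjugate i i = C'.adjugate i i := by
    intro C C' hC
    have h3 := h1 Cᵀ C'ᵀ fun a b ha => hC b a ha
    rw [← Matrix.adjugate_transpose, ← Matrix.adjugate_transpose] at h3
    exact h3
  let D : Matrix (Fin n) (Fin n) ℂ := Matrix.of fun a b => if a = i then B' a b else B a b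
  have e1 : B.adjugate i i = D.adjugate i i := h1 B D fun a b ha => by
    show B a b = if a = i then B' a b else B a b
    rw [if_neg ha]
  have e2 : D.adjugate i i = B'.adjugate i i := h2 D B' fun a b hb => by
    show (if a = i then B' a b else B a b) = B' a b
    by_cases ha : a = i
    · rw [if_pos ha]
    · rw [if_neg ha, h a b ha hb]
  rw [e1, e2]

theorem Fv_line {n : ℕ} {A Y : Matrix (Fin n) (Fin n) ℂ} (hA : Aᵀ = -A) (hY : Yᵀ = Y) (s : ℂ) :
    Fv (A + s • Y) = s * Fv (A + Y) := by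
  rw [Pol_skew hA hY, Pol_skew hA (by rw [Matrix.transpose_smul, hY]), smul_comm, Matrix.mul_smul,
    Matrix.trace_smul, smul_eq_mul]

/-- The coefficient of the diagonal entry `i` does not depend on the row and the column `i`. -/
theorem Fv_diag {n : ℕ} {A A' : Matrix (Fin n) (Fin n) ℂ} (hA : Aᵀ = -A) (hA' : A'ᵀ = -A')
    {i : Fin n} (h : ∀ a b, a ≠ i → b ≠ i → A a b = A' a b) :
    Fv (A + Matrix.single i i 1) = Fv (A' + Matrix.single i i 1) := by
  have hE : (Matrix.single i i (1 : ℂ))ᵀ = Matrix.single i i 1 := Matrix.transpose_single i i 1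
  have h1 : ∀ B : Matrix (Fin n) (Fin n) ℂ, (B * ((2 : ℂ) • Matrix.single i i 1)).trace =
      2 * B i i := by
    intro B
    rw [Matrix.mul_smul, Matrix.trace_smul, smul_eq_mul, Matrix.trace_mul_single]
    congr 1
    exact one_smul _ _
  rw [Pol_skew hA hE, Pol_skew hA' hE, h1, h1]
  congr 1
  refine Pol_adj fun a b ha hb => ?_
  rw [Matrix.smul_apply, Matrix.smul_apply, h a b ha hb]

end PadDet.Eq
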