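import Pool.Agent.H.MP_d7db32_ag.Eq.L.Fac
import Pool.Agent.H.MP_d7db32_ag.Eq.L.Pol

/-!
# MP_d7db32_ag, Eq/L/Fdt: the determinant of the compressed pencil

`fac_det`: `Λ₁(X) = V' Λ(X) U`, fix `X₁` with `Λ(X₁)` invertible. `G X = det (Λ(X) y + Λ(X₁) (1 - y))`,
`K X = det (Λ(X₁) y + Λ(X) (1 - y))`; `G X * K X = det Λ(X₁) * det Λ(X)` (see the header of Spl:
`(Λ(X) y + Λ(X₁) (1 - y)) Λ(X₁)⁻¹ (Λ(X₁) y + Λ(X) (1 - y)) = Λ(X)`). `K X ≠ 0` for all `X`: a kernel vector `v`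
of `Λ(X₁) y + Λ(X) (1 - y)` satisfies `Λ(X₁) y v = 0` (multiply with `x`) and `Λ(X) (1 - y) v = 0`, so
`y v = 0` and `(1 - y) v` is fixed by `y`, so `(1 - y) v = 0`. So `K` is constant (`lpoly_const`, `lpoly_det`).
`G X = det Λ(X₁) * det (1 + U (V N U - 1) V)` with `N = Λ(X₁)⁻¹ Λ(X)`
(`N y = y N`), `= det Λ(X₁) * det (V N U)` (`Matrix.det_one_add_mul_comm`, `V U = 1`), and
`V N U = (V Λ(X₁)⁻¹ U') (V' Λ(X) U)`, where the first factor is invertible (put `X = X₁`).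
-/

set_option autoImplicit false

namespace PadDet.Eq

open Matrix

variable {n m r : ℕ} {L : Matrix (Fin m) (Fin m) ℂ}
  {M : Matrix (Fin n) (Fin n) ℂ →ₗ[ℂ] Matrix (Fin m) (Fin m) ℂ}

private theorem Fdt_mul {y N : Matrix (Fin m) (Fin m) ℂ} (hy : y * y = y) (hN : N * y = y * N) :
    (N * y + (1 - y)) * (y + N * (1 - y)) = N := by
  have a1 : (1 - y) * y = 0 := by rw [Matrix.sub_mul, Matrix.one_mul, hy, sub_self]
  have a2 : y * (1 - y) = 0 := by rw [Matrix.mul_sub, Matrix.mul_one, hy, sub_self]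
  have a3 : (1 - y) * (1 - y) = 1 - y := by
    rw [Matrix.sub_mul, Matrix.one_mul, a2, sub_zero]
  have a4 : (1 - y) * N = N * (1 - y) := by
    rw [Matrix.sub_mul, Matrix.mul_sub, Matrix.one_mul, Matrix.mul_one, hN]
  have b1 : N * y * y = N * y := by rw [Matrix.mul_assoc, hy]
  have b2 : N * y * (N * (1 - y)) = 0 := by
    calc N * y * (N * (1 - y)) = N * (y * N) * (1 - y) := by simp only [Matrix.mul_assoc]
      _ = N * (N * y) * (1 - y) := by rw [hN]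
      _ = N * N * (y * (1 - y)) := by simp only [Matrix.mul_assoc]
      _ = 0 := by rw [a2, Matrix.mul_zero]
  have b3 : (1 - y) * (N * (1 - y)) = N * (1 - y) := by
    rw [← Matrix.mul_assoc, a4, Matrix.mul_assoc, a3]
  rw [Matrix.add_mul, Matrix.mul_add, Matrix.mul_add, b1, b2, a1, b3, add_zero, zero_add,
    ← Matrix.mul_add, add_sub_cancel, Matrix.mul_one]

private theorem Fdt_one {y N : Matrix (Fin m) (Fin m) ℂ} {U : Matrix (Fin m) (Fin r) ℂ}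
    {V : Matrix (Fin r) (Fin m) ℂ} (h1 : V * U = 1) (h2 : U * V = y) :
    (N * y + (1 - y)).det = (V * N * U).det := by
  have e : N * y + (1 - y) = 1 + ((N - 1) * U) * V := by
    rw [Matrix.mul_assoc, h2, Matrix.sub_mul, Matrix.one_mul]
    abel
  rw [e, Matrix.det_one_add_mul_comm]
  congr 1
  rw [Matrix.sub_mul, Matrix.mul_sub, Matrix.one_mul, h1, ← Matrix.mul_assoc]
  abel

theorem fac_det {x y : Matrix (Fin m) (Fin m) ℂ} (h : Gid L M x y)
    (hX : ∃ X, (L + M X).det ≠ 0) {U : Matrix (Fin m) (Fin r) ℂ} {V : Matrix (Fin r) (Fin m) ℂ}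
    (h1 : V * U = 1) (h2 : U * V = y) {U' : Matrix (Fin m) (Fin r) ℂ}
    {V' : Matrix (Fin r) (Fin m) ℂ} (h1' : V' * U' = 1) (h2' : U' * V' = x) :
    ∃ c : ℂ, c ≠ 0 ∧ ∀ X, (V' * (L + M X) * U).det = c * (L + M X).det := by
  obtain ⟨X₁, hX₁⟩ := hX
  obtain ⟨A, hA⟩ : ∃ A, A = L + M X₁ := ⟨_, rfl⟩
  rw [← hA] at hX₁
  have hu : IsUnit A.det := isUnit_iff_ne_zero.2 hX₁
  have hinv : A⁻¹ * A = 1 := Matrix.nonsing_inv_mul _ hu
  have hinv' : A * A⁻¹ = 1 := Matrix.mul_nonsing_inv _ hu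
  have hm : ∀ X, x * (L + M X) = (L + M X) * y := fun X => h.mor X
  have hmA : x * A = A * y := by rw [hA]; exact hm X₁
  have hxy : A⁻¹ * x = y * A⁻¹ := by
    calc A⁻¹ * x = A⁻¹ * (x * A) * A⁻¹ := by
          rw [Matrix.mul_assoc, Matrix.mul_assoc, hinv', Matrix.mul_one]
      _ = A⁻¹ * (A * y) * A⁻¹ := by rw [hmA]
      _ = y * A⁻¹ := by rw [← Matrix.mul_assoc, hinv, Matrix.one_mul]
  have hN : ∀ X, A⁻¹ * (L + M X) * y = y * (A⁻¹ * (L + M X)) := fun X => by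
    rw [Matrix.mul_assoc, ← hm X, ← Matrix.mul_assoc, hxy, Matrix.mul_assoc]
  have hdet : ∀ X, (L + M X).det = A.det * ((V * (A⁻¹ * (L + M X)) * U).det *
      (y + A⁻¹ * (L + M X) * (1 - y)).det) := by
    intro X
    have e1 : L + M X = A * ((A⁻¹ * (L + M X) * y + (1 - y)) *
        (y + A⁻¹ * (L + M X) * (1 - y))) := by
      rw [Fdt_mul h.iy (hN X), ← Matrix.mul_assoc, hinv', Matrix.one_mul]
    conv_lhs => rw [e1]
    rw [Matrix.det_mul, Matrix.det_mul, Fdt_one h1 h2]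
  have hVN : ∀ X, V * (A⁻¹ * (L + M X)) * U = (V * A⁻¹ * U') * (V' * (L + M X) * U) := by
    intro X
    calc V * (A⁻¹ * (L + M X)) * U = V * (A⁻¹ * (L + M X)) * (U * (V * U)) := by
          rw [h1, Matrix.mul_one]
      _ = V * (A⁻¹ * (L + M X) * (U * V)) * U := by simp only [Matrix.mul_assoc]
      _ = V * (A⁻¹ * (L + M X) * y) * U := by rw [h2]
      _ = V * (A⁻¹ * (x * (L + M X))) * U := by rw [hm X]; simp only [Matrix.mul_assoc]
      _ = V * (A⁻¹ * (U' * V' * (L + M X))) * U := by rw [h2']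
      _ = (V * A⁻¹ * U') * (V' * (L + M X) * U) := by simp only [Matrix.mul_assoc]
  obtain ⟨a, ha⟩ : ∃ a, a = (V * A⁻¹ * U').det := ⟨_, rfl⟩
  have ha0 : a ≠ 0 := by
    have h3 := congrArg Matrix.det (hVN X₁)
    rw [← hA, hinv, Matrix.mul_one, h1, Matrix.det_one, Matrix.det_mul, ← ha] at h3
    intro h4
    rw [h4, zero_mul] at h3
    exact one_ne_zero h3
  have hk0 : ∀ X, (y + A⁻¹ * (L + M X) * (1 - y)).det ≠ 0 := by
    intro X h0
    obtain ⟨v, hv0, hv⟩ := Matrix.exists_mulVec_eq_zero_iff.2 h0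
    have a2 : y * (1 - y) = 0 := by rw [Matrix.mul_sub, Matrix.mul_one, h.iy, sub_self]
    have e1 : y * (y + A⁻¹ * (L + M X) * (1 - y)) = y := by
      rw [Matrix.mul_add, h.iy, ← Matrix.mul_assoc y, ← hN X, Matrix.mul_assoc _ y, a2,
        Matrix.mul_zero, add_zero]
    have hy0 : y *ᵥ v = 0 := by
      rw [← e1, ← Matrix.mulVec_mulVec, hv, Matrix.mulVec_zero]
    have e2 : (L + M X) *ᵥ v = 0 := by
      have e3 : (1 - y) *ᵥ v = v := by rw [Matrix.sub_mulVec, Matrix.one_mulVec, hy0, sub_zero]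
      rw [Matrix.add_mulVec, hy0, zero_add, ← Matrix.mulVec_mulVec, e3] at hv
      have e4 := congrArg (fun u => A *ᵥ u) hv
      simp only [Matrix.mulVec_mulVec, Matrix.mulVec_zero] at e4
      rwa [← Matrix.mul_assoc, hinv', Matrix.one_mul] at e4
    have e5 := h.good X v e2
    rw [hy0] at e5
    exact hv0 e5.symm
  have hkp : LPoly fun X : Matrix (Fin n) (Fin n) ℂ =>
      (y + A⁻¹ * (L + M X) * (1 - y)).det := by
    have h3 := lpoly_det (y + A⁻¹ * L * (1 - y))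
      ((LinearMap.mulRight ℂ (1 - y)) ∘ₗ (LinearMap.mulLeft ℂ A⁻¹) ∘ₗ M)
    have h4 : (fun X : Matrix (Fin n) (Fin n) ℂ => (y + A⁻¹ * (L + M X) * (1 - y)).det) =
        fun X => (y + A⁻¹ * L * (1 - y) +
          ((LinearMap.mulRight ℂ (1 - y)) ∘ₗ (LinearMap.mulLeft ℂ A⁻¹) ∘ₗ M) X).det := by
      funext X
      congr 1
      rw [LinearMap.comp_apply, LinearMap.comp_apply, LinearMap.mulLeft_apply,
        LinearMap.mulRight_apply, Matrix.mul_add, Matrix.add_mul, add_assoc]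
    rw [h4]
    exact h3
  have hkc := lpoly_const hkp hk0
  obtain ⟨κ, hκ⟩ : ∃ κ, κ = (y + A⁻¹ * (L + M 0) * (1 - y)).det := ⟨_, rfl⟩
  have hκ0 : κ ≠ 0 := by rw [hκ]; exact hk0 0
  have hne : A.det * (a * κ) ≠ 0 := mul_ne_zero hX₁ (mul_ne_zero ha0 hκ0)
  refine ⟨(A.det * (a * κ))⁻¹, inv_ne_zero hne, fun X => ?_⟩
  have h5 : (y + A⁻¹ * (L + M X) * (1 - y)).det = κ := by rw [hκ]; exact hkc X
  rw [hdet X, hVN X, Matrix.det_mul, ← ha, h5, eq_inv_mul_iff_mul_eq₀ hne]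
  ring

end PadDet.Eq
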