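import Pool.Agent.H.MP_d7db32_ag.Eq.L.Bas
import Pool.Agent.H.MP_d7db32_ag.Eq.L.EigX

/-!
# MP_d7db32_ag, Eq/L/Fit: good idempotents of minimal rank

`(x, y)` a good idempotent endomorphism with the smallest rank of `y`; `(A, B)` an invertible
morphism over `g`. Then `y' = B⁻¹ y B`, `x' = A⁻¹ x A` is again a good idempotent endomorphism
(`Λ(g X) = A Λ(X) B⁻¹`; `v` in the kernel of `Λ(X)` gives `B v` in the kernel of `Λ(g X)`).
Let `z = y y' y`, `z' = x x' x`, an endomorphism (`Mor L M id z' z`); `z v = v` for all kernel vectors.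
`exists_eig` for `z` and `z'`: `y'' = S diagonal(β a ≠ 0) S'`, `x'' = T diagonal(α b ≠ 0) T'`: an
idempotent endomorphism (`mor_id`, `eig_mor` with factor `1`), good (`only` with `μ = 1`, `k = 1`). Every column `a` of
`S` with `β a ≠ 0` is in the range of `z`, so of `y` (`(z - β) ^ m s = 0` gives `(- β) ^ m s` in the
range of `z`), hence `y y'' = y''`, the range of `y''` is contained in the one of `y`, and by
minimality of the rank they are equal. If `y v = v` and `y (B v) = 0` then `y' v = B⁻¹ y B v = 0`, so `z v = 0`,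
so by `only` (`μ = 0`) `S' v` has only coordinates `a` with `β a = 0`, i.e. `y'' v = 0`; but `v` is in
the range of `y`, which is the range of `y''`, so `v = y'' v = 0`.
-/

set_option autoImplicit false

namespace PadDet.Eq

open Matrix

variable {n m : ℕ} {L : Matrix (Fin m) (Fin m) ℂ}
  {M : Matrix (Fin n) (Fin n) ℂ →ₗ[ℂ] Matrix (Fin m) (Fin m) ℂ}

/-- `(x, y)` is a good idempotent endomorphism. -/
structure Gid (L : Matrix (Fin m) (Fin m) ℂ)
    (M : Matrix (Fin n) (Fin n) ℂ →ₗ[ℂ] Matrix (Fin m) (Fin m) ℂ)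
    (x y : Matrix (Fin m) (Fin m) ℂ) : Prop where
  mor : Mor L M id x y
  ix : x * x = x
  iy : y * y = y
  good : Good L M y

theorem gid_conj {x y : Matrix (Fin m) (Fin m) ℂ} (h : Gid L M x y)
    {g : Matrix (Fin n) (Fin n) ℂ → Matrix (Fin n) (Fin n) ℂ} {A B : Matrix (Fin m) (Fin m) ℂ}
    (hA : A.det ≠ 0) (hB : B.det ≠ 0) (hAB : Mor L M g A B) :
    Gid L M (A⁻¹ * x * A) (B⁻¹ * y * B) := by
  have uA : IsUnit A.det := isUnit_iff_ne_zero.2 hA
  have uB : IsUnit B.det := isUnit_iff_ne_zero.2 hB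
  have a1 : A * A⁻¹ = 1 := Matrix.mul_nonsing_inv A uA
  have a2 : A⁻¹ * A = 1 := Matrix.nonsing_inv_mul A uA
  have b1 : B * B⁻¹ = 1 := Matrix.mul_nonsing_inv B uB
  have b2 : B⁻¹ * B = 1 := Matrix.nonsing_inv_mul B uB
  refine ⟨fun X => ?_, ?_, ?_, fun X v hv => ?_⟩
  · have h1 := hAB X
    have h2 := h.mor (g X)
    have e2 : M (id (g X)) = M (g X) := rfl
    rw [e2] at h2
    show A⁻¹ * x * A * (L + M X) = (L + M X) * (B⁻¹ * y * B)
    have h3 : L + M X = A⁻¹ * (L + M (g X)) * B := by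
      rw [Matrix.mul_assoc, ← h1, ← Matrix.mul_assoc, a2, Matrix.one_mul]
    calc A⁻¹ * x * A * (L + M X) = A⁻¹ * (x * (A * (L + M X))) := by
          simp only [Matrix.mul_assoc]
      _ = A⁻¹ * (x * (L + M (g X))) * B := by rw [h1]; simp only [Matrix.mul_assoc]
      _ = A⁻¹ * (L + M (g X)) * (y * B) := by rw [h2]; simp only [Matrix.mul_assoc]
      _ = A⁻¹ * (L + M (g X)) * ((B * B⁻¹) * (y * B)) := by rw [b1, Matrix.one_mul]
      _ = (A⁻¹ * (L + M (g X)) * B) * (B⁻¹ * y * B) := by simp only [Matrix.mul_assoc]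
      _ = (L + M X) * (B⁻¹ * y * B) := by rw [← h3]
  · calc A⁻¹ * x * A * (A⁻¹ * x * A) = A⁻¹ * x * (A * A⁻¹) * x * A := by
          simp only [Matrix.mul_assoc]
      _ = A⁻¹ * (x * x) * A := by rw [a1]; simp only [Matrix.mul_assoc, Matrix.one_mul]
      _ = A⁻¹ * x * A := by rw [h.ix]
  · calc B⁻¹ * y * B * (B⁻¹ * y * B) = B⁻¹ * y * (B * B⁻¹) * y * B := by
          simp only [Matrix.mul_assoc]
      _ = B⁻¹ * (y * y) * B := by rw [b1]; simp only [Matrix.mul_assoc, Matrix.one_mul]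
      _ = B⁻¹ * y * B := by rw [h.iy]
  · have h1 : (L + M (g X)) *ᵥ (B *ᵥ v) = 0 := by
      rw [Matrix.mulVec_mulVec, ← hAB X, ← Matrix.mulVec_mulVec, hv, Matrix.mulVec_zero]
    have h2 := h.good (g X) _ h1
    rw [← Matrix.mulVec_mulVec, ← Matrix.mulVec_mulVec, h2, Matrix.mulVec_mulVec, b2,
      Matrix.one_mulVec]

/-- The projection onto the generalized eigenspaces with nonzero eigenvalues. -/
private noncomputable def fitE (S S' : Matrix (Fin m) (Fin m) ℂ) (β : Fin m → ℂ) :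
    Matrix (Fin m) (Fin m) ℂ :=
  S * Matrix.diagonal (fun a => if β a = 0 then (0 : ℂ) else 1) * S'

private theorem fitE_idem {S S' : Matrix (Fin m) (Fin m) ℂ} {β : Fin m → ℂ} (h : S' * S = 1) :
    fitE S S' β * fitE S S' β = fitE S S' β := by
  have h1 : Matrix.diagonal (fun a => if β a = 0 then (0 : ℂ) else 1) *
      Matrix.diagonal (fun a => if β a = 0 then (0 : ℂ) else 1) =
      Matrix.diagonal (fun a => if β a = 0 then (0 : ℂ) else 1) := by
    rw [Matrix.diagonal_mul_diagonal]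
    congr 1
    funext a
    split_ifs <;> simp
  unfold fitE
  obtain ⟨D, hD⟩ : ∃ D, D = Matrix.diagonal (fun a => if β a = 0 then (0 : ℂ) else 1) := ⟨_, rfl⟩
  rw [← hD] at h1 ⊢
  calc S * D * S' * (S * D * S') = S * D * (S' * S) * D * S' := by simp only [Matrix.mul_assoc]
    _ = S * (D * D) * S' := by rw [h]; simp only [Matrix.mul_assoc, Matrix.one_mul]
    _ = S * D * S' := by rw [h1]

private theorem fitE_mor {x y N S S' T T' : Matrix (Fin m) (Fin m) ℂ} {β α : Fin m → ℂ}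
    (h : x * N = N * y) (EC : Eig y S S' β) (ED : Eig x T T' α) :
    fitE T T' α * N = N * fitE S S' β := by
  obtain ⟨R, hR⟩ : ∃ R, R = T' * N * S := ⟨_, rfl⟩
  have h1 : ∀ b a, R b a ≠ 0 → α b = β a := by
    intro b a hba
    rw [hR] at hba
    have h2 := eig_mor (z := 1) (by rw [one_smul]; exact h) EC ED b a hba
    rwa [one_mul] at h2
  have h2 : Matrix.diagonal (fun b => if α b = 0 then (0 : ℂ) else 1) * R =
      R * Matrix.diagonal (fun a => if β a = 0 then (0 : ℂ) else 1) := by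
    ext b a
    rw [Matrix.diagonal_mul, Matrix.mul_diagonal]
    by_cases h0 : R b a = 0
    · rw [h0, mul_zero, zero_mul]
    · rw [h1 b a h0, mul_comm]
  have h3 : T * R * S' = N := by
    rw [hR]
    calc T * (T' * N * S) * S' = (T * T') * N * (S * S') := by simp only [Matrix.mul_assoc]
      _ = N := by rw [ED.inv', EC.inv', Matrix.one_mul, Matrix.mul_one]
  unfold fitE
  obtain ⟨D, hD⟩ : ∃ D, D = Matrix.diagonal (fun a => if β a = 0 then (0 : ℂ) else 1) := ⟨_, rfl⟩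
  obtain ⟨D', hD'⟩ : ∃ D, D = Matrix.diagonal (fun b => if α b = 0 then (0 : ℂ) else 1) :=
    ⟨_, rfl⟩
  rw [← hD, ← hD'] at h2
  rw [← hD, ← hD']
  calc T * D' * T' * N = T * D' * T' * (T * R * S') := by rw [h3]
    _ = T * D' * (T' * T) * R * S' := by simp only [Matrix.mul_assoc]
    _ = T * (D' * R) * S' := by rw [ED.inv]; simp only [Matrix.mul_assoc, Matrix.one_mul]
    _ = T * (R * D) * S' := by rw [h2]
    _ = T * R * (S' * S) * D * S' := by
        rw [EC.inv]; simp only [Matrix.mul_assoc, Matrix.one_mul]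
    _ = (T * R * S') * (S * D * S') := by simp only [Matrix.mul_assoc]
    _ = N * (S * D * S') := by rw [h3]

private theorem fitE_one {y S S' : Matrix (Fin m) (Fin m) ℂ} {β : Fin m → ℂ}
    (EC : Eig y S S' β) {v : Fin m → ℂ} (hv : y *ᵥ v = v) : fitE S S' β *ᵥ v = v := by
  have h1 : ((y - Matrix.diagonal fun _ => (1 : ℂ)) ^ 1) *ᵥ v = 0 := by
    rw [pow_one, Matrix.sub_mulVec, hv, Matrix.diagonal_one, Matrix.one_mulVec, sub_self]
  have h2 := EC.only 1 1 v h1
  have h3 : Matrix.diagonal (fun a => if β a = 0 then (0 : ℂ) else 1) *ᵥ (S' *ᵥ v) = S' *ᵥ v := by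
    funext a
    rw [Matrix.mulVec_diagonal]
    by_cases h0 : (S' *ᵥ v) a = 0
    · rw [h0, mul_zero]
    · rw [h2 a h0, if_neg one_ne_zero, one_mul]
  unfold fitE
  rw [← Matrix.mulVec_mulVec, ← Matrix.mulVec_mulVec, h3, Matrix.mulVec_mulVec, EC.inv',
    Matrix.one_mulVec]

private theorem fitE_zero {y S S' : Matrix (Fin m) (Fin m) ℂ} {β : Fin m → ℂ}
    (EC : Eig y S S' β) {v : Fin m → ℂ} (hv : y *ᵥ v = 0) : fitE S S' β *ᵥ v = 0 := by
  have h1 : ((y - Matrix.diagonal fun _ => (0 : ℂ)) ^ 1) *ᵥ v = 0 := by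
    rw [pow_one, Matrix.sub_mulVec, hv, Matrix.diagonal_zero, Matrix.zero_mulVec, sub_self]
  have h2 := EC.only 0 1 v h1
  have h3 : Matrix.diagonal (fun a => if β a = 0 then (0 : ℂ) else 1) *ᵥ (S' *ᵥ v) = 0 := by
    funext a
    rw [Matrix.mulVec_diagonal]
    by_cases h0 : (S' *ᵥ v) a = 0
    · rw [h0, mul_zero]
      rfl
    · rw [h2 a h0, if_pos rfl, zero_mul]
      rfl
  unfold fitE
  rw [← Matrix.mulVec_mulVec, ← Matrix.mulVec_mulVec, h3, Matrix.mulVec_zero]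

/-- `y` fixes the generalized eigenvectors of `z` with nonzero eigenvalue, when `y z = z`. -/
private theorem fit_fix {y z : Matrix (Fin m) (Fin m) ℂ} (h : y * z = z) {μ : ℂ} (hμ : μ ≠ 0)
    (k : ℕ) {s : Fin m → ℂ} (hs : ((z - Matrix.diagonal fun _ => μ) ^ k) *ᵥ s = 0) :
    y *ᵥ s = s := by
  have hd : (Matrix.diagonal fun _ : Fin m => μ) = μ • (1 : Matrix (Fin m) (Fin m) ℂ) := by
    rw [Matrix.smul_one_eq_diagonal]
  rw [hd] at hs
  have h1 : ∀ k : ℕ, (1 - y) * (z - μ • (1 : Matrix (Fin m) (Fin m) ℂ)) ^ k =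
      (-μ) ^ k • (1 - y) := by
    intro k
    induction k with
    | zero => rw [pow_zero, pow_zero, Matrix.mul_one, one_smul]
    | succ k ih =>
      rw [pow_succ, ← Matrix.mul_assoc, ih, Matrix.smul_mul, Matrix.mul_sub, Matrix.sub_mul, h,
        Matrix.one_mul, sub_self, Matrix.mul_smul, Matrix.mul_one, zero_sub, ← neg_smul,
        smul_smul, pow_succ]
  have h2 : ((-μ) ^ k • (1 - y)) *ᵥ s = 0 := by
    rw [← h1, ← Matrix.mulVec_mulVec, hs, Matrix.mulVec_zero]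
  rw [Matrix.smul_mulVec] at h2
  have h3 : (1 - y) *ᵥ s = 0 :=
    (smul_eq_zero.1 h2).resolve_left (pow_ne_zero _ (neg_ne_zero.2 hμ))
  rw [Matrix.sub_mulVec, Matrix.one_mulVec, sub_eq_zero] at h3
  exact h3.symm

private theorem fitE_left {y z S S' : Matrix (Fin m) (Fin m) ℂ} {β : Fin m → ℂ} (h : y * z = z)
    (EC : Eig z S S' β) : y * fitE S S' β = fitE S S' β := by
  have h1 : y * (S * Matrix.diagonal (fun a => if β a = 0 then (0 : ℂ) else 1)) =
      S * Matrix.diagonal (fun a => if β a = 0 then (0 : ℂ) else 1) := by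
    ext i a
    rw [← Matrix.mul_assoc, Matrix.mul_diagonal, Matrix.mul_diagonal]
    by_cases h0 : β a = 0
    · rw [if_pos h0, mul_zero, mul_zero]
    · rw [if_neg h0, mul_one, mul_one]
      have h2 := congrFun (fit_fix h h0 m (EC.col a)) i
      exact h2
  unfold fitE
  rw [← Matrix.mul_assoc, h1]

theorem exch {x y : Matrix (Fin m) (Fin m) ℂ} (h : Gid L M x y)
    (hmin : ∀ x' y', Gid L M x' y' → y.rank ≤ y'.rank)
    {g : Matrix (Fin n) (Fin n) ℂ → Matrix (Fin n) (Fin n) ℂ} {A B : Matrix (Fin m) (Fin m) ℂ}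
    (hA : A.det ≠ 0) (hB : B.det ≠ 0) (hAB : Mor L M g A B) {v : Fin m → ℂ} (hv : y *ᵥ v = v)
    (h0 : y *ᵥ (B *ᵥ v) = 0) : v = 0 := by
  have hc := gid_conj h hA hB hAB
  obtain ⟨y', hy'⟩ : ∃ y', y' = B⁻¹ * y * B := ⟨_, rfl⟩
  obtain ⟨x', hx'⟩ : ∃ x', x' = A⁻¹ * x * A := ⟨_, rfl⟩
  rw [← hy', ← hx'] at hc
  have hyv : y' *ᵥ v = 0 := by
    rw [hy', ← Matrix.mulVec_mulVec, ← Matrix.mulVec_mulVec, h0, Matrix.mulVec_zero]
  obtain ⟨z, hz⟩ : ∃ z, z = y * y' * y := ⟨_, rfl⟩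
  obtain ⟨z', hz'⟩ : ∃ z', z' = x * x' * x := ⟨_, rfl⟩
  have m1 := mor_id.1 h.mor
  have m2 := mor_id.1 hc.mor
  have mz : ∀ N : Matrix (Fin m) (Fin m) ℂ, x * N = N * y → x' * N = N * y' →
      z' * N = N * z := by
    intro N e1 e2
    rw [hz, hz']
    calc x * x' * x * N = x * x' * (x * N) := by simp only [Matrix.mul_assoc]
      _ = x * (x' * N) * y := by rw [e1]; simp only [Matrix.mul_assoc]
      _ = x * N * y' * y := by rw [e2]; simp only [Matrix.mul_assoc]
      _ = N * (y * y' * y) := by rw [e1]; simp only [Matrix.mul_assoc]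
  obtain ⟨S, S', β, EC⟩ := exists_eig z
  obtain ⟨T, T', α, ED⟩ := exists_eig z'
  have hG : Gid L M (fitE T T' α) (fitE S S' β) := by
    refine ⟨mor_id.2 ⟨?_, fun i j => ?_⟩, fitE_idem ED.inv, fitE_idem EC.inv, fun X u hu => ?_⟩
    · exact fitE_mor (mz _ m1.1 m2.1) EC ED
    · exact fitE_mor (mz _ (m1.2 i j) (m2.2 i j)) EC ED
    · refine fitE_one EC ?_
      rw [hz, ← Matrix.mulVec_mulVec, ← Matrix.mulVec_mulVec, h.good X u hu, hc.good X u hu,
        h.good X u hu]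
  have hyE : y * fitE S S' β = fitE S S' β := by
    refine fitE_left (z := z) ?_ EC
    rw [hz, ← Matrix.mul_assoc, ← Matrix.mul_assoc, h.iy]
  have hle : LinearMap.range (fitE S S' β).mulVecLin ≤ LinearMap.range y.mulVecLin := by
    rintro _ ⟨u, rfl⟩
    refine ⟨fitE S S' β *ᵥ u, ?_⟩
    rw [Matrix.mulVecLin_apply, Matrix.mulVecLin_apply, Matrix.mulVec_mulVec, hyE]
  have heq : LinearMap.range (fitE S S' β).mulVecLin = LinearMap.range y.mulVecLin :=
    Submodule.eq_of_le_of_finrank_le hle (hmin _ _ hG)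
  have hmem : v ∈ LinearMap.range (fitE S S' β).mulVecLin := by
    rw [heq]
    exact ⟨v, hv⟩
  obtain ⟨u, hu⟩ := hmem
  rw [Matrix.mulVecLin_apply] at hu
  have hEv : fitE S S' β *ᵥ v = v := by
    rw [← hu, Matrix.mulVec_mulVec, fitE_idem EC.inv]
  rw [← hEv]
  refine fitE_zero EC ?_
  rw [hz, ← Matrix.mulVec_mulVec, ← Matrix.mulVec_mulVec, hv, hyv, Matrix.mulVec_zero]

end PadDet.Eq
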