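import Mathlib

/-!
# MP_d7db32_ag, Eq/L/Gex: multiplicatively independent numbers

`exists_gen`: the `i`-th prime (`Nat.nth Nat.Prime i`); a product of powers of different primes with exponents
`w i` is `1` only if all `w i = 0` (separate positive and negative exponents, unique factorization, or
`padicValRat` of both sides at the prime `i`).
-/

set_option autoImplicit false

namespace PadDet.Eq

private theorem Gex_prod (p : ℕ) [Fact p.Prime] {ι : Type*} (s : Finset ι) (a : ι → ℚ)
    (ha : ∀ i, a i ≠ 0) (w : ι → ℤ) :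
    padicValRat p (∏ i ∈ s, a i ^ w i) = ∑ i ∈ s, w i * padicValRat p (a i) := by
  classical
  induction s using Finset.induction_on with
  | empty => simp
  | insert i s hi ih =>
    rw [Finset.prod_insert hi, Finset.sum_insert hi,
      padicValRat.mul (zpow_ne_zero _ (ha i))
        (Finset.prod_ne_zero_iff.2 fun j _ => zpow_ne_zero _ (ha j)), ih]
    congr 1
    rcases w i with k | k
    · rw [Int.ofNat_eq_natCast, zpow_natCast, padicValRat.pow]
    · rw [zpow_negSucc, padicValRat.inv, padicValRat.pow, Int.negSucc_eq]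
      push_cast
      ring

theorem exists_gen (n : ℕ) : ∃ t : Fin n → ℂ, (∀ i, t i ≠ 0) ∧
    ∀ w : Fin n → ℤ, ∏ i, t i ^ w i = 1 → w = 0 := by
  have hp : ∀ i : ℕ, (Nat.nth Nat.Prime i).Prime := fun i => Nat.prime_nth_prime i
  have hinj : StrictMono (Nat.nth Nat.Prime) := Nat.nth_strictMono Nat.infinite_setOfPred_prime
  refine ⟨fun i => ((Nat.nth Nat.Prime i : ℕ) : ℂ),
    fun i => Nat.cast_ne_zero.2 (hp i).ne_zero, ?_⟩
  intro w hw
  have hq : ∏ i : Fin n, ((Nat.nth Nat.Prime i : ℕ) : ℚ) ^ w i = 1 := by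
    have h : ((∏ i : Fin n, ((Nat.nth Nat.Prime i : ℕ) : ℚ) ^ w i : ℚ) : ℂ) = ((1 : ℚ) : ℂ) := by
      push_cast
      exact hw
    exact Rat.cast_injective h
  funext j
  have := Fact.mk (hp j)
  have h1 := congrArg (padicValRat (Nat.nth Nat.Prime j)) hq
  rw [Gex_prod (Nat.nth Nat.Prime j) Finset.univ
    (fun i : Fin n => ((Nat.nth Nat.Prime i : ℕ) : ℚ))
    (fun i => Nat.cast_ne_zero.2 (hp i).ne_zero) w, padicValRat.one,
    Finset.sum_eq_single j] at h1
  · rw [padicValRat.self (hp j).one_lt, mul_one] at h1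
    exact h1
  · intro i _ hij
    have h2 : Nat.nth Nat.Prime j ≠ Nat.nth Nat.Prime i := fun h =>
      hij (Fin.ext (hinj.injective h.symm))
    rw [padicValRat.of_nat, padicValNat.eq_zero_of_not_dvd fun h =>
      h2 ((Nat.prime_dvd_prime_iff_eq (hp j) (hp i)).1 h)]
    simp
  · intro h
    exact absurd (Finset.mem_univ j) h

end PadDet.Eq
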