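import Pool.Agent.H.MP_d7db32_ag.Eq.L.IrrA

/-!
# MP_d7db32_ag, Eq/L/Irr: the form is irreducible

By `irr_or` and symmetry let `K A₀ ≠ 0`, `A₀` skew (private lemma `irr_one` with this hypothesis, conclusion `∀ X, K X ≠ 0`).
(4) Let `A'` be `A` with row and column `i` replaced by zero. If `F (A + E_ii) ≠ 0` then
`K A = K A'`: all the matrices `A' + s (A - A')` satisfy this hypothesis too (`Fv_diag`), so by `irr_sk` `K` has
no zero on this line, a polynomial without zeros is constant.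
(5) `K A = K A'` for all skew `A`: with `B` from `exists_skew k i` (row and column `i` zero), for
every `v ≠ 0` the function `u ↦ F (u A + v B + E_ii)` is polynomial and not zero at `u = 0`
(`F` itself is polynomial on lines: it is `c⁻¹ G K`, `lpoly_mul`; `F (v B + E_ii) = v ^ (2 k) * F (B + v⁻¹ E_ii)`, `Fv_smul` in S2, `Fv_line`), so `K (u A + v B) = K (u A' + v B)` for almost all `u`, hence for
all `u`, in particular `u = 1`; then `v → 0` (two polynomials in `v` which agree for `v ≠ 0`).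
(6) Induction over the finite set of the indices `i`: `K A = K 0`; so `K 0 = K A₀ ≠ 0`.
(7) `X = A + Y` with `F X ≠ 0`: `K X = K A = K 0` by `irr_sk` and (6), and then for all `X` by `lpoly_dense`
(`exists_ne k`).
-/

set_option autoImplicit false

namespace PadDet.Eq

open Matrix

/-- The skew part. -/
private noncomputable def Irr_sp {n : ℕ} (X : Matrix (Fin n) (Fin n) ℂ) :
    Matrix (Fin n) (Fin n) ℂ :=
  (1 / 2 : ℂ) • (X - Xᵀ)

/-- The rows and columns in `S` are replaced by zero. -/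
private def Irr_z {n : ℕ} (S : Finset (Fin n)) (X : Matrix (Fin n) (Fin n) ℂ) :
    Matrix (Fin n) (Fin n) ℂ :=
  Matrix.of fun a b => if a ∈ S ∨ b ∈ S then 0 else X a b

private theorem Irr_sp_line {n : ℕ} (s : ℂ) (P Q : Matrix (Fin n) (Fin n) ℂ) :
    Irr_sp (P + s • Q) = Irr_sp P + s • Irr_sp Q := by
  unfold Irr_sp
  rw [Matrix.transpose_add, Matrix.transpose_smul]
  module

private theorem Irr_sp_skew {n : ℕ} (X : Matrix (Fin n) (Fin n) ℂ) :
    (Irr_sp X)ᵀ = -Irr_sp X := by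
  unfold Irr_sp
  rw [Matrix.transpose_smul, Matrix.transpose_sub, Matrix.transpose_transpose]
  module

private theorem Irr_sp_self {n : ℕ} {A : Matrix (Fin n) (Fin n) ℂ} (hA : Aᵀ = -A) :
    Irr_sp A = A := by
  unfold Irr_sp
  rw [hA]
  module

private theorem Irr_z_line {n : ℕ} (S : Finset (Fin n)) (s : ℂ) (P Q : Matrix (Fin n) (Fin n) ℂ) :
    Irr_z S (P + s • Q) = Irr_z S P + s • Irr_z S Q := by
  ext a b
  simp only [Irr_z, Matrix.of_apply, Matrix.add_apply, Matrix.smul_apply, smul_eq_mul]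
  split_ifs
  · ring
  · rfl

private theorem Irr_z_skew {n : ℕ} (S : Finset (Fin n)) {A : Matrix (Fin n) (Fin n) ℂ}
    (hA : Aᵀ = -A) : (Irr_z S A)ᵀ = -Irr_z S A := by
  ext a b
  have h1 := congrFun (congrFun hA a) b
  rw [Matrix.transpose_apply, Matrix.neg_apply] at h1
  simp only [Irr_z, Matrix.of_apply, Matrix.transpose_apply, Matrix.neg_apply]
  by_cases h : a ∈ S ∨ b ∈ S
  · rw [if_pos h, if_pos (Or.symm h), neg_zero]
  · rw [if_neg h, if_neg (fun h' => h (Or.symm h')), h1]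

private theorem Irr_z_insert {n : ℕ} (S : Finset (Fin n)) (i : Fin n)
    (A : Matrix (Fin n) (Fin n) ℂ) : Irr_z (insert i S) A = Irr_z {i} (Irr_z S A) := by
  ext a b
  simp only [Irr_z, Matrix.of_apply, Finset.mem_insert, Finset.mem_singleton]
  by_cases h1 : a = i ∨ b = i
  · rw [if_pos h1, if_pos]
    rcases h1 with h1 | h1
    · exact Or.inl (Or.inl h1)
    · exact Or.inr (Or.inl h1)
  · rw [if_neg h1]
    refine if_congr ?_ rfl rfl
    constructor
    · rintro ((h | h) | (h | h))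
      · exact absurd (Or.inl h) h1
      · exact Or.inl h
      · exact absurd (Or.inr h) h1
      · exact Or.inr h
    · rintro (h | h)
      · exact Or.inl (Or.inr h)
      · exact Or.inr (Or.inr h)

private theorem Irr_comp {n : ℕ} {G : Matrix (Fin n) (Fin n) ℂ → ℂ} (hG : LPoly G)
    (C : Matrix (Fin n) (Fin n) ℂ) (f : Matrix (Fin n) (Fin n) ℂ → Matrix (Fin n) (Fin n) ℂ)
    (hf : ∀ (s : ℂ) (P Q : Matrix (Fin n) (Fin n) ℂ), f (P + s • Q) = f P + s • f Q) :
    LPoly fun X => G (f X + C) := by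
  intro P Q
  obtain ⟨p, hp⟩ := hG (f P + C) (f Q)
  refine ⟨p, fun s => ?_⟩
  rw [← hp]
  show G (f (P + s • Q) + C) = _
  rw [hf, add_right_comm]

section

variable {k : ℕ} {G K : Matrix (Fin (2 * k + 1)) (Fin (2 * k + 1)) ℂ → ℂ} {c : ℂ}

private theorem Irr_Fv (hG : LPoly G) (hK : LPoly K) (hc : c ≠ 0)
    (h : ∀ X, G X * K X = c * Fv X) :
    LPoly (Fv : Matrix (Fin (2 * k + 1)) (Fin (2 * k + 1)) ℂ → ℂ) := by
  intro P Q
  obtain ⟨p, hp⟩ := lpoly_mul hG hK P Q
  refine ⟨Polynomial.C c⁻¹ * p, fun s => ?_⟩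
  rw [Polynomial.eval_mul, Polynomial.eval_C, ← hp]
  show _ = c⁻¹ * (G (P + s • Q) * K (P + s • Q))
  rw [h, inv_mul_cancel_left₀ hc]

private theorem Irr_step (hG : LPoly G) (hK : LPoly K) (hc : c ≠ 0)
    (h : ∀ X, G X * K X = c * Fv X)
    {A₀ : Matrix (Fin (2 * k + 1)) (Fin (2 * k + 1)) ℂ} (hA₀ : A₀ᵀ = -A₀) (h0 : K A₀ ≠ 0)
    {A : Matrix (Fin (2 * k + 1)) (Fin (2 * k + 1)) ℂ} (hA : Aᵀ = -A) (i : Fin (2 * k + 1))
    (hF : Fv (A + Matrix.single i i 1) ≠ 0) : K A = K (Irr_z {i} A) := by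
  have hZ := Irr_z_skew {i} hA
  obtain ⟨p, hp⟩ := hK (Irr_z {i} A) (A - Irr_z {i} A)
  have hne : ∀ s, p.eval s ≠ 0 := by
    intro s
    rw [← hp]
    have hs : (Irr_z {i} A + s • (A - Irr_z {i} A))ᵀ = -(Irr_z {i} A + s • (A - Irr_z {i} A)) := by
      rw [Matrix.transpose_add, Matrix.transpose_smul, Matrix.transpose_sub, hZ, hA]
      module
    have hd : Fv (Irr_z {i} A + s • (A - Irr_z {i} A) + Matrix.single i i 1) =
        Fv (A + Matrix.single i i 1) := by
      refine Fv_diag hs hA ?_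
      intro a b ha hb
      have e : Irr_z {i} A a b = A a b := by
        simp only [Irr_z, Matrix.of_apply, Finset.mem_singleton]
        rw [if_neg (by rintro (h' | h'); exacts [ha h', hb h'])]
      rw [Matrix.add_apply, Matrix.smul_apply, Matrix.sub_apply, e, sub_self, smul_zero, add_zero]
    exact (irr_sk hG hK hc h hA₀ h0 hs (Matrix.transpose_single i i 1) (by rw [hd]; exact hF)).2
  have hdeg : p.degree = 0 := by
    by_contra hd
    obtain ⟨s, hs⟩ := IsAlgClosed.exists_root p hd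
    exact hne s hs
  have hC := Polynomial.eq_C_of_degree_eq_zero hdeg
  have e1 : K A = p.eval 1 := by
    rw [← hp, one_smul, add_sub_cancel]
  have e0 : K (Irr_z {i} A) = p.eval 0 := by
    rw [← hp, zero_smul, add_zero]
  rw [e1, e0, hC, Polynomial.eval_C, Polynomial.eval_C]

private theorem Irr_all (hG : LPoly G) (hK : LPoly K) (hc : c ≠ 0)
    (h : ∀ X, G X * K X = c * Fv X)
    {A₀ : Matrix (Fin (2 * k + 1)) (Fin (2 * k + 1)) ℂ} (hA₀ : A₀ᵀ = -A₀) (h0 : K A₀ ≠ 0)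
    {A : Matrix (Fin (2 * k + 1)) (Fin (2 * k + 1)) ℂ} (hA : Aᵀ = -A) (i : Fin (2 * k + 1)) :
    K A = K (Irr_z {i} A) := by
  obtain ⟨B, hB, -, -, hBF⟩ := exists_skew k i
  have hG1 : LPoly fun X => K (Irr_sp X + 0) := Irr_comp hK 0 _ Irr_sp_line
  have hK1 : LPoly fun X => K (Irr_z {i} (Irr_sp X) + 0) :=
    Irr_comp hK 0 (fun X => Irr_z {i} (Irr_sp X)) fun s P Q => by
      rw [Irr_sp_line, Irr_z_line]
  have hE : LPoly fun X : Matrix (Fin (2 * k + 1)) (Fin (2 * k + 1)) ℂ =>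
      Fv (Irr_sp X + Matrix.single i i 1) :=
    Irr_comp (Irr_Fv hG hK hc h) _ _ Irr_sp_line
  have key := lpoly_dense hG1 hK1 hE (X₁ := B) (by
    show Fv (Irr_sp B + Matrix.single i i 1) ≠ 0
    rw [Irr_sp_self hB]
    exact hBF) (fun X hX => by
    show K (Irr_sp X + 0) = K (Irr_z {i} (Irr_sp X) + 0)
    rw [add_zero, add_zero]
    exact Irr_step hG hK hc h hA₀ h0 (Irr_sp_skew X) i hX) A
  have key' : K (Irr_sp A + 0) = K (Irr_z {i} (Irr_sp A) + 0) := key
  rw [add_zero, add_zero, Irr_sp_self hA] at key'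
  exact key'

private theorem Irr_zero (hG : LPoly G) (hK : LPoly K) (hc : c ≠ 0)
    (h : ∀ X, G X * K X = c * Fv X)
    {A₀ : Matrix (Fin (2 * k + 1)) (Fin (2 * k + 1)) ℂ} (hA₀ : A₀ᵀ = -A₀) (h0 : K A₀ ≠ 0)
    {A : Matrix (Fin (2 * k + 1)) (Fin (2 * k + 1)) ℂ} (hA : Aᵀ = -A) : K A = K 0 := by
  have key : ∀ S : Finset (Fin (2 * k + 1)), K A = K (Irr_z S A) := by
    intro S
    induction S using Finset.induction_on with
    | empty =>
      have e : Irr_z ∅ A = A := by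
        ext a b
        simp [Irr_z]
      rw [e]
    | insert i S _ ih =>
      rw [Irr_z_insert, ← Irr_all hG hK hc h hA₀ h0 (Irr_z_skew S hA) i]
      exact ih
  have e : Irr_z Finset.univ A = 0 := by
    ext a b
    simp [Irr_z]
  rw [key Finset.univ, e]

private theorem irr_one (hG : LPoly G) (hK : LPoly K) (hc : c ≠ 0)
    (h : ∀ X, G X * K X = c * Fv X)
    {A₀ : Matrix (Fin (2 * k + 1)) (Fin (2 * k + 1)) ℂ} (hA₀ : A₀ᵀ = -A₀) (h0 : K A₀ ≠ 0) :
    ∀ X, K X ≠ 0 := by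
  obtain ⟨X₁, hX₁⟩ := exists_ne k
  have key : ∀ X, K X = K 0 := fun X =>
    lpoly_dense hK (K := fun _ => K 0)
      (fun _ _ => ⟨Polynomial.C (K 0), fun s => by rw [Polynomial.eval_C]⟩)
      (Irr_Fv hG hK hc h) hX₁ (fun X hX => by
        have hY : ((1 / 2 : ℂ) • (X + Xᵀ))ᵀ = (1 / 2 : ℂ) • (X + Xᵀ) := by
          rw [Matrix.transpose_smul, Matrix.transpose_add, Matrix.transpose_transpose, add_comm Xᵀ X]
        have hXe : Irr_sp X + (1 / 2 : ℂ) • (X + Xᵀ) = X := by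
          unfold Irr_sp
          module
        have h1 := (irr_sk hG hK hc h hA₀ h0 (Irr_sp_skew X) hY (by rw [hXe]; exact hX)).1
        rw [hXe] at h1
        rw [h1]
        exact Irr_zero hG hK hc h hA₀ h0 (Irr_sp_skew X)) X
  intro X
  rw [key X, ← Irr_zero hG hK hc h hA₀ h0 hA₀]
  exact h0

end

theorem irr {k : ℕ} {G K : Matrix (Fin (2 * k + 1)) (Fin (2 * k + 1)) ℂ → ℂ} (hG : LPoly G)
    (hK : LPoly K) {c : ℂ} (hc : c ≠ 0) (h : ∀ X, G X * K X = c * Fv X) :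
    (∀ X, G X ≠ 0) ∨ (∀ X, K X ≠ 0) := by
  obtain ⟨A, hA, h1 | h1⟩ := irr_or hG hK hc h
  · exact Or.inl (irr_one hK hG hc (fun X => by rw [mul_comm]; exact h X) hA h1)
  · exact Or.inr (irr_one hG hK hc h hA h1)

end PadDet.Eq
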