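import Pool.Agent.H.MP_d7db32_ag.Eq.L.Pol

/-!
# MP_d7db32_ag, Eq/L/IrrA: the form is irreducible, first part

`G K = c F`, both polynomial on lines (A skew, Y symmetric).
`irr_or`: `exists_skew k 0` gives `A₀` with `F (A₀ + E₀₀) ≠ 0`; on the line `A₀ + s E₀₀` the product of the two polynomials is
`c s F (A₀ + E₀₀)` (`Fv_line`), so not both of them vanish at `s = 0` (else `s ^ 2` divides it).
`irr_sk`: (1) `G A = 0` for all skew `A`: on the line from `A₀` to `A` the product of the polynomials is `0`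
(`Fv_skew`; infinitely many values), and the one of `K` is not `0`.
(2) If `F (A + Y) ≠ 0` then `K (A + Y) = K A` (line `A + s Y`: `p q = c s F (A + Y)`, `p 0 = 0`, `p = X p₁`, so
`p₁ q` is a nonzero constant and `q` is constant), and `K A ≠ 0` because `G (A + Y) K (A + Y) ≠ 0`.
-/

set_option autoImplicit false

namespace PadDet.Eq

open Matrix

variable {k : ℕ} {G K : Matrix (Fin (2 * k + 1)) (Fin (2 * k + 1)) ℂ → ℂ} {c : ℂ}

/-- The two polynomials on the line `A + s Y`. -/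
private theorem IrrA_line (hG : LPoly G) (hK : LPoly K) (h : ∀ X, G X * K X = c * Fv X)
    {A Y : Matrix (Fin (2 * k + 1)) (Fin (2 * k + 1)) ℂ} (hA : Aᵀ = -A) (hY : Yᵀ = Y) :
    ∃ p q : Polynomial ℂ, (∀ s : ℂ, G (A + s • Y) = p.eval s) ∧
      (∀ s : ℂ, K (A + s • Y) = q.eval s) ∧
      p * q = Polynomial.X * Polynomial.C (c * Fv (A + Y)) := by
  obtain ⟨p, hp⟩ := hG A Y
  obtain ⟨q, hq⟩ := hK A Y
  refine ⟨p, q, hp, hq, ?_⟩
  apply Polynomial.funext
  intro s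
  rw [Polynomial.eval_mul, ← hp, ← hq, h, Fv_line hA hY, Polynomial.eval_mul, Polynomial.eval_X,
    Polynomial.eval_C]
  ring

private theorem IrrA_at (P Q : Matrix (Fin (2 * k + 1)) (Fin (2 * k + 1)) ℂ) :
    P + (0 : ℂ) • Q = P := by
  rw [zero_smul, add_zero]

private theorem IrrA_dvd {p : Polynomial ℂ} (hp : p.eval 0 = 0) : ∃ r, p = Polynomial.X * r := by
  have h1 : Polynomial.X ∣ p := by
    rw [Polynomial.X_dvd_iff, Polynomial.coeff_zero_eq_eval_zero, hp]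
  exact h1

theorem irr_or (hG : LPoly G) (hK : LPoly K) (hc : c ≠ 0) (h : ∀ X, G X * K X = c * Fv X) :
    ∃ A : Matrix (Fin (2 * k + 1)) (Fin (2 * k + 1)) ℂ, Aᵀ = -A ∧ (G A ≠ 0 ∨ K A ≠ 0) := by
  obtain ⟨A, hA, -, -, hF⟩ := exists_skew k ⟨0, by omega⟩
  refine ⟨A, hA, ?_⟩
  by_contra hcon
  rw [not_or, not_not, not_not] at hcon
  obtain ⟨hg, hk⟩ := hcon
  have hY : (Matrix.single (⟨0, by omega⟩ : Fin (2 * k + 1)) (⟨0, by omega⟩ : Fin (2 * k + 1))
      (1 : ℂ))ᵀ = Matrix.single ⟨0, by omega⟩ ⟨0, by omega⟩ 1 := Matrix.transpose_single _ _ _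
  obtain ⟨p, q, hp, hq, hpq⟩ := IrrA_line hG hK h hA hY
  have hp0 : p.eval 0 = 0 := by rw [← hp, IrrA_at, hg]
  have hq0 : q.eval 0 = 0 := by rw [← hq, IrrA_at, hk]
  obtain ⟨p1, rfl⟩ := IrrA_dvd hp0
  rw [mul_assoc] at hpq
  have h1 := mul_left_cancel₀ Polynomial.X_ne_zero hpq
  have h2 := congrArg (Polynomial.eval 0) h1
  rw [Polynomial.eval_mul, hq0, mul_zero, Polynomial.eval_C] at h2
  exact mul_ne_zero hc hF h2.symm

theorem irr_sk (hG : LPoly G) (hK : LPoly K) (hc : c ≠ 0) (h : ∀ X, G X * K X = c * Fv X)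
    {A₀ : Matrix (Fin (2 * k + 1)) (Fin (2 * k + 1)) ℂ} (hA₀ : A₀ᵀ = -A₀) (h0 : K A₀ ≠ 0)
    {A Y : Matrix (Fin (2 * k + 1)) (Fin (2 * k + 1)) ℂ} (hA : Aᵀ = -A) (hY : Yᵀ = Y)
    (hF : Fv (A + Y) ≠ 0) : K (A + Y) = K A ∧ K A ≠ 0 := by
  have hGA : G A = 0 := by
    obtain ⟨p, hp⟩ := hG A₀ (A - A₀)
    obtain ⟨q, hq⟩ := hK A₀ (A - A₀)
    have hpq : p * q = 0 := by
      apply Polynomial.funext
      intro s
      rw [Polynomial.eval_mul, ← hp, ← hq, h, Fv_skew, mul_zero, Polynomial.eval_zero]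
      rw [Matrix.transpose_add, Matrix.transpose_smul, Matrix.transpose_sub, hA₀, hA]
      module
    have hq0 : q ≠ 0 := by
      rintro rfl
      have h1 := hq 0
      rw [IrrA_at, Polynomial.eval_zero] at h1
      exact h0 h1
    have hp0 : p = 0 := by
      rcases mul_eq_zero.1 hpq with h1 | h1
      · exact h1
      · exact absurd h1 hq0
    have h1 := hp 1
    rw [hp0, Polynomial.eval_zero, one_smul, add_sub_cancel] at h1
    exact h1
  obtain ⟨p, q, hp, hq, hpq⟩ := IrrA_line hG hK h hA hY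
  have hp0 : p.eval 0 = 0 := by rw [← hp, IrrA_at, hGA]
  obtain ⟨p1, rfl⟩ := IrrA_dvd hp0
  rw [mul_assoc] at hpq
  have h1 := mul_left_cancel₀ Polynomial.X_ne_zero hpq
  have hf : c * Fv (A + Y) ≠ 0 := mul_ne_zero hc hF
  have hu : IsUnit q := by
    have h2 : IsUnit (p1 * q) := by
      rw [h1]
      exact (isUnit_iff_ne_zero.2 hf).map Polynomial.C
    exact isUnit_of_mul_isUnit_right h2
  obtain ⟨r, hr, hrq⟩ := Polynomial.isUnit_iff.1 hu
  have hv : ∀ s : ℂ, q.eval s = r := fun s => by rw [← hrq, Polynomial.eval_C]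
  have hKA : K A = r := by
    have := hq 0
    rwa [IrrA_at, hv] at this
  have hKY : K (A + Y) = r := by
    have := hq 1
    rwa [one_smul, hv] at this
  exact ⟨by rw [hKY, hKA], by rw [hKA]; exact hr.ne_zero⟩

end PadDet.Eq
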