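import Pool.Agent.H.MP_d7db32_ag.Eq.L.Shf
import Pool.Agent.H.MP_d7db32_ag.Eq.S1
import Pool.Agent.H.MP_d7db32_ag.Eq.S3
import Pool.Agent.H.MP_d7db32_ag.Eq.S4
import Pool.Agent.H.MP_d7db32_ag.Eq.S5

/-!
# MP_d7db32_ag, Eq/L/KerA: a nonconstant weight with more columns than rows

For every rearrangement `ω ∘ σ` there are more columns than rows too (`card_st`), so by `blk_le` (S5, with the weights cast to
`ℂ`; `IsW`) there is a kernel vector `x ≠ 0` of `L` supported on the columns of weight `ω ∘ σ`. Different rearrangements give independent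
vectors (`indep`, S2), `card_add_rank` and `s1` (S1: `det (L + t M X) = t ^ n c F X`, with `F X ≠ 0`: `m ≤ L.rank + n`; `Fv_smul`)
give at most `n` of them. `fibre_two` and `cls` (for `ω` cast to `ℂ`): `ω` is `c₁` except at one place, where it is `c₂`. The `n` rearrangements
(`Equiv.swap`) give `v j`, independent, so `n + L.rank ≤ m`. `span`: `ker_span`.
-/

set_option autoImplicit false

namespace PadDet.Eq

open Matrix

variable {k m : ℕ} {c : ℂ} {L : Matrix (Fin m) (Fin m) ℂ}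
  {M : Matrix (Fin (2 * k + 1)) (Fin (2 * k + 1)) ℂ →ₗ[ℂ] Matrix (Fin m) (Fin m) ℂ}
  {w w' : Fin m → Fin (2 * k + 1) → ℤ}

/-- The weight `c₁` with the exceptional value `c₂` at `j`. -/
def wz {n : ℕ} (c₁ c₂ : ℤ) (j : Fin n) : Fin n → ℤ := fun i => if i = j then c₂ else c₁

/-- The kernel of `L` is spanned by vectors of the weights `wz c₁ c₂ j`. -/
structure Kln {n : ℕ} (m : ℕ) (L : Matrix (Fin m) (Fin m) ℂ) (w : Fin m → Fin n → ℤ)
    (c₁ c₂ : ℤ) (v : Fin n → Fin m → ℂ) : Prop where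
  ne : c₁ ≠ c₂
  rk : m = L.rank + n
  ind : LinearIndependent ℂ v
  ker : ∀ j, L *ᵥ v j = 0
  wt : ∀ j a, v j a ≠ 0 → w a = wz c₁ c₂ j
  span : ∀ x, L *ᵥ x = 0 → ∃ ξ : Fin n → ℂ, x = ∑ j, ξ j • v j

private theorem cst_inj {n : ℕ} {η η' : Fin n → ℤ}
    (h : (fun i => ((η i : ℤ) : ℂ)) = fun i => ((η' i : ℤ) : ℂ)) : η = η' := by
  funext i
  have := congrFun h i
  exact_mod_cast this

private theorem exv (h : Zs (2 * k + 1) m c L M w w') {η : Fin (2 * k + 1) → ℤ}
    (hlt : Nat.card {b // w' b = η} < Nat.card {a // w a = η}) :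
    ∃ x : Fin m → ℂ, L *ᵥ x = 0 ∧ x ≠ 0 ∧ ∀ a, x a ≠ 0 → w a = η := by
  by_contra hcon
  push Not at hcon
  have h1 := blk_le L (fun a i => (w a i : ℂ)) (fun b i => (w' b i : ℂ))
    (fun b a hL => by rw [h.gL b a hL]) (fun i => (η i : ℂ)) (by
      intro x hx hw
      by_contra hx0
      obtain ⟨a, ha, hne⟩ := hcon x hx hx0
      exact hne (cst_inj (hw a ha)))
  have e1 : Nat.card {a // (fun i => (w a i : ℂ)) = fun i => (η i : ℂ)} =
      Nat.card {a // w a = η} :=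
    Nat.card_congr (Equiv.subtypeEquivRight fun a => ⟨cst_inj, fun h => by rw [h]⟩)
  have e2 : Nat.card {b // (fun i => (w' b i : ℂ)) = fun i => (η i : ℂ)} =
      Nat.card {b // w' b = η} :=
    Nat.card_congr (Equiv.subtypeEquivRight fun b => ⟨cst_inj, fun h => by rw [h]⟩)
  rw [e1, e2] at h1
  omega

theorem ker_a (hk : 1 ≤ k) (h : Zs (2 * k + 1) m c L M w w') {ω : Fin (2 * k + 1) → ℤ}
    (hω : ∃ i j, ω i ≠ ω j) (hlt : Nat.card {b // w' b = ω} < Nat.card {a // w a = ω}) :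
    ∃ c₁ c₂ v, Kln m L w c₁ c₂ v ∧ ∃ j, ω = wz c₁ c₂ j := by
  classical
  obtain ⟨X, hX⟩ := exists_ne k
  have hle : m ≤ L.rank + (2 * k + 1) :=
    (s1 L (M X) (c * Fv X) (fun t => by
      rw [← map_smul, h.det, Fv_smul (by omega)]; ring)).1 (mul_ne_zero h.c0 hX)
  have hx : ∀ σ : Equiv.Perm (Fin (2 * k + 1)), ∃ x : Fin m → ℂ, L *ᵥ x = 0 ∧ x ≠ 0 ∧
      ∀ a, x a ≠ 0 → w a = ω ∘ σ := by
    intro σ
    apply exv h
    rw [card_st h.st, card_st h.st']
    exact hlt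
  choose y hy0 hyn hyw using hx
  have hyc : ∀ σ : Equiv.Perm (Fin (2 * k + 1)),
      IsW (fun a i => (w a i : ℂ)) ((fun l => (ω l : ℂ)) ∘ σ) (y σ) := by
    intro σ a ha
    funext l
    show (w a l : ℂ) = (ω (σ l) : ℂ)
    rw [hyw σ a ha]
    rfl
  have hH : ∀ (ι : Type) [Fintype ι] (σ : ι → Equiv.Perm (Fin (2 * k + 1))),
      Function.Injective (fun i => (fun l => (ω l : ℂ)) ∘ σ i) → Fintype.card ι ≤ 2 * k + 1 := by
    intro ι _ σ hσ
    have hind := indep (w := fun a i => (w a i : ℂ)) (fun i => y (σ i))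
      (fun i => (fun l => (ω l : ℂ)) ∘ σ i) hσ (fun i => hyn _) (fun i => hyc _)
    have := card_add_rank _ hind (fun i => hy0 _)
    omega
  obtain ⟨z, hz⟩ := fibre_two (by omega) (fun l => (ω l : ℂ)) hH
  obtain ⟨l₀, hl₀⟩ : ∃ l, (ω l : ℂ) = z := by
    have h1 : (Finset.univ.filter fun l => (ω l : ℂ) = z).Nonempty := by
      rw [← Finset.card_pos]
      omega
    obtain ⟨l, hl⟩ := h1
    exact ⟨l, (Finset.mem_filter.1 hl).2⟩
  have hnz : ∃ i, (ω i : ℂ) ≠ z := by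
    by_contra hcon
    push Not at hcon
    obtain ⟨i, j, hij⟩ := hω
    apply hij
    have h1 := (hcon i).trans (hcon j).symm
    exact_mod_cast h1
  obtain ⟨i₀, hi₀, hrest⟩ := cls (fun l => (ω l : ℂ)) z hz hnz hH
  have hi : ω i₀ ≠ ω l₀ := by
    intro h1
    apply hi₀
    show (ω i₀ : ℂ) = z
    rw [h1, hl₀]
  have hr : ∀ j, j ≠ i₀ → ω j = ω l₀ := by
    intro j hj
    have h1 : (ω j : ℂ) = z := hrest j hj
    rw [← hl₀] at h1
    exact_mod_cast h1
  have hsw : ∀ j, ω ∘ (Equiv.swap i₀ j) = wz (ω l₀) (ω i₀) j := by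
    intro j
    funext i
    unfold wz
    rw [Function.comp_apply]
    by_cases hij : i = j
    · subst hij
      rw [Equiv.swap_apply_right, if_pos rfl]
    · rw [if_neg hij]
      apply hr
      intro h1
      apply hij
      have h5 := congrArg (Equiv.swap i₀ j) h1
      rw [Equiv.swap_apply_self, Equiv.swap_apply_left] at h5
      exact h5
  have hinj : Function.Injective fun j : Fin (2 * k + 1) =>
      (fun l => (ω l : ℂ)) ∘ (Equiv.swap i₀ j) := by
    intro j j' hjj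
    by_contra hne
    have h1 : ω ∘ (Equiv.swap i₀ j) = ω ∘ (Equiv.swap i₀ j') := cst_inj hjj
    rw [hsw, hsw] at h1
    have h2 := congrFun h1 j
    unfold wz at h2
    rw [if_pos rfl, if_neg hne] at h2
    exact hi h2
  have hind := indep (w := fun a i => (w a i : ℂ)) (fun j => y (Equiv.swap i₀ j)) _ hinj
    (fun j => hyn _) (fun j => hyc _)
  have hcard := card_add_rank _ hind (fun j => hy0 _)
  rw [Fintype.card_fin] at hcard
  have hrk : m = L.rank + (2 * k + 1) := by omega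
  refine ⟨ω l₀, ω i₀, fun j => y (Equiv.swap i₀ j), ⟨hi.symm, hrk, hind, fun j => hy0 _, ?_, ?_⟩,
    i₀, ?_⟩
  · intro j a ha
    rw [← hsw j]
    exact hyw _ a ha
  · intro x hx
    exact ker_span _ hind (fun j => hy0 _) hrk hx
  · rw [← hsw i₀, Equiv.swap_self]
    rfl

end PadDet.Eq
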