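import Pool.Agent.H.MP_d7db32_ag.Eq.L.KerA

/-!
# MP_d7db32_ag, Eq/L/KerB: the weights of the left kernel

`left_part`: the entries `L b a ≠ 0` have `w' b = w a`.
`left_wt`: let `A` be the block of `L` with the rows of weight `θ` and the columns of weight `θ`; the restriction of `y` is a nonzero left kernel vector of `A`, so
the rank of `A` is less than the number of rows. If `θ = wz c₁ c₂ j`: a kernel vector of `A` (extended by zero) is `∑ ξ_i v i` (`K.span`), only
`i = j` can occur (`K.wt`; `wz` is injective in `j` because `c₁ ≠ c₂`), so the kernel of `A` has dimension at most `1` and `rank A ≥` (number of columns) `- 1 ≥` number of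
rows by `hlt`, contradiction. If `θ` is not of this form, the kernel of `A` is zero, `rank A` = number of columns, so this number is less
than the number of rows.
-/

set_option autoImplicit false

namespace PadDet.Eq

open Matrix

variable {k m : ℕ} {c : ℂ} {L : Matrix (Fin m) (Fin m) ℂ}
  {M : Matrix (Fin (2 * k + 1)) (Fin (2 * k + 1)) ℂ →ₗ[ℂ] Matrix (Fin m) (Fin m) ℂ}
  {w w' : Fin m → Fin (2 * k + 1) → ℤ}

open Classical in
theorem left_part (h : Zs (2 * k + 1) m c L M w w') {y : Fin m → ℂ} (hy : y ᵥ* L = 0)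
    (θ : Fin (2 * k + 1) → ℤ) : (fun b => if w' b = θ then y b else 0) ᵥ* L = 0 := by
  funext a
  have h0 := congrFun hy a
  simp only [Matrix.vecMul, dotProduct, Pi.zero_apply] at h0 ⊢
  by_cases ha : w a = θ
  · rw [← h0]
    refine Finset.sum_congr rfl fun b _ => ?_
    by_cases hL : L b a = 0
    · rw [hL, mul_zero, mul_zero]
    · rw [if_pos ((h.gL b a hL).trans ha)]
  · refine Finset.sum_eq_zero fun b _ => ?_
    by_cases hL : L b a = 0
    · rw [hL, mul_zero]
    · rw [if_neg (fun hb => ha ((h.gL b a hL).symm.trans hb)), zero_mul]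

private theorem KerB_inj {n : ℕ} {c₁ c₂ : ℤ} (hc : c₁ ≠ c₂) {i j : Fin n}
    (h : wz c₁ c₂ i = wz c₁ c₂ j) : i = j := by
  by_contra hij
  have h1 := congrFun h i
  unfold wz at h1
  rw [if_pos rfl, if_neg hij] at h1
  exact hc h1.symm

/-- The block of the weight `θ`. -/
private def KerB_A (L : Matrix (Fin m) (Fin m) ℂ) (w w' : Fin m → Fin (2 * k + 1) → ℤ)
    (θ : Fin (2 * k + 1) → ℤ) : Matrix {b // w' b = θ} {a // w a = θ} ℂ := fun b a => L b a

private theorem KerB_sum (f : Fin m → ℂ) (w : Fin m → Fin (2 * k + 1) → ℤ)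
    (θ : Fin (2 * k + 1) → ℤ) [Fintype {a // w a = θ}] (hf : ∀ a, w a ≠ θ → f a = 0) :
    ∑ a : {a // w a = θ}, f a = ∑ a, f a := by
  classical
  rw [← Finset.sum_filter_add_sum_filter_not Finset.univ (fun a => w a = θ)]
  rw [Finset.sum_eq_zero (s := Finset.univ.filter fun a => ¬ w a = θ), add_zero]
  · rw [Finset.sum_subtype (Finset.univ.filter fun a => w a = θ) (p := fun a => w a = θ)
      (by simp)]
  · intro a ha
    rw [Finset.mem_filter] at ha
    exact hf a ha.2

open Classical in
private theorem KerB_ext (h : Zs (2 * k + 1) m c L M w w') (θ : Fin (2 * k + 1) → ℤ)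
    (z : {a // w a = θ} → ℂ) (hz : KerB_A L w w' θ *ᵥ z = 0) :
    L *ᵥ (fun a => if ha : w a = θ then z ⟨a, ha⟩ else 0) = 0 := by
  funext b
  show ∑ a, L b a * (if ha : w a = θ then z ⟨a, ha⟩ else 0) = 0
  by_cases hb : w' b = θ
  · have h2 := congrFun hz ⟨b, hb⟩
    have h3 : ∑ a : {a // w a = θ}, L b a * z a = 0 := h2
    rw [← KerB_sum (fun a => L b a * (if ha : w a = θ then z ⟨a, ha⟩ else 0)) w θ
      (fun a ha => by rw [dif_neg ha, mul_zero])]
    refine Eq.trans (Finset.sum_congr rfl fun a _ => ?_) h3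
    rw [dif_pos a.2]
  · refine Finset.sum_eq_zero (fun a _ => ?_)
    by_cases hL : L b a = 0
    · rw [hL, zero_mul]
    · rw [dif_neg (fun ha => hb ((h.gL b a hL).trans ha)), mul_zero]

theorem left_wt (h : Zs (2 * k + 1) m c L M w w') {c₁ c₂ : ℤ}
    {v : Fin (2 * k + 1) → Fin m → ℂ} (K : Kln m L w c₁ c₂ v)
    (hlt : ∀ j, Nat.card {b // w' b = wz c₁ c₂ j} < Nat.card {a // w a = wz c₁ c₂ j})
    {θ : Fin (2 * k + 1) → ℤ} {y : Fin m → ℂ} (hy0 : y ≠ 0) (hy : y ᵥ* L = 0)
    (hyw : ∀ b, y b ≠ 0 → w' b = θ) :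
    Nat.card {a // w a = θ} < Nat.card {b // w' b = θ} := by
  classical
  -- the left kernel
  have hrk : (KerB_A L w w' θ).rank < Fintype.card {b // w' b = θ} := by
    have h1 : (KerB_A L w w' θ)ᵀ *ᵥ (fun b => y b.1) = 0 := by
      funext a
      have h2 := congrFun hy a.1
      simp only [Matrix.vecMul, dotProduct, Pi.zero_apply] at h2
      show ∑ b : {b // w' b = θ}, L b.1 a.1 * y b.1 = 0
      rw [KerB_sum (fun b => L b a.1 * y b) w' θ (fun b hb => by
        have : y b = 0 := by
          by_contra hcon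
          exact hb (hyw b hcon)
        rw [this, mul_zero])]
      rw [← h2]
      exact Finset.sum_congr rfl fun b _ => mul_comm _ _
    have h3 : (fun b : {b // w' b = θ} => y b.1) ≠ 0 := by
      intro h0
      apply hy0
      funext b
      by_cases hb : w' b = θ
      · exact congrFun h0 ⟨b, hb⟩
      · by_contra hcon
        exact hb (hyw b hcon)
    have h4 := LinearMap.finrank_range_add_finrank_ker (KerB_A L w w' θ)ᵀ.mulVecLin
    have h5 : Module.finrank ℂ ({b // w' b = θ} → ℂ) = Fintype.card {b // w' b = θ} := by simp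
    have h6 : 0 < Module.finrank ℂ (LinearMap.ker (KerB_A L w w' θ)ᵀ.mulVecLin) := by
      rw [Module.finrank_pos_iff_exists_ne_zero]
      refine ⟨⟨fun b => y b.1, by rw [LinearMap.mem_ker, Matrix.mulVecLin_apply]; exact h1⟩, ?_⟩
      intro h7
      exact h3 (congrArg Subtype.val h7)
    rw [← Matrix.rank_transpose]
    unfold Matrix.rank
    omega
  -- the right kernel
  have hk4 := LinearMap.finrank_range_add_finrank_ker (KerB_A L w w' θ).mulVecLin
  have hk5 : Module.finrank ℂ ({a // w a = θ} → ℂ) = Fintype.card {a // w a = θ} := by simp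
  have hx : ∀ z : {a // w a = θ} → ℂ, KerB_A L w w' θ *ᵥ z = 0 →
      ∃ ξ : Fin (2 * k + 1) → ℂ, ∀ a : {a // w a = θ}, z a = ∑ i, ξ i * v i a.1 := by
    intro z hz
    obtain ⟨ξ, hξ⟩ := K.span _ (KerB_ext h θ z hz)
    refine ⟨ξ, fun a => ?_⟩
    have h1 := congrFun hξ a.1
    rw [dif_pos a.2, Finset.sum_apply] at h1
    exact h1
  rw [Nat.card_eq_fintype_card, Nat.card_eq_fintype_card]
  by_cases hθ : ∃ j, θ = wz c₁ c₂ j
  · exfalso
    obtain ⟨j, hj⟩ := hθ
    have h1 := hlt j
    rw [← hj, Nat.card_eq_fintype_card, Nat.card_eq_fintype_card] at h1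
    have h2 : KerB_A L w w' θ *ᵥ (fun a => v j a.1) = 0 := by
      funext b
      have h3 := congrFun (K.ker j) b.1
      simp only [Matrix.mulVec, dotProduct, Pi.zero_apply] at h3
      show ∑ a : {a // w a = θ}, L b.1 a.1 * v j a.1 = 0
      rw [KerB_sum (fun a => L b.1 a * v j a) w θ (fun a ha => by
        have : v j a = 0 := by
          by_contra hcon
          exact ha ((K.wt j a hcon).trans hj.symm)
        rw [this, mul_zero])]
      exact h3
    have h4 : Module.finrank ℂ (LinearMap.ker (KerB_A L w w' θ).mulVecLin) ≤ 1 := by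
      refine finrank_le_one ⟨fun a => v j a.1, by
        rw [LinearMap.mem_ker, Matrix.mulVecLin_apply]; exact h2⟩ ?_
      rintro ⟨z, hz⟩
      have hz' : KerB_A L w w' θ *ᵥ z = 0 := by
        rw [LinearMap.mem_ker, Matrix.mulVecLin_apply] at hz
        exact hz
      obtain ⟨ξ, hξ⟩ := hx z hz'
      refine ⟨ξ j, ?_⟩
      apply Subtype.ext
      funext a
      show ξ j * v j a.1 = z a
      rw [hξ a, Finset.sum_eq_single j]
      · intro i _ hi
        have : v i a.1 = 0 := by
          by_contra hcon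
          exact hi (KerB_inj K.ne ((K.wt i a.1 hcon).symm.trans (a.2.trans hj)))
        rw [this, mul_zero]
      · intro hn
        exact absurd (Finset.mem_univ j) hn
    unfold Matrix.rank at hrk
    omega
  · have h4 : Module.finrank ℂ (LinearMap.ker (KerB_A L w w' θ).mulVecLin) = 0 := by
      rw [Submodule.finrank_eq_zero, LinearMap.ker_eq_bot']
      intro z hz
      rw [Matrix.mulVecLin_apply] at hz
      obtain ⟨ξ, hξ⟩ := hx z hz
      funext a
      rw [hξ a]
      refine Finset.sum_eq_zero fun i _ => ?_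
      have : v i a.1 = 0 := by
        by_contra hcon
        exact hθ ⟨i, a.2.symm.trans (K.wt i a.1 hcon)⟩
      rw [this, mul_zero]
    unfold Matrix.rank at hrk
    omega

end PadDet.Eq
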