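import Pool.Agent.H.MP_d7db32_ag.Eq.L.KerP
import Pool.Agent.H.MP_d7db32_ag.Eq.L.ExJ

/-!
# MP_d7db32_ag, Eq/L/KerM: the main case

`no_main`: (1) `b l = y l ⬝ M(E_ll) v l ≠ 0` for all `l`: `A` from `exists_skew k l`, `X = A + E_ll`: the pairing of `v l` with `y i` at `X`
is `0` for `i ≠ l` (`X l i = X i l = 0`) and `b l` for `i = l`; if `b l = 0` then `v l` pairs to zero with all of the left
kernel (`hspan`) and `v l = 0` by `pair_iff`.
(2) `β = y i₁ ⬝ M(J) v i₂`, `γ = y i₂ ⬝ M(J) v i₁`, `d 0 = 1`, `d i₁ = 1`, `d i₂ = γ β / (b i₁ b i₂)`, other `d` zero, `X = J + diagonal d`,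
`x = β v i₁ - b i₁ v i₂`: the pairings of `x` at `X` with `y i₁` and `y i₂` are `0`, with the other `y i` too (the entries `X i i₁`, ... are zero).
So `x = 0` by `pair_iff` (`F X ≠ 0`), contradiction to `b i₁ ≠ 0` and independence.
-/

set_option autoImplicit false

namespace PadDet.Eq

open Matrix

variable {k m : ℕ} {c : ℂ} {L : Matrix (Fin m) (Fin m) ℂ}
  {M : Matrix (Fin (2 * k + 1)) (Fin (2 * k + 1)) ℂ →ₗ[ℂ] Matrix (Fin m) (Fin m) ℂ}

/-- The sum over the pairs when only one pair is possible. -/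
private theorem KerM_one {n : ℕ} (X : Matrix (Fin n) (Fin n) ℂ) (e : Fin n → Fin n → ℂ) (i : Fin n)
    (h : ∀ p q, e p q ≠ 0 → p = i ∧ q = i) : ∑ p, ∑ q, X p q * e p q = X i i * e i i := by
  rw [Finset.sum_eq_single i]
  · rw [Finset.sum_eq_single i]
    · intro q _ hq
      have : e i q = 0 := by
        by_contra h0
        exact hq (h i q h0).2
      rw [this, mul_zero]
    · intro h0
      exact absurd (Finset.mem_univ i) h0
  · intro p _ hp
    refine Finset.sum_eq_zero fun q _ => ?_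
    have : e p q = 0 := by
      by_contra h0
      exact hp (h p q h0).1
    rw [this, mul_zero]
  · intro h0
    exact absurd (Finset.mem_univ i) h0

/-- The sum over the pairs when the entries at the two possible pairs vanish. -/
private theorem KerM_two {n : ℕ} (X : Matrix (Fin n) (Fin n) ℂ) (e : Fin n → Fin n → ℂ)
    (i j : Fin n) (h : ∀ p q, e p q ≠ 0 → (p = i ∧ q = j) ∨ (p = j ∧ q = i))
    (h1 : X i j = 0) (h2 : X j i = 0) : ∑ p, ∑ q, X p q * e p q = 0 := by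
  refine Finset.sum_eq_zero fun p _ => Finset.sum_eq_zero fun q _ => ?_
  by_cases h0 : e p q = 0
  · rw [h0, mul_zero]
  · rcases h p q h0 with ⟨rfl, rfl⟩ | ⟨rfl, rfl⟩
    · rw [h1, zero_mul]
    · rw [h2, zero_mul]

theorem no_main (hk : 1 ≤ k) (hc : c ≠ 0) (hdet : ∀ X, (L + M X).det = c * Fv X)
    (rk : m = L.rank + (2 * k + 1)) (v y : Fin (2 * k + 1) → Fin m → ℂ)
    (ind : LinearIndependent ℂ v) (hv : ∀ j, L *ᵥ v j = 0) (hy : ∀ i, y i ᵥ* L = 0)
    (hspan : ∀ z, z ᵥ* L = 0 → ∃ η : Fin (2 * k + 1) → ℂ, z = ∑ i, η i • y i)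
    (h : ∀ i j p q, y i ⬝ᵥ (M (Matrix.single p q 1) *ᵥ v j) ≠ 0 →
      (p = i ∧ q = j) ∨ (p = j ∧ q = i)) : False := by
  -- the pairing with the whole left kernel
  have hall : ∀ (X : Matrix (Fin (2 * k + 1)) (Fin (2 * k + 1)) ℂ) (x : Fin m → ℂ),
      (∀ i, y i ⬝ᵥ (M X *ᵥ x) = 0) → ∀ z, z ᵥ* L = 0 → z ⬝ᵥ (M X *ᵥ x) = 0 := by
    intro X x hx z hz
    obtain ⟨η, rfl⟩ := hspan z hz
    rw [sum_dotProduct]
    refine Finset.sum_eq_zero fun i _ => ?_
    rw [smul_dotProduct, hx i, smul_zero]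
  -- diagonal pairings
  have hdiag : ∀ (X : Matrix (Fin (2 * k + 1)) (Fin (2 * k + 1)) ℂ) (l : Fin (2 * k + 1)),
      y l ⬝ᵥ (M X *ᵥ v l) = X l l * (y l ⬝ᵥ (M (Matrix.single l l 1) *ᵥ v l)) := by
    intro X l
    rw [pair_expand]
    exact KerM_one X (fun p q => y l ⬝ᵥ (M (Matrix.single p q 1) *ᵥ v l)) l
      (fun p q hpq => (h l l p q hpq).elim id id)
  -- vanishing pairings
  have hzero : ∀ (X : Matrix (Fin (2 * k + 1)) (Fin (2 * k + 1)) ℂ) (i j : Fin (2 * k + 1)),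
      X i j = 0 → X j i = 0 → y i ⬝ᵥ (M X *ᵥ v j) = 0 := by
    intro X i j h1 h2
    rw [pair_expand]
    exact KerM_two X (fun p q => y i ⬝ᵥ (M (Matrix.single p q 1) *ᵥ v j)) i j
      (fun p q hpq => h i j p q hpq) h1 h2
  -- (1) the diagonal coefficients are not zero
  have hb : ∀ l, y l ⬝ᵥ (M (Matrix.single l l 1) *ᵥ v l) ≠ 0 := by
    intro l hl
    obtain ⟨A, -, hA1, hA2, hF⟩ := exists_skew k l
    have h1 := (pair_iff hc hdet rk (A + Matrix.single l l 1)).1 hF (v l) (hv l)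
    apply ind.ne_zero l
    apply h1
    apply hall
    intro i
    by_cases hi : i = l
    · subst hi
      rw [hdiag, hl, mul_zero]
    · apply hzero
      · rw [Matrix.add_apply, hA1, Matrix.single_apply, if_neg (fun h' => hi h'.1.symm), add_zero]
      · rw [Matrix.add_apply, hA2, Matrix.single_apply, if_neg (fun h' => hi h'.2.symm), add_zero]
  -- (2) the final contradiction
  obtain ⟨J, i₀, i₁, i₂, h10, h20, h12, hJ1, hJ2, hFJ⟩ := exists_J hk
  set b₁ := y i₁ ⬝ᵥ (M (Matrix.single i₁ i₁ 1) *ᵥ v i₁) with hb₁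
  set b₂ := y i₂ ⬝ᵥ (M (Matrix.single i₂ i₂ 1) *ᵥ v i₂) with hb₂
  set β := y i₁ ⬝ᵥ (M J *ᵥ v i₂) with hβ
  set γ := y i₂ ⬝ᵥ (M J *ᵥ v i₁) with hγ
  have hb1 : b₁ ≠ 0 := hb i₁
  have hb2 : b₂ ≠ 0 := hb i₂
  let d : Fin (2 * k + 1) → ℂ := fun i =>
    if i = i₀ then 1 else if i = i₁ then 1 else if i = i₂ then γ * β / (b₁ * b₂) else 0
  have hd0 : d i₀ = 1 := if_pos rfl
  have hd1 : d i₁ = 1 := by
    show (if i₁ = i₀ then (1 : ℂ) else if i₁ = i₁ then 1 else _) = 1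
    rw [if_neg h10, if_pos rfl]
  have hd2 : d i₂ = γ * β / (b₁ * b₂) := by
    show (if i₂ = i₀ then (1 : ℂ) else if i₂ = i₁ then 1 else if i₂ = i₂ then _ else _) = _
    rw [if_neg h20, if_neg (Ne.symm h12), if_pos rfl]
  have hdz : ∀ i, i ≠ i₀ → i ≠ i₁ → i ≠ i₂ → d i = 0 := by
    intro i h0 h1 h2
    show (if i = i₀ then (1 : ℂ) else if i = i₁ then 1 else if i = i₂ then _ else 0) = 0
    rw [if_neg h0, if_neg h1, if_neg h2]
  have hF := hFJ d hdz (by rw [hd0]; exact one_ne_zero)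
  -- pairings with different indices do not see the diagonal
  have hoff : ∀ i j, i ≠ j → y i ⬝ᵥ (M (J + Matrix.diagonal d) *ᵥ v j) =
      y i ⬝ᵥ (M J *ᵥ v j) := by
    intro i j hij
    have h0 : y i ⬝ᵥ (M (Matrix.diagonal d) *ᵥ v j) = 0 :=
      hzero _ i j (Matrix.diagonal_apply_ne _ hij) (Matrix.diagonal_apply_ne _ hij.symm)
    rw [map_add, Matrix.add_mulVec, dotProduct_add, h0, add_zero]
  have p11 : y i₁ ⬝ᵥ (M (J + Matrix.diagonal d) *ᵥ v i₁) = b₁ := by
    rw [hdiag, Matrix.add_apply, (hJ1 i₁ h12).1, zero_add, Matrix.diagonal_apply_eq, hd1, one_mul]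
  have p22 : y i₂ ⬝ᵥ (M (J + Matrix.diagonal d) *ᵥ v i₂) = d i₂ * b₂ := by
    rw [hdiag, Matrix.add_apply, (hJ2 i₂ h12.symm).1, zero_add, Matrix.diagonal_apply_eq]
  have p12 : y i₁ ⬝ᵥ (M (J + Matrix.diagonal d) *ᵥ v i₂) = β := hoff _ _ h12
  have p21 : y i₂ ⬝ᵥ (M (J + Matrix.diagonal d) *ᵥ v i₁) = γ := hoff _ _ h12.symm
  have hx : L *ᵥ (β • v i₁ - b₁ • v i₂) = 0 := by
    rw [Matrix.mulVec_sub, Matrix.mulVec_smul, Matrix.mulVec_smul, hv, hv, smul_zero, smul_zero,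
      sub_zero]
  have key := (pair_iff hc hdet rk (J + Matrix.diagonal d)).1 hF (β • v i₁ - b₁ • v i₂) hx (by
    apply hall
    intro i
    rw [Matrix.mulVec_sub, Matrix.mulVec_smul, Matrix.mulVec_smul, dotProduct_sub,
      dotProduct_smul, dotProduct_smul, smul_eq_mul, smul_eq_mul]
    by_cases hi1 : i = i₁
    · subst hi1
      rw [p11, p12]
      ring
    · by_cases hi2 : i = i₂
      · subst hi2
        rw [p21, p22, hd2]
        field_simp
        ring
      · rw [hoff i i₁ hi1, hoff i i₂ hi2,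
          hzero J i i₁ (hJ1 i hi2).2 (hJ1 i hi2).1,
          hzero J i i₂ (hJ2 i hi1).2 (hJ2 i hi1).1]
        ring)
  have h3 := Fintype.linearIndependent_iff.1 ind
    (fun i => if i = i₁ then β else if i = i₂ then -b₁ else 0) (by
      rw [← key]
      have e1 : ∀ i, (if i = i₁ then β else if i = i₂ then -b₁ else 0) • v i =
          (if i = i₁ then β • v i else 0) + (if i = i₂ then -b₁ • v i else 0) := by
        intro i
        by_cases hi1 : i = i₁
        · subst hi1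
          rw [if_pos rfl, if_pos rfl, if_neg h12, add_zero]
        · rw [if_neg hi1, if_neg hi1, zero_add]
          by_cases hi2 : i = i₂
          · rw [if_pos hi2, if_pos hi2]
          · rw [if_neg hi2, if_neg hi2, zero_smul]
      rw [Finset.sum_congr rfl fun i _ => e1 i, Finset.sum_add_distrib, Finset.sum_ite_eq',
        Finset.sum_ite_eq', if_pos (Finset.mem_univ _), if_pos (Finset.mem_univ _), neg_smul,
        ← sub_eq_add_neg]) i₂
  rw [if_neg h12.symm, if_pos rfl] at h3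
  exact hb1 (neg_eq_zero.1 h3)

end PadDet.Eq
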