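import Mathlib

/-!
# MP_d7db32_ag, Eq/L/KerW: the possible weights

Evaluate the hypothesis at `i`, `j`, `p`, `q` and at a third index (`2 k + 1 ≥ 3`); for `e = 1` or `e = 2` in larger size use four
indices; or sum over all indices: `(2 k + 1) e = κ + 2` (`wtK`), `(2 k + 1) e + τ = κ + 2` (`wtD`).
-/

set_option autoImplicit false

namespace PadDet.Eq

private theorem third {k : ℕ} (hk : 1 ≤ k) (a b : Fin (2 * k + 1)) : ∃ l, l ≠ a ∧ l ≠ b := by
  by_contra hc
  push Not at hc
  have h1 : (Finset.univ : Finset (Fin (2 * k + 1))) ⊆ {a, b} := by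
    intro l _
    by_cases hl : l = a
    · simp [hl]
    · simp [hc l hl]
  have h2 := Finset.card_le_card h1
  have h3 : ({a, b} : Finset (Fin (2 * k + 1))).card ≤ 2 := Finset.card_le_two
  rw [Finset.card_univ, Fintype.card_fin] at h2
  omega

theorem wtK {k : ℕ} (hk : 1 ≤ k) {e κ : ℤ} (hκ : κ ≠ 0) {j p q : Fin (2 * k + 1)}
    (h : ∀ l, e = κ * (if l = j then 1 else 0) + (if l = p then 1 else 0) +
      (if l = q then 1 else 0)) : (κ = -2 → p = q) ∧ (κ ≠ -2 → p ≠ q) := by
  constructor
  · intro hk2
    obtain ⟨l, hl1, hl2⟩ := third hk j p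
    have h1 := h l
    have h2 := h j
    rw [if_neg hl1, if_neg hl2] at h1
    rw [if_pos rfl] at h2
    by_contra hpq
    by_cases hjp : j = p
    · have hjq : j ≠ q := fun hh => hpq (hjp.symm.trans hh)
      rw [if_pos hjp, if_neg hjq] at h2
      split_ifs at h1 <;> omega
    · rw [if_neg hjp] at h2
      split_ifs at h1 h2 <;> omega
  · intro hk2 hpq
    subst hpq
    obtain ⟨l, hl1, hl2⟩ := third hk j p
    have h1 := h l
    have h2 := h p
    rw [if_neg hl1, if_neg hl2] at h1
    rw [if_pos rfl] at h2
    split_ifs at h2 <;> omega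

theorem wtD {k : ℕ} (hk : 1 ≤ k) {e τ κ : ℤ} (hτ : τ ≠ 0) (hκ : κ ≠ 0)
    {i j p q : Fin (2 * k + 1)}
    (h : ∀ l, e + τ * (if l = i then 1 else 0) = κ * (if l = j then 1 else 0) +
      (if l = p then 1 else 0) + (if l = q then 1 else 0)) :
    (e = 0 ∧ τ = 1 ∧ κ = -1 → (p = i ∧ q = j) ∨ (p = j ∧ q = i)) ∧ (e = 1 → p ≠ q) ∧
      (e ≠ 1 → ¬ (e = 0 ∧ τ = 1 ∧ κ = -1) → p = q) := by
  refine ⟨?_, ?_, ?_⟩
  · rintro ⟨rfl, rfl, rfl⟩
    have hp := h p
    have hq := h q
    rw [if_pos (rfl : p = p)] at hp
    rw [if_pos (rfl : q = q)] at hq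
    by_cases hpi : p = i
    · left
      refine ⟨hpi, ?_⟩
      subst hpi
      by_contra hqj
      rw [if_neg hqj] at hq
      split_ifs at hq <;> omega
    · by_cases hpj : p = j
      · right
        refine ⟨hpj, ?_⟩
        subst hpj
        by_contra hqi
        rw [if_neg hqi] at hq
        split_ifs at hq <;> omega
      · rw [if_neg hpi, if_neg hpj] at hp
        split_ifs at hp <;> omega
  · rintro rfl hpq
    subst hpq
    have hp := h p
    rw [if_pos (rfl : p = p)] at hp
    obtain ⟨l, hl1, hl2⟩ := third hk i j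
    have hl := h l
    rw [if_neg hl1, if_neg hl2] at hl
    by_cases hpi : p = i
    · subst hpi
      rw [if_neg hl1] at hl
      omega
    · rw [if_neg hpi] at hp
      by_cases hpj : p = j
      · subst hpj
        rw [if_neg hl2] at hl
        omega
      · rw [if_neg hpj] at hp
        omega
  · intro he hne
    by_contra hpq
    apply hne
    have hqp : q ≠ p := fun hh => hpq hh.symm
    have hp := h p
    have hq := h q
    rw [if_pos (rfl : p = p), if_neg hpq] at hp
    rw [if_pos (rfl : q = q), if_neg hqp] at hq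
    by_cases hpi : p = i
    · subst hpi
      rw [if_neg hqp] at hq
      by_cases hqj : q = j
      · subst hqj
        obtain ⟨l, hl1, hl2⟩ := third hk p q
        have hl := h l
        rw [if_neg hl1, if_neg hl2] at hl
        rw [if_pos (rfl : p = p), if_neg hpq] at hp
        rw [if_pos (rfl : q = q)] at hq
        omega
      · rw [if_neg hqj] at hq
        omega
    · rw [if_neg hpi] at hp
      by_cases hpj : p = j
      · subst hpj
        rw [if_neg hqp] at hq
        by_cases hqi : q = i
        · subst hqi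
          obtain ⟨l, hl1, hl2⟩ := third hk p q
          have hl := h l
          rw [if_neg hl1, if_neg hl2] at hl
          rw [if_pos (rfl : p = p)] at hp
          rw [if_pos (rfl : q = q)] at hq
          omega
        · rw [if_neg hqi] at hq
          omega
      · rw [if_neg hpj] at hp
        omega

end PadDet.Eq
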