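import Pool.Agent.H.MP_d7db32_ag.Eq.L.KerB
import Pool.Agent.H.MP_d7db32_ag.Eq.L.KerM
import Pool.Agent.H.MP_d7db32_ag.Eq.L.KerW

/-!
# MP_d7db32_ag, Eq/L/KerC: rows and columns of a nonconstant weight

`pair_wt`: `y ⬝ (N *ᵥ x) ≠ 0` gives `b`, `a` with `y b ≠ 0`, `N b a ≠ 0`, `x a ≠ 0`; `gE`.
`not_lt`: suppose `<`. `ker_a`: `c₁ c₂ v`, `K`, `ω = wz c₁ c₂ j`; by `card_st` (with swaps; for `w` and `w'`) the inequality holds for all `wz c₁ c₂ j`.
Let `κ = c₂ - c₁`. Case 1: there is a left kernel vector `y ≠ 0` with all weights `θ`, `θ` not constant. By `left_wt` there are more rows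
than columns of weight `θ`, so `ker_a` for the transposed expression (`zs_tr`; weight `- θ`) gives `d₁ d₂` and `y i`, `w' b = wz (-d₁) (-d₂) i` for
`y i b ≠ 0`. Put `e = - d₁ - c₁`, `τ = d₁ - d₂`. By `pair_wt` and `wtD`: if `e = 0`, `τ = 1`, `κ = -1`: `no_main`; if `e = 1`: all pairings with
`single p p 1` vanish (for arbitrary `x`, `y`: expand in `v j`, `y i`): `no_diag`; otherwise `no_off`.
Case 2: all the weights of left kernel vectors are constant. Every left kernel vector is the sum of its parts (`left_part`), so by `pair_wt`, `wtK`: for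
`κ = -2` all the pairings with `single p q 1`, `p ≠ q`, vanish: `no_off`; otherwise `no_diag`.
`eqc`: `not_lt` for the expression and for the transposed one.
-/

set_option autoImplicit false

namespace PadDet.Eq

open Matrix

variable {k m : ℕ} {c : ℂ} {L : Matrix (Fin m) (Fin m) ℂ}
  {M : Matrix (Fin (2 * k + 1)) (Fin (2 * k + 1)) ℂ →ₗ[ℂ] Matrix (Fin m) (Fin m) ℂ}
  {w w' : Fin m → Fin (2 * k + 1) → ℤ}

private theorem kerc_dot {y x : Fin m → ℂ} {A : Matrix (Fin m) (Fin m) ℂ}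
    (h : y ⬝ᵥ (A *ᵥ x) ≠ 0) : ∃ b a, y b ≠ 0 ∧ A b a ≠ 0 ∧ x a ≠ 0 := by
  obtain ⟨b, -, hb⟩ := Finset.exists_ne_zero_of_sum_ne_zero h
  have hb2 : ∑ a, A b a * x a ≠ 0 := right_ne_zero_of_mul hb
  obtain ⟨a, -, ha⟩ := Finset.exists_ne_zero_of_sum_ne_zero hb2
  exact ⟨b, a, left_ne_zero_of_mul hb, left_ne_zero_of_mul ha, right_ne_zero_of_mul ha⟩

theorem pair_wt (h : Zs (2 * k + 1) m c L M w w') {x y : Fin m → ℂ}
    {ω θ : Fin (2 * k + 1) → ℤ} (hx : ∀ a, x a ≠ 0 → w a = ω) (hy : ∀ b, y b ≠ 0 → w' b = θ)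
    {p q : Fin (2 * k + 1)} (hpq : y ⬝ᵥ (M (Matrix.single p q 1) *ᵥ x) ≠ 0) :
    θ = ω + Pi.single p 1 + Pi.single q 1 := by
  obtain ⟨b, a, hb, hba, ha⟩ := kerc_dot hpq
  rw [← hx a ha, ← hy b hb]
  exact h.gE b a p q hba

private theorem kerc_val {c₁ c₂ : ℤ} (j l : Fin (2 * k + 1)) :
    wz c₁ c₂ j l = c₁ + (c₂ - c₁) * (if l = j then 1 else 0) := by
  unfold wz
  by_cases hl : l = j
  · rw [if_pos hl, if_pos hl]
    ring
  · rw [if_neg hl, if_neg hl]
    ring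

private theorem kerc_single (p l : Fin (2 * k + 1)) :
    (Pi.single p (1 : ℤ) : Fin (2 * k + 1) → ℤ) l = if l = p then 1 else 0 := by
  rw [Pi.single_apply]

private theorem kerc_swap {c₁ c₂ : ℤ} (j j₀ : Fin (2 * k + 1)) :
    (wz c₁ c₂ j : Fin (2 * k + 1) → ℤ) = wz c₁ c₂ j₀ ∘ Equiv.swap j j₀ := by
  funext l
  unfold wz
  rw [Function.comp_apply]
  refine if_congr ?_ rfl rfl
  rw [Equiv.swap_apply_eq_iff, Equiv.swap_apply_right]

private theorem kerc_lt (h : Zs (2 * k + 1) m c L M w w') {c₁ c₂ : ℤ} {j₀ : Fin (2 * k + 1)}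
    (hlt : Nat.card {b // w' b = wz c₁ c₂ j₀} < Nat.card {a // w a = wz c₁ c₂ j₀})
    (j : Fin (2 * k + 1)) :
    Nat.card {b // w' b = wz c₁ c₂ j} < Nat.card {a // w a = wz c₁ c₂ j} := by
  rw [kerc_swap j j₀, card_st h.st, card_st h.st']
  exact hlt

private theorem kerc_exp {N : Matrix (Fin m) (Fin m) ℂ} {c₁ c₂ : ℤ}
    {v : Fin (2 * k + 1) → Fin m → ℂ} (K : Kln m L w c₁ c₂ v) {y : Fin m → ℂ}
    (h0 : ∀ j, y ⬝ᵥ (N *ᵥ v j) = 0) {x : Fin m → ℂ} (hx : L *ᵥ x = 0) :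
    y ⬝ᵥ (N *ᵥ x) = 0 := by
  obtain ⟨ξ, rfl⟩ := K.span x hx
  rw [Matrix.mulVec_sum, dotProduct_sum]
  refine Finset.sum_eq_zero fun j _ => ?_
  rw [Matrix.mulVec_smul, dotProduct_smul, h0 j, smul_zero]

private theorem kerc_neg (f : Fin m → Fin (2 * k + 1) → ℤ) (ω : Fin (2 * k + 1) → ℤ) :
    Nat.card {a // (fun a i => - f a i) a = fun i => - ω i} = Nat.card {a // f a = ω} := by
  refine Nat.card_congr (Equiv.subtypeEquivRight fun a => ?_)
  constructor
  · intro h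
    funext i
    exact neg_injective (congrFun h i)
  · intro h
    funext i
    show - f a i = - ω i
    rw [h]

theorem not_lt_card (hk : 1 ≤ k) (h : Zs (2 * k + 1) m c L M w w') {ω : Fin (2 * k + 1) → ℤ}
    (hω : ∃ i j, ω i ≠ ω j) : ¬ Nat.card {b // w' b = ω} < Nat.card {a // w a = ω} := by
  intro hlt
  obtain ⟨c₁, c₂, v, K, j₀, rfl⟩ := ker_a hk h hω hlt
  have hall := kerc_lt h hlt
  have hκ : c₂ - c₁ ≠ 0 := sub_ne_zero.2 K.ne.symm
  by_cases H : ∃ (y : Fin m → ℂ) (θ : Fin (2 * k + 1) → ℤ), y ≠ 0 ∧ y ᵥ* L = 0 ∧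
      (∀ b, y b ≠ 0 → w' b = θ) ∧ ∃ i j, θ i ≠ θ j
  · obtain ⟨y, θ, hy0, hyL, hyw, i₁, i₂, hθ⟩ := H
    have h1 := left_wt h K hall hy0 hyL hyw
    have h' := zs_tr h
    have h2 : Nat.card {a // (fun a i => - w a i) a = fun i => - θ i} <
        Nat.card {b // (fun b i => - w' b i) b = fun i => - θ i} := by
      rw [kerc_neg, kerc_neg]
      exact h1
    obtain ⟨d₁, d₂, u, K', -⟩ := ker_a hk h' (ω := fun i => - θ i)
      ⟨i₁, i₂, fun he => hθ (neg_injective he)⟩ h2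
    have hτ : d₁ - d₂ ≠ 0 := sub_ne_zero.2 K'.ne
    have huL : ∀ i, u i ᵥ* L = 0 := by
      intro i
      rw [← Matrix.mulVec_transpose]
      exact K'.ker i
    have huw : ∀ i b, u i b ≠ 0 → w' b = fun l => - wz d₁ d₂ i l := by
      intro i b hb
      funext l
      have := congrFun (K'.wt i b hb) l
      rw [← this, neg_neg]
    have hsp : ∀ z, z ᵥ* L = 0 → ∃ η : Fin (2 * k + 1) → ℂ, z = ∑ i, η i • u i := by
      intro z hz
      refine K'.span z ?_
      rw [Matrix.mulVec_transpose]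
      exact hz
    have key : ∀ i j p q, u i ⬝ᵥ (M (Matrix.single p q 1) *ᵥ v j) ≠ 0 →
        ((- d₁ - c₁ = 0 ∧ d₁ - d₂ = 1 ∧ c₂ - c₁ = -1 → (p = i ∧ q = j) ∨ (p = j ∧ q = i)) ∧
        (- d₁ - c₁ = 1 → p ≠ q) ∧ (- d₁ - c₁ ≠ 1 →
          ¬ (- d₁ - c₁ = 0 ∧ d₁ - d₂ = 1 ∧ c₂ - c₁ = -1) → p = q)) := by
      intro i j p q hne
      have h3 := pair_wt h (K.wt j) (huw i) hne
      refine wtD hk hτ hκ fun l => ?_
      have h4 := congrFun h3 l
      rw [Pi.add_apply, Pi.add_apply, kerc_single, kerc_single, kerc_val, kerc_val] at h4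
      linear_combination h4
    have hexp : ∀ (N : Matrix (Fin m) (Fin m) ℂ), (∀ i j, u i ⬝ᵥ (N *ᵥ v j) = 0) →
        ∀ x y, L *ᵥ x = 0 → y ᵥ* L = 0 → y ⬝ᵥ (N *ᵥ x) = 0 := by
      intro N hN x z hx hz
      refine kerc_exp K (fun j => ?_) hx
      obtain ⟨η, rfl⟩ := hsp z hz
      rw [sum_dotProduct]
      refine Finset.sum_eq_zero fun i _ => ?_
      rw [smul_dotProduct, hN i j, smul_zero]
    by_cases hA : - d₁ - c₁ = 0 ∧ d₁ - d₂ = 1 ∧ c₂ - c₁ = -1
    · exact no_main hk h.c0 h.det K.rk v u K.ind K.ker huL hsp fun i j p q hne =>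
        (key i j p q hne).1 hA
    · by_cases hB : - d₁ - c₁ = 1
      · refine no_diag h.c0 h.det K.rk fun p x z hx hz => hexp _ (fun i j => ?_) x z hx hz
        by_contra hne
        exact (key i j p p hne).2.1 hB rfl
      · refine no_off hk h.c0 h.det K.rk fun p q hpq x z hx hz =>
          hexp _ (fun i j => ?_) x z hx hz
        by_contra hne
        exact hpq ((key i j p q hne).2.2 hB hA)
  · have key : ∀ y, y ᵥ* L = 0 → ∀ j p q, y ⬝ᵥ (M (Matrix.single p q 1) *ᵥ v j) ≠ 0 →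
        (c₂ - c₁ = -2 → p = q) ∧ (c₂ - c₁ ≠ -2 → p ≠ q) := by
      intro y hy j p q hne
      obtain ⟨b, a, hb, hba, ha⟩ := kerc_dot hne
      have h3 := h.gE b a p q hba
      rw [K.wt j a ha] at h3
      have hcst : ∀ l l', w' b l = w' b l' := by
        intro l l'
        by_contra hll
        refine H ⟨_, w' b, ?_, left_part h hy (w' b), ?_, l, l', hll⟩
        · intro h0
          have h5 := congrFun h0 b
          simp only [if_true, Pi.zero_apply] at h5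
          exact hb h5
        · intro b' hb'
          by_contra hne'
          exact hb' (if_neg hne')
      refine wtK hk (e := w' b 0 - c₁) hκ (j := j) fun l => ?_
      have h4 := congrFun h3 l
      rw [Pi.add_apply, Pi.add_apply, kerc_single, kerc_single, kerc_val, hcst l 0] at h4
      linear_combination h4
    by_cases hA : c₂ - c₁ = -2
    · refine no_off hk h.c0 h.det K.rk fun p q hpq x z hx hz => kerc_exp K (fun j => ?_) hx
      by_contra hne
      exact hpq ((key z hz j p q hne).1 hA)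
    · refine no_diag h.c0 h.det K.rk fun p x z hx hz => kerc_exp K (fun j => ?_) hx
      by_contra hne
      exact (key z hz j p p hne).2 hA rfl

theorem eqc (hk : 1 ≤ k) (h : Zs (2 * k + 1) m c L M w w') {ω : Fin (2 * k + 1) → ℤ}
    (hω : ∃ i j, ω i ≠ ω j) : Nat.card {a // w a = ω} = Nat.card {b // w' b = ω} := by
  refine le_antisymm (not_lt.1 (not_lt_card hk h hω)) ?_
  obtain ⟨i, j, hij⟩ := hω
  have h1 := not_lt_card hk (zs_tr h) (ω := fun i => - ω i)
    ⟨i, j, fun he => hij (neg_injective he)⟩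
  rw [kerc_neg, kerc_neg] at h1
  exact not_lt.1 h1

end PadDet.Eq
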