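import Pool.Agent.H.MP_d7db32_ag.Eq.L.Off
import Pool.Agent.H.MP_d7db32_ag.Eq.S1

/-!
# MP_d7db32_ag, Eq/L/KerP: the pairing of the kernels

`pair_iff`: `s1` (S1) for `L`, `M X`, `F := c * Fv X`, `Fv_smul`.
`no_diag`: `A`, `k₀ = 0` from `exists_skew`; `F (A + E₀₀) ≠ 0`; the pairing of `A + E₀₀` is the one of `A` (`hP`), so
`F A ≠ 0` by `pair_iff`, but `Fv_skew`.
`no_off`: `X` from `exists_off`: all pairings at `X` are zero (`hQ`, `lin_single`), so every kernel vector is zero by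
`pair_iff`, but the kernel is not zero (`rk`).
-/

set_option autoImplicit false

namespace PadDet.Eq

open Matrix

variable {k m : ℕ} {c : ℂ} {L : Matrix (Fin m) (Fin m) ℂ}
  {M : Matrix (Fin (2 * k + 1)) (Fin (2 * k + 1)) ℂ →ₗ[ℂ] Matrix (Fin m) (Fin m) ℂ}

theorem pair_iff (hc : c ≠ 0) (hdet : ∀ X, (L + M X).det = c * Fv X)
    (rk : m = L.rank + (2 * k + 1)) (X : Matrix (Fin (2 * k + 1)) (Fin (2 * k + 1)) ℂ) :
    Fv X ≠ 0 ↔ ∀ x, L *ᵥ x = 0 → (∀ y, y ᵥ* L = 0 → y ⬝ᵥ (M X *ᵥ x) = 0) → x = 0 := by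
  have h : ∀ t : ℂ, (L + t • M X).det = t ^ (2 * k + 1) * (c * Fv X) := fun t => by
    rw [← map_smul, hdet, Fv_smul (Nat.succ_pos (2 * k))]
    exact mul_left_comm _ _ _
  rw [← (s1 L (M X) (c * Fv X) h).2 rk]
  constructor
  · exact fun h1 => mul_ne_zero hc h1
  · exact fun h1 h2 => h1 (by rw [h2, mul_zero])

theorem no_diag (hc : c ≠ 0) (hdet : ∀ X, (L + M X).det = c * Fv X)
    (rk : m = L.rank + (2 * k + 1))
    (hP : ∀ p x y, L *ᵥ x = 0 → y ᵥ* L = 0 → y ⬝ᵥ (M (Matrix.single p p 1) *ᵥ x) = 0) :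
    False := by
  obtain ⟨A, hA, -, -, hF⟩ := exists_skew k 0
  refine (pair_iff hc hdet rk A).2 (fun x hx hy => ?_) (Fv_skew A hA)
  refine (pair_iff hc hdet rk (A + Matrix.single 0 0 1)).1 hF x hx (fun y hyL => ?_)
  rw [map_add, Matrix.add_mulVec, dotProduct_add, hy y hyL, hP 0 x y hx hyL, add_zero]

theorem no_off (hk : 1 ≤ k) (hc : c ≠ 0) (hdet : ∀ X, (L + M X).det = c * Fv X)
    (rk : m = L.rank + (2 * k + 1))
    (hQ : ∀ p q, p ≠ q → ∀ x y, L *ᵥ x = 0 → y ᵥ* L = 0 →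
      y ⬝ᵥ (M (Matrix.single p q 1) *ᵥ x) = 0) : False := by
  obtain ⟨X, hX, hF⟩ := exists_off hk
  have h1 := (pair_iff hc hdet rk X).1 hF
  have h2 : ∀ x, L *ᵥ x = 0 → x = 0 := by
    intro x hx
    refine h1 x hx (fun y hy => ?_)
    rw [lin_single M X]
    simp only [Matrix.sum_mulVec, Matrix.smul_mulVec, dotProduct_sum, dotProduct_smul]
    refine Finset.sum_eq_zero (fun i _ => Finset.sum_eq_zero (fun j _ => ?_))
    by_cases hij : i = j
    · subst hij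
      rw [hX, zero_smul]
    · rw [hQ i j hij x y hx hy, smul_zero]
  have h3 : L.det = 0 := by
    have h4 := hdet 0
    have h5 : Fv (0 : Matrix (Fin (2 * k + 1)) (Fin (2 * k + 1)) ℂ) = 0 :=
      Fv_skew 0 (by simp)
    rwa [map_zero, add_zero, h5, mul_zero] at h4
  obtain ⟨v, hv, hv0⟩ := Matrix.exists_mulVec_eq_zero_iff.2 h3
  exact hv (h2 v hv0)

end PadDet.Eq
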