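import Pool.Agent.H.MP_d7db32_ag.Eq.L.Pol

/-!
# MP_d7db32_ag, Eq/L/Off: a matrix with zero diagonal on which the form is not zero

`A` from `exists_skew k 0` (row and column `0` are zero, `F (A + E₀₀) ≠ 0`), `g = 1 + E₀₁`, `Y = E₀₁ + E₁₀`, `X = g A gᵀ + Y` (zero diagonal, `g A gᵀ` is skew).
`X = g (A + Y - 2 E₀₀) gᵀ` (compute `g Y gᵀ = Y + 2 E₀₀`, `g E₀₀ gᵀ = E₀₀`), so `F X = F (A + Y - 2 E₀₀)` (`Fv_act` with `(g, 1)`, `det g = 1`), and this
is `tr (adj (2 A) (2 Y - 4 E₀₀))`, where the only nonzero entry of `adj (2 A)` is the one at `0 0` (row and column `0` of `A` are zero), so it is `-2 F (A + E₀₀)`.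
Any correct proof will do.
-/

set_option autoImplicit false

namespace PadDet.Eq

open Matrix

variable {k : ℕ}

private theorem Fv_sym {n : ℕ} {z : Fin n} {A S : Matrix (Fin n) (Fin n) ℂ} (hA : Aᵀ = -A)
    (hS : Sᵀ = S) (hc : ∀ i, A i z = 0) (hr : ∀ i, A z i = 0) :
    Fv (A + S) = (A + A).adjugate z z * (2 * S z z) := by
  unfold Fv
  have h1 : (A + S) - (A + S)ᵀ = A + A := by
    rw [Matrix.transpose_add, hA, hS]
    abel
  have h2 : (A + S) + (A + S)ᵀ = S + S := by
    rw [Matrix.transpose_add, hA, hS]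
    abel
  have hz : ∀ i j, (i ≠ z ∨ j ≠ z) → (A + A).adjugate i j = 0 := by
    intro i j hij
    rw [Matrix.adjugate_apply]
    by_cases hj : j = z
    · subst hj
      have hi : i ≠ j := by
        rcases hij with h | h
        · exact h
        · exact absurd rfl h
      apply Matrix.det_eq_zero_of_column_eq_zero j
      intro a
      by_cases ha : a = j
      · subst ha
        rw [Matrix.updateRow_self, Pi.single_eq_of_ne (Ne.symm hi)]
      · rw [Matrix.updateRow_ne ha, Matrix.add_apply, hc, add_zero]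
    · apply Matrix.det_eq_zero_of_row_eq_zero z
      intro a
      rw [Matrix.updateRow_ne (Ne.symm hj), Matrix.add_apply, hr, add_zero]
  rw [h1, h2]
  unfold Matrix.trace
  rw [Finset.sum_eq_single z]
  · rw [Matrix.diag_apply, Matrix.mul_apply, Finset.sum_eq_single z]
    · rw [Matrix.add_apply, two_mul]
    · intro j _ hj
      rw [hz z j (Or.inr hj), zero_mul]
    · intro h
      exact absurd (Finset.mem_univ z) h
  · intro i _ hi
    rw [Matrix.diag_apply, Matrix.mul_apply]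
    exact Finset.sum_eq_zero fun j _ => by rw [hz i j (Or.inl hi), zero_mul]
  · intro h
    exact absurd (Finset.mem_univ z) h

private theorem act_one {n : ℕ} (g : GL (Fin n) ℂ) (X : Matrix (Fin n) (Fin n) ℂ) :
    act (g, 1) X = (g : Matrix (Fin n) (Fin n) ℂ) * X * (g : Matrix (Fin n) (Fin n) ℂ)ᵀ := by
  have e : ((1 / 2 : ℂ) • (X - Xᵀ) + (((1 : ℂˣ) : ℂ) / 2) • (X + Xᵀ)) = X := by
    rw [Units.val_one]
    module
  unfold act
  simp only [e]

/-- There is a matrix with zero diagonal on which the form is not zero. -/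
theorem exists_off (hk : 1 ≤ k) : ∃ X : Matrix (Fin (2 * k + 1)) (Fin (2 * k + 1)) ℂ,
    (∀ i, X i i = 0) ∧ Fv X ≠ 0 := by
  obtain ⟨z, hz⟩ : ∃ z : Fin (2 * k + 1), z = ⟨0, by omega⟩ := ⟨_, rfl⟩
  obtain ⟨o, ho⟩ : ∃ o : Fin (2 * k + 1), o = ⟨1, by omega⟩ := ⟨_, rfl⟩
  have hzo : z ≠ o := by
    rw [hz, ho]
    intro h
    exact absurd (congrArg Fin.val h) (by norm_num)
  obtain ⟨A, hA, hc, hr, hF⟩ := exists_skew k z
  obtain ⟨T, hT⟩ : ∃ T : Matrix (Fin (2 * k + 1)) (Fin (2 * k + 1)) ℂ,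
      T = Matrix.single z o 1 := ⟨_, rfl⟩
  have hTT : T * T = 0 := by
    rw [hT, Matrix.single_mul_single_of_ne]
    exact Ne.symm hzo
  let g : GL (Fin (2 * k + 1)) ℂ :=
    { val := 1 + T
      inv := 1 - T
      val_inv := by
        rw [Matrix.mul_sub, Matrix.mul_one, Matrix.add_mul, Matrix.one_mul, hTT]
        abel
      inv_val := by
        rw [Matrix.mul_add, Matrix.mul_one, Matrix.sub_mul, Matrix.one_mul, hTT]
        abel }
  have hg : (g : Matrix (Fin (2 * k + 1)) (Fin (2 * k + 1)) ℂ) = 1 + T := rfl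
  have hTt : Tᵀ = Matrix.single o z 1 := by
    rw [hT, Matrix.transpose_single]
  have hE : T * Tᵀ = Matrix.single z z 1 := by
    rw [hTt, hT, Matrix.single_mul_single_same, mul_one]
  obtain ⟨E, hEd⟩ : ∃ E : Matrix (Fin (2 * k + 1)) (Fin (2 * k + 1)) ℂ,
      E = Matrix.single z z 1 := ⟨_, rfl⟩
  rw [← hEd] at hE hF
  have hTE : T * E = 0 := by
    rw [hT, hEd, Matrix.single_mul_single_of_ne]
    exact Ne.symm hzo
  have hET : E * Tᵀ = 0 := by
    rw [hTt, hEd, Matrix.single_mul_single_of_ne]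
    exact hzo
  have hTtT : Tᵀ * Tᵀ = 0 := by
    rw [← Matrix.transpose_mul, hTT, Matrix.transpose_zero]
  have hEt : Eᵀ = E := by
    rw [hEd, Matrix.transpose_single]
  have hEE : E z z = 1 := by
    rw [hEd, Matrix.single_apply_same]
  have hS : (T + Tᵀ - 2 • E)ᵀ = T + Tᵀ - 2 • E := by
    rw [Matrix.transpose_sub, Matrix.transpose_add, Matrix.transpose_transpose,
      Matrix.transpose_smul, hEt, add_comm Tᵀ T]
  have hTzz : T z z = 0 := by
    rw [hT, Matrix.single_apply, if_neg]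
    rintro ⟨-, h⟩
    exact hzo h.symm
  have key : act (g, 1) (A + (T + Tᵀ - 2 • E)) = (1 + T) * A * (1 + T)ᵀ + (T + Tᵀ) := by
    rw [act_one, hg, Matrix.mul_add, Matrix.add_mul]
    congr 1
    have e1 : (1 + T) * (T + Tᵀ - 2 • E) = T + Tᵀ - E := by
      rw [Matrix.add_mul, Matrix.one_mul, Matrix.mul_sub, Matrix.mul_add, hTT, hE,
        Matrix.mul_smul, hTE]
      module
    rw [e1, Matrix.transpose_add, Matrix.transpose_one, Matrix.mul_add, Matrix.mul_one,
      Matrix.sub_mul, Matrix.add_mul, hE, hTtT, hET]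
    abel
  refine ⟨(1 + T) * A * (1 + T)ᵀ + (T + Tᵀ), ?_, ?_⟩
  · intro i
    have h1 : ((1 + T) * A * (1 + T)ᵀ)ᵀ = -((1 + T) * A * (1 + T)ᵀ) := by
      rw [Matrix.transpose_mul, Matrix.transpose_mul, Matrix.transpose_transpose, hA,
        Matrix.neg_mul, Matrix.mul_neg, Matrix.mul_assoc]
    have h2 := congrFun (congrFun h1 i) i
    rw [Matrix.transpose_apply, Matrix.neg_apply] at h2
    have h3 := self_eq_neg.1 h2
    have h5 : T i i = 0 := by
      rw [hT, Matrix.single_apply, if_neg]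
      rintro ⟨ha, hb⟩
      exact hzo (ha.trans hb.symm)
    rw [Matrix.add_apply, h3, Matrix.add_apply, Matrix.transpose_apply, h5, add_zero, add_zero]
  · rw [← key, Fv_act]
    have hd : (g : Matrix (Fin (2 * k + 1)) (Fin (2 * k + 1)) ℂ).det ≠ 0 := by
      have h1 := congrArg Matrix.det g.mul_inv
      rw [Matrix.det_mul, Matrix.det_one] at h1
      intro h
      rw [h, zero_mul] at h1
      exact zero_ne_one h1
    have h1 := Fv_sym hA hEt hc hr
    have h2 := Fv_sym hA hS hc hr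
    rw [h1, hEE, mul_one] at hF
    have h3 : (A + A).adjugate z z ≠ 0 := left_ne_zero_of_mul hF
    rw [h2, Units.val_one, mul_one]
    refine mul_ne_zero (pow_ne_zero _ hd) (mul_ne_zero h3 ?_)
    rw [Matrix.sub_apply, Matrix.add_apply, Matrix.transpose_apply, Matrix.smul_apply, hTzz, hEE]
    norm_num

end PadDet.Eq
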