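import Pool.Agent.H.MP_d7db32_ag.Eq.L.Asm
import Pool.Agent.H.MP_d7db32_ag.Eq.L.Gex

/-!
# MP_d7db32_ag, Eq/L/Pt: the bound in the sense of Landsberg and Ressayre

`PExpr`: for every `h` in `H` the group element of the determinant: `A, B` in `GL_m`, with or without transposition.
`Mor L M g A B` for `A (L + M X) = (L + M (g X)) B` (multiply with `B`). `act (g, 1) X = g X gᵀ`. `tor t = act (diagonal t, 1)`, `prm σ = act (permutation matrix, 1)` for
`σ` or its inverse (`Equiv.Perm.permMatrix`; see `act_p` in S9).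
`low_pt0`: `t` from `exists_gen` (module Ctb); `lowP`.
`low_pt`: for a square `g = s ^ 2` the element `(g, 1)` has the form without transposition (if `s` has the form with transposition, apply it twice:
`L + M (s s X) = A (A (L + M X)ᵀ B⁻¹)ᵀ B⁻¹`). The diagonal matrix `t` is the square of a diagonal matrix with entries square roots of the `t i`. A transposition matrix `P`
(`P ^ 2 = 1`) is the square of `((1 + i) / 2) 1 + ((1 - i) / 2) P`. The equivariance without transposition is stable under composition, and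
every permutation is a product of transpositions (`Equiv.Perm.swap_induction_on`).
-/

set_option autoImplicit false

namespace PadDet.Eq

open Matrix MvPolynomial

variable {n : ℕ}

/-- `f X = det (L + M X)` is a determinant expression of size `m`; for every `h` in `H` the
expression of `f (h X)` is obtained from `L + M X` by a symmetry of the determinant. -/
structure PExpr (m : ℕ) (f : MvPolynomial (Fin n × Fin n) ℂ)
    (H : Subgroup (GL (Fin n) ℂ × ℂˣ)) (L : Matrix (Fin m) (Fin m) ℂ)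
    (M : Matrix (Fin n) (Fin n) ℂ →ₗ[ℂ] Matrix (Fin m) (Fin m) ℂ) : Prop where
  det : ∀ X : Matrix (Fin n) (Fin n) ℂ, (L + M X).det = eval (fun p => X p.1 p.2) f
  eqv : ∀ h ∈ H, ∃ A B : GL (Fin m) ℂ,
    (∀ X : Matrix (Fin n) (Fin n) ℂ, L + M (act h X) =
      (A : Matrix (Fin m) (Fin m) ℂ) * (L + M X) * ((B⁻¹ : GL (Fin m) ℂ) : Matrix (Fin m) (Fin m) ℂ)) ∨
    (∀ X : Matrix (Fin n) (Fin n) ℂ, L + M (act h X) =
      (A : Matrix (Fin m) (Fin m) ℂ) * (L + M X)ᵀ * ((B⁻¹ : GL (Fin m) ℂ) : Matrix (Fin m) (Fin m) ℂ))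

theorem Expr.pexpr {m : ℕ} {f : MvPolynomial (Fin n × Fin n) ℂ}
    {H : Subgroup (GL (Fin n) ℂ × ℂˣ)} {L : Matrix (Fin m) (Fin m) ℂ}
    {M : Matrix (Fin n) (Fin n) ℂ →ₗ[ℂ] Matrix (Fin m) (Fin m) ℂ} {ρ ρ' : H →* GL (Fin m) ℂ}
    (h : Expr m f H L M ρ ρ') : PExpr m f H L M where
  det := h.det
  eqv := fun g hg => ⟨ρ' ⟨g, hg⟩, ρ ⟨g, hg⟩, Or.inl fun X => h.eqv ⟨g, hg⟩ X⟩

private theorem Pt_comp {m : ℕ} {L : Matrix (Fin m) (Fin m) ℂ}
    {M : Matrix (Fin n) (Fin n) ℂ →ₗ[ℂ] Matrix (Fin m) (Fin m) ℂ}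
    {f g : Matrix (Fin n) (Fin n) ℂ → Matrix (Fin n) (Fin n) ℂ} (hf : Eqv L M f)
    (hg : Eqv L M g) : Eqv L M (fun X => f (g X)) := by
  obtain ⟨A, B, hA, hB, h⟩ := hf
  obtain ⟨A', B', hA', hB', h'⟩ := hg
  refine ⟨A * A', B * B', ?_, ?_, fun X => ?_⟩
  · rw [Matrix.det_mul]
    exact mul_ne_zero hA hA'
  · rw [Matrix.det_mul]
    exact mul_ne_zero hB hB'
  · rw [Matrix.mul_assoc, h' X, ← Matrix.mul_assoc, h (g X), Matrix.mul_assoc]

private theorem Pt_act (g : GL (Fin n) ℂ) (X : Matrix (Fin n) (Fin n) ℂ) :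
    act (g, 1) X = (g : Matrix (Fin n) (Fin n) ℂ) * X * (g : Matrix (Fin n) (Fin n) ℂ)ᵀ := by
  have e : ((1 / 2 : ℂ) • (X - Xᵀ) + (((1 : ℂˣ) : ℂ) / 2) • (X + Xᵀ)) = X := by
    rw [Units.val_one]
    module
  unfold act
  simp only [e]

private theorem Pt_act2 (g : GL (Fin n) ℂ) (X : Matrix (Fin n) (Fin n) ℂ) :
    (g : Matrix (Fin n) (Fin n) ℂ) * (g : Matrix (Fin n) (Fin n) ℂ) * X *
      ((g : Matrix (Fin n) (Fin n) ℂ) * (g : Matrix (Fin n) (Fin n) ℂ))ᵀ =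
      act (g, 1) (act (g, 1) X) := by
  rw [Pt_act, Pt_act, Matrix.transpose_mul]
  simp only [Matrix.mul_assoc]

private theorem Pt_det {m : ℕ} {a b : Matrix (Fin m) (Fin m) ℂ} (h : a * b = 1) : a.det ≠ 0 := by
  intro h0
  have h1 := congrArg Matrix.det h
  rw [Matrix.det_mul, h0, zero_mul, Matrix.det_one] at h1
  exact zero_ne_one h1

private theorem Pt_sq {m : ℕ} {L : Matrix (Fin m) (Fin m) ℂ}
    {M : Matrix (Fin n) (Fin n) ℂ →ₗ[ℂ] Matrix (Fin m) (Fin m) ℂ} {g : GL (Fin n) ℂ}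
    (h : ∃ A B : GL (Fin m) ℂ,
    (∀ X : Matrix (Fin n) (Fin n) ℂ, L + M (act (g, 1) X) =
      (A : Matrix (Fin m) (Fin m) ℂ) * (L + M X) * ((B⁻¹ : GL (Fin m) ℂ) : Matrix (Fin m) (Fin m) ℂ)) ∨
    (∀ X : Matrix (Fin n) (Fin n) ℂ, L + M (act (g, 1) X) =
      (A : Matrix (Fin m) (Fin m) ℂ) * (L + M X)ᵀ * ((B⁻¹ : GL (Fin m) ℂ) : Matrix (Fin m) (Fin m) ℂ))) :
    Eqv L M (fun X => (g : Matrix (Fin n) (Fin n) ℂ) * (g : Matrix (Fin n) (Fin n) ℂ) * X *
      ((g : Matrix (Fin n) (Fin n) ℂ) * (g : Matrix (Fin n) (Fin n) ℂ))ᵀ) := by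
  simp only [Pt_act2]
  obtain ⟨A, B, h⟩ := h
  have hA : (A : Matrix (Fin m) (Fin m) ℂ) * ((A⁻¹ : GL (Fin m) ℂ) : Matrix (Fin m) (Fin m) ℂ) = 1 := by
    rw [← Units.val_mul, mul_inv_cancel, Units.val_one]
  have hA' : ((A⁻¹ : GL (Fin m) ℂ) : Matrix (Fin m) (Fin m) ℂ) * (A : Matrix (Fin m) (Fin m) ℂ) = 1 := by
    rw [← Units.val_mul, inv_mul_cancel, Units.val_one]
  have hB : (B : Matrix (Fin m) (Fin m) ℂ) * ((B⁻¹ : GL (Fin m) ℂ) : Matrix (Fin m) (Fin m) ℂ) = 1 := by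
    rw [← Units.val_mul, mul_inv_cancel, Units.val_one]
  have hB' : ((B⁻¹ : GL (Fin m) ℂ) : Matrix (Fin m) (Fin m) ℂ) * (B : Matrix (Fin m) (Fin m) ℂ) = 1 := by
    rw [← Units.val_mul, inv_mul_cancel, Units.val_one]
  generalize (A : Matrix (Fin m) (Fin m) ℂ) = a at h hA hA'
  generalize ((A⁻¹ : GL (Fin m) ℂ) : Matrix (Fin m) (Fin m) ℂ) = a' at hA hA'
  generalize (B : Matrix (Fin m) (Fin m) ℂ) = b at hB hB'
  generalize ((B⁻¹ : GL (Fin m) ℂ) : Matrix (Fin m) (Fin m) ℂ) = b' at h hB hB'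
  rcases h with h | h
  · refine ⟨a * a, b * b, ?_, ?_, fun X => ?_⟩
    · rw [Matrix.det_mul]
      exact mul_ne_zero (Pt_det hA) (Pt_det hA)
    · rw [Matrix.det_mul]
      exact mul_ne_zero (Pt_det hB) (Pt_det hB)
    · rw [h, h]
      have e : a * (a * (L + M X) * b') * b' * (b * b) =
          a * a * (L + M X) * (b' * ((b' * b) * b)) := by
        simp only [Matrix.mul_assoc]
      rw [e, hB', Matrix.one_mul, hB', Matrix.mul_one]
  · refine ⟨a * b'ᵀ, b * a'ᵀ, ?_, ?_, fun X => ?_⟩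
    · rw [Matrix.det_mul, Matrix.det_transpose]
      exact mul_ne_zero (Pt_det hA) (Pt_det hB')
    · rw [Matrix.det_mul, Matrix.det_transpose]
      exact mul_ne_zero (Pt_det hB) (Pt_det hA')
    · rw [h, h, Matrix.transpose_mul, Matrix.transpose_mul, Matrix.transpose_transpose]
      have e : a * (b'ᵀ * ((L + M X) * aᵀ)) * b' * (b * a'ᵀ) =
          a * b'ᵀ * (L + M X) * (aᵀ * ((b' * b) * a'ᵀ)) := by
        simp only [Matrix.mul_assoc]
      rw [e, hB', Matrix.one_mul, ← Matrix.transpose_mul, hA', Matrix.transpose_one,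
        Matrix.mul_one]

private theorem Pt_swap (x y : Fin n) : ∃ g : GL (Fin n) ℂ,
    (g : Matrix (Fin n) (Fin n) ℂ) * (g : Matrix (Fin n) (Fin n) ℂ) =
      (Equiv.swap x y).permMatrix ℂ := by
  have hP : (Equiv.swap x y).permMatrix ℂ * (Equiv.swap x y).permMatrix ℂ = 1 := by
    rw [← Matrix.permMatrix_mul, Equiv.swap_mul_self, Matrix.permMatrix_one]
  generalize (Equiv.swap x y).permMatrix ℂ = P at hP
  obtain ⟨S, hS⟩ : ∃ S : Matrix (Fin n) (Fin n) ℂ,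
      S = ((1 + Complex.I) / 2) • (1 : Matrix (Fin n) (Fin n) ℂ) + ((1 - Complex.I) / 2) • P :=
    ⟨_, rfl⟩
  have hSS : S * S = P := by
    rw [hS]
    simp only [Matrix.add_mul, Matrix.mul_add, Matrix.smul_mul, Matrix.mul_smul, Matrix.one_mul,
      Matrix.mul_one, hP]
    have e1 : (1 + Complex.I) / 2 * ((1 + Complex.I) / 2) +
        (1 - Complex.I) / 2 * ((1 - Complex.I) / 2) = 0 := by
      linear_combination Complex.I_mul_I / 2
    have e2 : (1 + Complex.I) / 2 * ((1 - Complex.I) / 2) +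
        (1 - Complex.I) / 2 * ((1 + Complex.I) / 2) = 1 := by
      linear_combination -Complex.I_mul_I / 2
    linear_combination (norm := module) e1 • (1 : Matrix (Fin n) (Fin n) ℂ) + e2 • P
  have hPS : P * S = S * P := by
    rw [hS]
    simp only [Matrix.add_mul, Matrix.mul_add, Matrix.smul_mul, Matrix.mul_smul, Matrix.one_mul,
      Matrix.mul_one]
  refine ⟨⟨S, S * P, ?_, ?_⟩, hSS⟩
  · rw [← Matrix.mul_assoc, hSS, hP]
  · rw [Matrix.mul_assoc, hPS, ← Matrix.mul_assoc, hSS, hP]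

private theorem Pt_prm (σ : Equiv.Perm (Fin n)) (X : Matrix (Fin n) (Fin n) ℂ) :
    σ.permMatrix ℂ * X * (σ.permMatrix ℂ)ᵀ = prm σ X := by
  rw [Matrix.transpose_permMatrix, PEquiv.toMatrix_toPEquiv_mul, PEquiv.mul_toMatrix_toPEquiv]
  rfl

theorem low_pt0 (k m : ℕ) (L : Matrix (Fin m) (Fin m) ℂ)
    (M : Matrix (Fin (2 * k + 1)) (Fin (2 * k + 1)) ℂ →ₗ[ℂ] Matrix (Fin m) (Fin m) ℂ)
    (hdet : ∀ X, (L + M X).det = eval (fun p => X p.1 p.2) (skewForm (2 * k + 1)))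
    (hT : ∀ t : Fin (2 * k + 1) → ℂ, (∀ i, t i ≠ 0) → Eqv L M (tor t))
    (hS : ∀ σ : Equiv.Perm (Fin (2 * k + 1)), Eqv L M (prm σ)) : 2 ^ (2 * k + 1) - 1 ≤ m := by
  obtain ⟨t, ht, hw⟩ := exists_gen (2 * k + 1)
  refine lowP (c := 1) (L := L) (M := M) (t := t) ⟨one_ne_zero, fun X => ?_, ⟨ht, hw⟩, hT t ht, hS⟩
  rw [hdet X, eval_skew, one_mul]

theorem low_pt (k m : ℕ) (H : Subgroup (GL (Fin (2 * k + 1)) ℂ × ℂˣ))
    (hH : ∀ g : GL (Fin (2 * k + 1)) ℂ, (g, 1) ∈ H) (L : Matrix (Fin m) (Fin m) ℂ)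
    (M : Matrix (Fin (2 * k + 1)) (Fin (2 * k + 1)) ℂ →ₗ[ℂ] Matrix (Fin m) (Fin m) ℂ)
    (hE : PExpr m (skewForm (2 * k + 1)) H L M) : 2 ^ (2 * k + 1) - 1 ≤ m := by
  refine low_pt0 k m L M hE.det (fun t ht => ?_) (fun σ => ?_)
  · have h1 : ∀ i, ∃ z : ℂ, z * z = t i := fun i => by
      obtain ⟨z, hz⟩ := IsAlgClosed.exists_pow_nat_eq (t i) (n := 2) (by norm_num)
      exact ⟨z, by rw [← pow_two]; exact hz⟩
    choose s hs using h1
    have hs0 : ∀ i, s i ≠ 0 := fun i h0 => ht i (by rw [← hs i, h0, mul_zero])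
    let g : GL (Fin (2 * k + 1)) ℂ :=
      { val := Matrix.diagonal s
        inv := Matrix.diagonal fun i => (s i)⁻¹
        val_inv := by
          rw [Matrix.diagonal_mul_diagonal, ← Matrix.diagonal_one]
          congr 1
          funext i
          exact mul_inv_cancel₀ (hs0 i)
        inv_val := by
          rw [Matrix.diagonal_mul_diagonal, ← Matrix.diagonal_one]
          congr 1
          funext i
          exact inv_mul_cancel₀ (hs0 i) }
    have h2 := Pt_sq (hE.eqv (g, 1) (hH g))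
    have h3 : (fun X : Matrix (Fin (2 * k + 1)) (Fin (2 * k + 1)) ℂ =>
        (g : Matrix (Fin (2 * k + 1)) (Fin (2 * k + 1)) ℂ) *
        (g : Matrix (Fin (2 * k + 1)) (Fin (2 * k + 1)) ℂ) * X *
      ((g : Matrix (Fin (2 * k + 1)) (Fin (2 * k + 1)) ℂ) *
        (g : Matrix (Fin (2 * k + 1)) (Fin (2 * k + 1)) ℂ))ᵀ) = tor t := by
      funext X
      show Matrix.diagonal s * Matrix.diagonal s * X *
        (Matrix.diagonal s * Matrix.diagonal s)ᵀ = tor t X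
      rw [Matrix.diagonal_mul_diagonal, Matrix.diagonal_transpose]
      ext i j
      rw [Matrix.mul_diagonal, Matrix.diagonal_mul, hs i, hs j]
      unfold tor
      rw [Matrix.of_apply]
      ring
    rw [h3] at h2
    exact h2
  · have hsw : ∀ x y : Fin (2 * k + 1), Eqv L M (prm (Equiv.swap x y)) := by
      intro x y
      obtain ⟨g, hg⟩ := Pt_swap x y
      have h2 := Pt_sq (hE.eqv (g, 1) (hH g))
      rw [hg] at h2
      simp only [Pt_prm] at h2
      exact h2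
    induction σ using Equiv.Perm.swap_induction_on with
    | one =>
      refine ⟨1, 1, ?_, ?_, fun X => ?_⟩
      · rw [Matrix.det_one]
        exact one_ne_zero
      · rw [Matrix.det_one]
        exact one_ne_zero
      · rw [Matrix.one_mul, Matrix.mul_one]
        rfl
    | swap_mul f x y _ ih =>
      have h := Pt_comp ih (hsw x y)
      exact h

end PadDet.Eq
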