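import Pool.Agent.H.MP_d7db32_ag.Eq.L.Bas

/-!
# MP_d7db32_ag, Eq/L/Shf: the shift

`shf`: let `T i = ∑ a, w a i`. Summing over `a`: `T i = T (σ i) + m δ_σ i`. With `σ = swap i j`: `m` divides
`T i - T j`. Let `μ i = (T i - T 0) / m`; then `m δ_σ i = m (μ i - μ (σ i))`, so `δ_σ i = μ i - μ (σ i)`.
`zs_tr`: transposed expression, weights `- w'` and `- w`.
-/

set_option autoImplicit false

namespace PadDet.Eq

open Matrix

/-- Weights in `ℤ ^ n`, stable under permutations. -/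
structure Zs (n m : ℕ) (c : ℂ) (L : Matrix (Fin m) (Fin m) ℂ)
    (M : Matrix (Fin n) (Fin n) ℂ →ₗ[ℂ] Matrix (Fin m) (Fin m) ℂ)
    (w w' : Fin m → Fin n → ℤ) : Prop extends Zg n m c L M w w' where
  st : ∀ σ : Equiv.Perm (Fin n), ∃ π : Equiv.Perm (Fin m), ∀ a i, w (π a) i = w a (σ i)
  st' : ∀ σ : Equiv.Perm (Fin n), ∃ π : Equiv.Perm (Fin m), ∀ b i, w' (π b) i = w' b (σ i)

theorem shf {k m : ℕ} (hm : m ≠ 0) {c : ℂ} {L : Matrix (Fin m) (Fin m) ℂ}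
    {M : Matrix (Fin (2 * k + 1)) (Fin (2 * k + 1)) ℂ →ₗ[ℂ] Matrix (Fin m) (Fin m) ℂ}
    {w w' : Fin m → Fin (2 * k + 1) → ℤ} (hG : Zg (2 * k + 1) m c L M w w')
    (h : ∀ σ : Equiv.Perm (Fin (2 * k + 1)), ∃ δ : Fin (2 * k + 1) → ℤ,
      (∃ π : Equiv.Perm (Fin m), ∀ a i, w (π a) i = w a (σ i) + δ i) ∧
      ∃ π' : Equiv.Perm (Fin m), ∀ b i, w' (π' b) i = w' b (σ i) + δ i) :
    ∃ μ : Fin (2 * k + 1) → ℤ,
      Zs (2 * k + 1) m c L M (fun a i => w a i - μ i) (fun b i => w' b i - μ i) := by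
  have hm0 : (m : ℤ) ≠ 0 := by exact_mod_cast hm
  have key : ∀ (σ : Equiv.Perm (Fin (2 * k + 1))) (δ : Fin (2 * k + 1) → ℤ)
      (π : Equiv.Perm (Fin m)), (∀ a i, w (π a) i = w a (σ i) + δ i) →
      ∀ i, ∑ a, w a i = ∑ a, w a (σ i) + m * δ i := by
    intro σ δ π hπ i
    rw [← Equiv.sum_comp π (fun a => w a i)]
    simp only [hπ]
    rw [Finset.sum_add_distrib, Finset.sum_const, Finset.card_univ, Fintype.card_fin,
      nsmul_eq_mul]
  have hμ : ∀ i, ∃ z : ℤ, ∑ a, w a i = ∑ a, w a 0 + m * z := by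
    intro i
    obtain ⟨δ, ⟨π, hπ⟩, -⟩ := h (Equiv.swap i 0)
    refine ⟨δ i, ?_⟩
    have h1 := key _ δ π hπ i
    rwa [Equiv.swap_apply_left] at h1
  choose μ hμ using hμ
  have hδ : ∀ (σ : Equiv.Perm (Fin (2 * k + 1))) (δ : Fin (2 * k + 1) → ℤ)
      (π : Equiv.Perm (Fin m)), (∀ a i, w (π a) i = w a (σ i) + δ i) →
      ∀ i, δ i = μ i - μ (σ i) := by
    intro σ δ π hπ i
    have h1 := key σ δ π hπ i
    rw [hμ i, hμ (σ i)] at h1
    have h2 : (m : ℤ) * (δ i) = m * (μ i - μ (σ i)) := by linarith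
    exact mul_left_cancel₀ hm0 h2
  refine ⟨μ, ⟨⟨hG.c0, hG.det, ?_, ?_⟩, ?_, ?_⟩⟩
  · intro b a hb
    funext i
    show w' b i - μ i = w a i - μ i
    rw [hG.gL b a hb]
  · intro b a i j hb
    funext l
    have h1 := congrFun (hG.gE b a i j hb) l
    simp only [Pi.add_apply] at h1 ⊢
    rw [h1]
    ring
  · intro σ
    obtain ⟨δ, ⟨π, hπ⟩, -⟩ := h σ
    refine ⟨π, fun a i => ?_⟩
    show w (π a) i - μ i = w a (σ i) - μ (σ i)
    rw [hπ a i, hδ σ δ π hπ i]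
    ring
  · intro σ
    obtain ⟨δ, ⟨π, hπ⟩, ⟨π', hπ'⟩⟩ := h σ
    refine ⟨π', fun b i => ?_⟩
    show w' (π' b) i - μ i = w' b (σ i) - μ (σ i)
    rw [hπ' b i, hδ σ δ π hπ i]
    ring

theorem zs_tr {n m : ℕ} {c : ℂ} {L : Matrix (Fin m) (Fin m) ℂ}
    {M : Matrix (Fin n) (Fin n) ℂ →ₗ[ℂ] Matrix (Fin m) (Fin m) ℂ}
    {w w' : Fin m → Fin n → ℤ} (h : Zs n m c L M w w') :
    Zs n m c Lᵀ ((Matrix.transposeLinearEquiv (Fin m) (Fin m) ℂ ℂ).toLinearMap ∘ₗ M)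
      (fun b i => - w' b i) (fun a i => - w a i) := by
  refine ⟨⟨h.c0, ?_, ?_, ?_⟩, ?_, ?_⟩
  · intro X
    rw [← h.det X, ← Matrix.det_transpose (L + M X), Matrix.transpose_add]
    rfl
  · intro b a hb
    have h1 := h.gL a b hb
    funext i
    show - w b i = - w' a i
    rw [h1]
  · intro b a i j hb
    have h1 := h.gE a b i j hb
    funext l
    have h2 := congrFun h1 l
    simp only [Pi.add_apply] at h2 ⊢
    show - w b l = - w' a l + _ + _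
    rw [h2]
    ring
  · intro σ
    obtain ⟨π, hπ⟩ := h.st' σ
    refine ⟨π, fun a i => ?_⟩
    show - w' (π a) i = - w' a (σ i)
    rw [hπ]
  · intro σ
    obtain ⟨π, hπ⟩ := h.st σ
    refine ⟨π, fun a i => ?_⟩
    show - w (π a) i = - w a (σ i)
    rw [hπ]

/-- Columns of a weight and of its rearrangements. -/
theorem card_st {n m : ℕ} {w : Fin m → Fin n → ℤ}
    (st : ∀ σ : Equiv.Perm (Fin n), ∃ π : Equiv.Perm (Fin m), ∀ a i, w (π a) i = w a (σ i))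
    (ω : Fin n → ℤ) (σ : Equiv.Perm (Fin n)) :
    Nat.card {a // w a = ω ∘ σ} = Nat.card {a // w a = ω} := by
  obtain ⟨π, hπ⟩ := st σ
  refine Nat.card_congr (Equiv.symm (π.subtypeEquiv fun a => ?_))
  have h1 : w (π a) = w a ∘ σ := by
    funext i
    exact hπ a i
  rw [h1]
  constructor
  · intro h2
    rw [h2]
  · intro h2
    funext i
    have h3 := congrFun h2 (σ.symm i)
    simpa using h3

end PadDet.Eq
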