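import Pool.Agent.H.MP_d7db32_ag.Eq.L.Irr

/-!
# MP_d7db32_ag, Eq/L/Spl: idempotent endomorphisms of a primitive pencil

`good_of`: if `det (Λ(X₁) y + Λ(X) (1 - y))` is never zero, `X₁` fixed, then `y` is good: for
`Λ(X) v = 0` the vector `(1 - y) v` is in the kernel of `Λ(X₁) y + Λ(X) (1 - y)`.
`split_one`: with `Λ(X₁)` invertible (`exists_det`), `G X = det (Λ(X) y + Λ(X₁) (1 - y))`,
`K X = det (Λ(X₁) y + Λ(X) (1 - y))`:
`(Λ(X) y + Λ(X₁) (1 - y)) Λ(X₁)⁻¹ (Λ(X₁) y + Λ(X) (1 - y)) = Λ(X)`, because `Λ(X₁)⁻¹ x = y Λ(X₁)⁻¹`;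
so `G X * K X = det Λ(X₁) * c * F X`; `irr`, `lpoly_det`; `good_of` for `y` or for `1 - y`. From
`y` one gets `x = Λ(X₁) y Λ(X₁)⁻¹`.
-/

set_option autoImplicit false

namespace PadDet.Eq

open Matrix

variable {k m : ℕ} {c : ℂ} {L : Matrix (Fin m) (Fin m) ℂ}
  {M : Matrix (Fin (2 * k + 1)) (Fin (2 * k + 1)) ℂ →ₗ[ℂ] Matrix (Fin m) (Fin m) ℂ}

theorem good_of {x y : Matrix (Fin m) (Fin m) ℂ} (h : Mor L M id x y) (hx : x * x = x)
    (hy : y * y = y) (X₁ : Matrix (Fin (2 * k + 1)) (Fin (2 * k + 1)) ℂ)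
    (h0 : ∀ X, ((L + M X₁) * y + (L + M X) * (1 - y)).det ≠ 0) : Good L M y := by
  intro X v hv
  have hX : x * (L + M X) = (L + M X) * y := h X
  have e1 : ((L + M X₁) * y + (L + M X) * (1 - y)) * (1 - y) = (L + M X) - x * (L + M X) := by
    rw [hX, Matrix.add_mul, Matrix.mul_assoc, Matrix.mul_assoc]
    have e2 : y * (1 - y) = 0 := by rw [Matrix.mul_sub, hy, Matrix.mul_one, sub_self]
    have e3 : (1 - y) * (1 - y) = 1 - y := by
      rw [Matrix.sub_mul, e2, Matrix.one_mul, sub_zero]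
    rw [e2, e3, Matrix.mul_zero, zero_add, Matrix.mul_sub, Matrix.mul_one]
  have e4 : ((L + M X₁) * y + (L + M X) * (1 - y)) *ᵥ ((1 - y) *ᵥ v) = 0 := by
    rw [Matrix.mulVec_mulVec, e1, Matrix.sub_mulVec, ← Matrix.mulVec_mulVec, hv,
      Matrix.mulVec_zero, sub_zero]
  have e5 := Matrix.eq_zero_of_mulVec_eq_zero (h0 X) e4
  rw [Matrix.sub_mulVec, Matrix.one_mulVec] at e5
  exact (sub_eq_zero.1 e5).symm

private theorem spl_key {A A₁ x y : Matrix (Fin m) (Fin m) ℂ} (h1 : A₁.det ≠ 0)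
    (hA : x * A = A * y) (hA₁ : x * A₁ = A₁ * y) (hy : y * y = y) :
    (A * y + A₁ * (1 - y)).det * (A₁ * y + A * (1 - y)).det = A₁.det * A.det := by
  have hu : IsUnit A₁.det := isUnit_iff_ne_zero.2 h1
  have i1 : A₁⁻¹ * A₁ = 1 := Matrix.nonsing_inv_mul A₁ hu
  have i2 : A₁ * A₁⁻¹ = 1 := Matrix.mul_nonsing_inv A₁ hu
  have e2 : y * (1 - y) = 0 := by rw [Matrix.mul_sub, hy, Matrix.mul_one, sub_self]
  have e2' : (1 - y) * y = 0 := by rw [Matrix.sub_mul, hy, Matrix.one_mul, sub_self]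
  have e3 : (1 - y) * (1 - y) = 1 - y := by
    rw [Matrix.sub_mul, e2, Matrix.one_mul, sub_zero]
  have e4 : y * A₁⁻¹ = A₁⁻¹ * x := by
    calc y * A₁⁻¹ = (A₁⁻¹ * A₁) * y * A₁⁻¹ := by rw [i1, Matrix.one_mul]
      _ = A₁⁻¹ * (A₁ * y) * A₁⁻¹ := by simp only [Matrix.mul_assoc]
      _ = A₁⁻¹ * (x * A₁) * A₁⁻¹ := by rw [hA₁]
      _ = A₁⁻¹ * x * (A₁ * A₁⁻¹) := by simp only [Matrix.mul_assoc]
      _ = A₁⁻¹ * x := by rw [i2, Matrix.mul_one]
  have e5 : (A * y + A₁ * (1 - y)) * A₁⁻¹ * (A₁ * y + A * (1 - y)) = A := by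
    have a1 : A * y * A₁⁻¹ * (A₁ * y) = A * y := by
      calc A * y * A₁⁻¹ * (A₁ * y) = A * y * (A₁⁻¹ * A₁) * y := by simp only [Matrix.mul_assoc]
        _ = A * (y * y) := by rw [i1, Matrix.mul_one, Matrix.mul_assoc]
        _ = A * y := by rw [hy]
    have a2 : A * y * A₁⁻¹ * (A * (1 - y)) = 0 := by
      calc A * y * A₁⁻¹ * (A * (1 - y)) = A * (y * A₁⁻¹) * A * (1 - y) := by
            simp only [Matrix.mul_assoc]
        _ = A * A₁⁻¹ * (x * A) * (1 - y) := by rw [e4]; simp only [Matrix.mul_assoc]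
        _ = A * A₁⁻¹ * A * (y * (1 - y)) := by rw [hA]; simp only [Matrix.mul_assoc]
        _ = 0 := by rw [e2, Matrix.mul_zero]
    have a3 : A₁ * (1 - y) * A₁⁻¹ * (A₁ * y) = 0 := by
      calc A₁ * (1 - y) * A₁⁻¹ * (A₁ * y) = A₁ * (1 - y) * (A₁⁻¹ * A₁) * y := by
            simp only [Matrix.mul_assoc]
        _ = A₁ * ((1 - y) * y) := by rw [i1, Matrix.mul_one, Matrix.mul_assoc]
        _ = 0 := by rw [e2', Matrix.mul_zero]
    have a4 : A₁ * (1 - y) * A₁⁻¹ * (A * (1 - y)) = A * (1 - y) := by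
      have b1 : A₁ * (1 - y) * A₁⁻¹ = 1 - x := by
        rw [Matrix.mul_sub, Matrix.mul_one, ← hA₁, Matrix.sub_mul, Matrix.mul_assoc, i2,
          Matrix.mul_one]
      rw [b1, Matrix.sub_mul, Matrix.one_mul, ← Matrix.mul_assoc, hA, Matrix.mul_assoc, e2,
        Matrix.mul_zero, sub_zero]
    rw [Matrix.add_mul, Matrix.add_mul, Matrix.mul_add, Matrix.mul_add, a1, a2, a3, a4, add_zero,
      zero_add, ← Matrix.mul_add, add_sub_cancel, Matrix.mul_one]
  have e6 := congrArg Matrix.det e5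
  rw [Matrix.det_mul, Matrix.det_mul] at e6
  have e7 : A₁⁻¹.det * A₁.det = 1 := by rw [← Matrix.det_mul, i1, Matrix.det_one]
  calc (A * y + A₁ * (1 - y)).det * (A₁ * y + A * (1 - y)).det
      = ((A * y + A₁ * (1 - y)).det * A₁⁻¹.det * (A₁ * y + A * (1 - y)).det) * A₁.det *
          (1 : ℂ) + (A * y + A₁ * (1 - y)).det * (A₁ * y + A * (1 - y)).det *
          (1 - A₁⁻¹.det * A₁.det) := by ring
    _ = A₁.det * A.det := by rw [e6, e7]; ring

theorem split_one (hc : c ≠ 0) (hdet : ∀ X, (L + M X).det = c * Fv X) (hP : Prim L M)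
    {x y : Matrix (Fin m) (Fin m) ℂ} (h : Mor L M id x y) (hx : x * x = x) (hy : y * y = y) :
    (x = 0 ∧ y = 0) ∨ (x = 1 ∧ y = 1) := by
  obtain ⟨X₁, h1⟩ := exists_det hc hdet
  have hA₁ : x * (L + M X₁) = (L + M X₁) * y := h X₁
  have hu : IsUnit (L + M X₁).det := isUnit_iff_ne_zero.2 h1
  have i2 : (L + M X₁) * (L + M X₁)⁻¹ = 1 := Matrix.mul_nonsing_inv _ hu
  have hG : LPoly fun X => ((L + M X) * y + (L + M X₁) * (1 - y)).det := by
    have := lpoly_det (L * y + (L + M X₁) * (1 - y)) ((LinearMap.mulRight ℂ y) ∘ₗ M)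
    have e : (fun X => ((L + M X) * y + (L + M X₁) * (1 - y)).det) = fun X =>
        ((L * y + (L + M X₁) * (1 - y)) + ((LinearMap.mulRight ℂ y) ∘ₗ M) X).det := by
      funext X
      rw [LinearMap.comp_apply, LinearMap.mulRight_apply, Matrix.add_mul]
      congr 1
      abel
    rw [e]
    exact this
  have hK : LPoly fun X => ((L + M X₁) * y + (L + M X) * (1 - y)).det := by
    have := lpoly_det ((L + M X₁) * y + L * (1 - y)) ((LinearMap.mulRight ℂ (1 - y)) ∘ₗ M)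
    have e : (fun X => ((L + M X₁) * y + (L + M X) * (1 - y)).det) = fun X =>
        (((L + M X₁) * y + L * (1 - y)) + ((LinearMap.mulRight ℂ (1 - y)) ∘ₗ M) X).det := by
      funext X
      rw [LinearMap.comp_apply, LinearMap.mulRight_apply, Matrix.add_mul L (M X)]
      congr 1
      abel
    rw [e]
    exact this
  have hGK : ∀ X, ((L + M X) * y + (L + M X₁) * (1 - y)).det *
      ((L + M X₁) * y + (L + M X) * (1 - y)).det = ((L + M X₁).det * c) * Fv X := by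
    intro X
    rw [spl_key h1 (h X) hA₁ hy, hdet X, mul_assoc]
  rcases irr hG hK (mul_ne_zero h1 hc) hGK with h2 | h2
  · left
    have hm : Mor L M id (1 - x) (1 - y) := by
      intro X
      have hX : x * (L + M X) = (L + M X) * y := h X
      show (1 - x) * (L + M X) = (L + M X) * (1 - y)
      rw [Matrix.sub_mul, Matrix.mul_sub, hX, Matrix.one_mul, Matrix.mul_one]
    have hx' : (1 - x) * (1 - x) = 1 - x := by
      rw [Matrix.sub_mul, Matrix.one_mul, Matrix.mul_sub, hx, Matrix.mul_one, sub_self, sub_zero]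
    have hy' : (1 - y) * (1 - y) = 1 - y := by
      rw [Matrix.sub_mul, Matrix.one_mul, Matrix.mul_sub, hy, Matrix.mul_one, sub_self, sub_zero]
    have h3 := good_of hm hx' hy' X₁ (by
      intro X
      rw [sub_sub_cancel, add_comm]
      exact h2 X)
    have h4 := hP _ _ hm hx' hy' h3
    have h5 : y = 0 := by
      have := congrArg (fun z => 1 - z) h4
      simpa using this
    refine ⟨?_, h5⟩
    rw [h5, Matrix.mul_zero] at hA₁
    calc x = x * ((L + M X₁) * (L + M X₁)⁻¹) := by rw [i2, Matrix.mul_one]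
      _ = (x * (L + M X₁)) * (L + M X₁)⁻¹ := by rw [Matrix.mul_assoc]
      _ = 0 := by rw [hA₁, Matrix.zero_mul]
  · right
    have h3 := good_of h hx hy X₁ h2
    have h4 := hP _ _ h hx hy h3
    refine ⟨?_, h4⟩
    rw [h4, Matrix.mul_one] at hA₁
    calc x = x * ((L + M X₁) * (L + M X₁)⁻¹) := by rw [i2, Matrix.mul_one]
      _ = (x * (L + M X₁)) * (L + M X₁)⁻¹ := by rw [Matrix.mul_assoc]
      _ = 1 := by rw [hA₁, i2]

end PadDet.Eq
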